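import Pool.Agent.H479Z.Rat

set_option autoImplicit false
open Set Filter Topology Metric Complex Real

namespace Pool.Agent.H479Z

/-- Cauchy integral over a circle -/
noncomputable def CI (f : ℂ → ℂ) (c : ℂ) (r : ℝ) (z : ℂ) : ℂ :=
  (2 * π * I : ℂ)⁻¹ • ∮ ζ in C(c, r), (ζ - z)⁻¹ • f ζ

theorem CI_congr {f g : ℂ → ℂ} {c : ℂ} {r : ℝ} (hr : 0 ≤ r) (h : ∀ ζ ∈ sphere c r, g ζ = f ζ)
    (z : ℂ) : CI g c r z = CI f c r z := by
  unfold CI
  congr 1
  exact circleIntegral.integral_congr hr fun ζ hζ => by simp only [h ζ hζ]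

theorem CI_int {f : ℂ → ℂ} {c : ℂ} {r : ℝ} (hr : 0 ≤ r) (hf : ContinuousOn f (sphere c r))
    {z : ℂ} (hz : z ∉ sphere c r) : CircleIntegrable (fun ζ => (ζ - z)⁻¹ • f ζ) c r := by
  apply ContinuousOn.circleIntegrable hr
  refine ContinuousOn.smul (ContinuousOn.inv₀ (f := fun ζ : ℂ => ζ - z) (by fun_prop)
    fun ζ hζ h => hz ?_) hf
  rw [sub_eq_zero.1 h] at hζ; exact hζ

theorem CI_add {f g : ℂ → ℂ} {c : ℂ} {r : ℝ} (hr : 0 ≤ r) (hf : ContinuousOn f (sphere c r))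
    (hg : ContinuousOn g (sphere c r)) {z : ℂ} (hz : z ∉ sphere c r) :
    CI (fun ζ => f ζ + g ζ) c r z = CI f c r z + CI g c r z := by
  unfold CI
  rw [← smul_add, ← circleIntegral.integral_add (CI_int hr hf hz) (CI_int hr hg hz)]
  simp only [smul_add]

theorem CI_bound {f : ℂ → ℂ} {c : ℂ} {r M d : ℝ} (hr : 0 ≤ r) (hM : 0 ≤ M) (hd : 0 < d)
    (hf : ∀ ζ ∈ sphere c r, ‖f ζ‖ ≤ M) {z : ℂ} (hz : ∀ ζ ∈ sphere c r, d ≤ ‖ζ - z‖) :
    ‖CI f c r z‖ ≤ M * (r / d) := by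
  unfold CI
  have := circleIntegral.norm_two_pi_i_inv_smul_integral_le_of_norm_le_const
    (f := fun ζ => (ζ - z)⁻¹ • f ζ) (c := c) (C := d⁻¹ * M) hr (fun ζ hζ => by
      rw [norm_smul, norm_inv]
      have h1 := hz ζ hζ
      have h2 := hf ζ hζ
      gcongr)
  refine this.trans (le_of_eq ?_)
  field_simp

theorem CI_bound_in {f : ℂ → ℂ} {c : ℂ} {r M : ℝ} (hM : 0 ≤ M)
    (hf : ∀ ζ ∈ sphere c r, ‖f ζ‖ ≤ M) {z : ℂ} (hz : z ∈ ball c r) :
    ‖CI f c r z‖ ≤ M * (r / (r - ‖z - c‖)) := by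
  rw [mem_ball, dist_eq_norm] at hz
  refine CI_bound (le_trans (norm_nonneg _) hz.le) hM (by linarith) hf fun ζ hζ => ?_
  rw [mem_sphere, dist_eq_norm] at hζ
  have := norm_sub_norm_le (ζ - c) (z - c)
  rw [hζ, sub_sub_sub_cancel_right] at this
  exact this

theorem CI_bound_out {f : ℂ → ℂ} {c : ℂ} {r M : ℝ} (hr : 0 ≤ r) (hM : 0 ≤ M)
    (hf : ∀ ζ ∈ sphere c r, ‖f ζ‖ ≤ M) {z : ℂ} (hz : z ∉ closedBall c r) :
    ‖CI f c r z‖ ≤ M * (r / (‖z - c‖ - r)) := by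
  rw [mem_closedBall, dist_eq_norm, not_le] at hz
  refine CI_bound hr hM (by linarith) hf fun ζ hζ => ?_
  rw [mem_sphere, dist_eq_norm] at hζ
  have := norm_sub_norm_le (z - c) (ζ - c)
  rw [hζ, sub_sub_sub_cancel_right, norm_sub_rev z ζ] at this
  exact this

theorem CI_holo_in {f : ℂ → ℂ} {c : ℂ} {r : ℝ} (hf : DifferentiableOn ℂ f (closedBall c r))
    {z : ℂ} (hz : z ∈ ball c r) : CI f c r z = f z := by
  unfold CI
  rw [hf.circleIntegral_sub_inv_smul hz, smul_smul, inv_mul_cancel₀, one_smul]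
  simp [Real.pi_ne_zero]

theorem CI_holo_out {f : ℂ → ℂ} {c : ℂ} {r : ℝ} (hr : 0 ≤ r)
    (hf : DifferentiableOn ℂ f (closedBall c r))
    {z : ℂ} (hz : z ∉ closedBall c r) : CI f c r z = 0 := by
  unfold CI
  have hd : DifferentiableOn ℂ (fun ζ => (ζ - z)⁻¹ • f ζ) (closedBall c r) := by
    refine DifferentiableOn.smul (DifferentiableOn.inv (h := fun ζ : ℂ => ζ - z) (by fun_prop)
      fun ζ hζ h => hz ?_) hf
    rw [sub_eq_zero.1 h] at hζ; exact hζ
  rw [DiffContOnCl.circleIntegral_eq_zero hr (DiffContOnCl.mk_ball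
    (hd.mono ball_subset_closedBall) hd.continuousOn), smul_zero]

theorem pole_aux {a c z : ℂ} {r : ℝ} (ha : a ∈ ball c r) (hz : z ∉ sphere c r) (hza : z ≠ a)
    (k : ℕ) :
    (∮ ζ in C(c, r), (ζ - z)⁻¹ • ((ζ - a) ^ (k + 1))⁻¹) =
      (z - a)⁻¹ * ((∮ ζ in C(c, r), (ζ - z)⁻¹ • ((ζ - a) ^ k)⁻¹) -
        ∮ ζ in C(c, r), ((ζ - a) ^ (k + 1))⁻¹) := by
  have hr : 0 < r := lt_of_le_of_lt dist_nonneg ha
  have hne : ∀ ζ ∈ sphere c r, ζ - a ≠ 0 := by
    intro ζ hζ h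
    rw [sub_eq_zero.1 h] at hζ
    exact (ne_of_lt ha) hζ
  have hc : ∀ m : ℕ, ContinuousOn (fun ζ : ℂ => ((ζ - a) ^ m)⁻¹) (sphere c r) := fun m =>
    ContinuousOn.inv₀ (by fun_prop) fun ζ hζ => pow_ne_zero _ (hne ζ hζ)
  rw [← circleIntegral.integral_sub (CI_int hr.le (hc k) hz) ((hc _).circleIntegrable hr.le),
    ← circleIntegral.integral_const_mul]
  refine circleIntegral.integral_congr hr.le fun ζ hζ => ?_
  have h1 := hne ζ hζ
  have h2 : ζ - z ≠ 0 := by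
    intro h; rw [sub_eq_zero.1 h] at hζ; exact hz hζ
  have h3 : z - a ≠ 0 := sub_ne_zero.2 hza
  simp only [smul_eq_mul]
  field_simp
  ring

theorem pole_J {a c : ℂ} {r : ℝ} (k : ℕ) :
    (∮ ζ in C(c, r), ((ζ - a) ^ (k + 2))⁻¹) = 0 := by
  have := circleIntegral.integral_sub_zpow_of_ne (n := -((k + 2 : ℕ) : ℤ)) (by omega) c a r
  simpa only [zpow_neg, zpow_natCast] using this

theorem pole_in {a c z : ℂ} {r : ℝ} (ha : a ∈ ball c r) (hz : z ∈ ball c r) (k : ℕ) :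
    (∮ ζ in C(c, r), (ζ - z)⁻¹ • ((ζ - a) ^ (k + 1))⁻¹) = 0 := by
  have hr : 0 < r := lt_of_le_of_lt dist_nonneg ha
  by_cases hza : z = a
  · subst hza
    rw [← pole_J (a := z) (c := c) (r := r) k]
    refine circleIntegral.integral_congr hr.le fun ζ _ => ?_
    simp only [smul_eq_mul]
    rw [← mul_inv]; congr 1; ring
  have hzs : z ∉ sphere c r := fun h => (ne_of_lt hz) h
  induction k with
  | zero =>
    rw [pole_aux ha hzs hza]
    simp only [pow_zero, inv_one, smul_eq_mul, mul_one, zero_add, pow_one]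
    rw [circleIntegral.integral_sub_inv_of_mem_ball hz,
      circleIntegral.integral_sub_inv_of_mem_ball ha, sub_self, mul_zero]
  | succ k ih => rw [pole_aux ha hzs hza, ih, pole_J, sub_zero, mul_zero]

theorem pole_out {a c z : ℂ} {r : ℝ} (ha : a ∈ ball c r) (hz : z ∉ closedBall c r) (k : ℕ) :
    (∮ ζ in C(c, r), (ζ - z)⁻¹ • ((ζ - a) ^ (k + 1))⁻¹) =
      -(2 * π * I) * ((z - a) ^ (k + 1))⁻¹ := by
  have hr : 0 < r := lt_of_le_of_lt dist_nonneg ha
  have hza : z ≠ a := fun h => hz (h ▸ ball_subset_closedBall ha)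
  have hzs : z ∉ sphere c r := fun h => hz (sphere_subset_closedBall h)
  have h3 : z - a ≠ 0 := sub_ne_zero.2 hza
  induction k with
  | zero =>
    rw [pole_aux ha hzs hza]
    simp only [pow_zero, inv_one, zero_add, pow_one]
    have h0 := CI_holo_out (f := fun _ => (1 : ℂ)) hr.le (differentiableOn_const _) hz
    unfold CI at h0
    rw [smul_eq_zero, inv_eq_zero] at h0
    rcases h0 with h0 | h0
    · simp [Real.pi_ne_zero] at h0
    · rw [h0, circleIntegral.integral_sub_inv_of_mem_ball ha]; ring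
  | succ k ih =>
    rw [pole_aux ha hzs hza, ih, pole_J, sub_zero]
    field_simp
    ring

theorem CI_pole_in (e : ℂ) {a c z : ℂ} {r : ℝ} (ha : a ∈ ball c r) (hz : z ∈ ball c r) (k : ℕ) :
    CI (fun ζ => e * ((ζ - a) ^ (k + 1))⁻¹) c r z = 0 := by
  unfold CI
  have : (fun ζ => (ζ - z)⁻¹ • (e * ((ζ - a) ^ (k + 1))⁻¹)) =
      fun ζ => e * ((ζ - z)⁻¹ • ((ζ - a) ^ (k + 1))⁻¹) := by
    ext ζ; simp only [smul_eq_mul]; ring
  rw [this, circleIntegral.integral_const_mul, pole_in ha hz, mul_zero, smul_zero]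

theorem CI_pole_out (e : ℂ) {a c z : ℂ} {r : ℝ} (ha : a ∈ ball c r) (hz : z ∉ closedBall c r)
    (k : ℕ) : CI (fun ζ => e * ((ζ - a) ^ (k + 1))⁻¹) c r z = -(e * ((z - a) ^ (k + 1))⁻¹) := by
  unfold CI
  have : (fun ζ => (ζ - z)⁻¹ • (e * ((ζ - a) ^ (k + 1))⁻¹)) =
      fun ζ => e * ((ζ - z)⁻¹ • ((ζ - a) ^ (k + 1))⁻¹) := by
    ext ζ; simp only [smul_eq_mul]; ring
  rw [this, circleIntegral.integral_const_mul, pole_out ha hz, smul_eq_mul]
  have : (2 * π * I : ℂ) ≠ 0 := by simp [Real.pi_ne_zero]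
  field_simp

/-- a finite classical family of holes -/
structure Cl {ι : Type*} (c0 : ℂ) (R : ℝ) (s : Finset ι) (c : ι → ℂ) (r : ι → ℝ) : Prop where
  Rpos : 0 < R
  pos : ∀ i ∈ s, 0 < r i
  sub : ∀ i ∈ s, closedBall (c i) (r i) ⊆ ball c0 R
  disj : ∀ i ∈ s, ∀ j ∈ s, i ≠ j → Disjoint (closedBall (c i) (r i)) (closedBall (c j) (r j))

/-- the finite cheese -/
def Xs {ι : Type*} (c0 : ℂ) (R : ℝ) (s : Finset ι) (c : ι → ℂ) (r : ι → ℝ) : Set ℂ :=
  closedBall c0 R \ ⋃ i ∈ s, ball (c i) (r i)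

/-- the open finite cheese -/
def Om {ι : Type*} (c0 : ℂ) (R : ℝ) (s : Finset ι) (c : ι → ℂ) (r : ι → ℝ) : Set ℂ :=
  ball c0 R \ ⋃ i ∈ s, closedBall (c i) (r i)

section
variable {ι : Type*} {c0 : ℂ} {R : ℝ} {s : Finset ι} {c : ι → ℂ} {r : ι → ℝ}

theorem mem_Xs {z : ℂ} : z ∈ Xs c0 R s c r ↔ z ∈ closedBall c0 R ∧ ∀ i ∈ s, z ∉ ball (c i) (r i) := by
  simp only [Xs, Set.mem_sdiff, mem_iUnion, not_exists]

theorem mem_Om {z : ℂ} : z ∈ Om c0 R s c r ↔ z ∈ ball c0 R ∧ ∀ i ∈ s, z ∉ closedBall (c i) (r i) := by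
  simp only [Om, Set.mem_sdiff, mem_iUnion, not_exists]

theorem Om_sub_Xs : Om c0 R s c r ⊆ Xs c0 R s c r := fun _ hz =>
  mem_Xs.2 ⟨ball_subset_closedBall (mem_Om.1 hz).1,
    fun i hi h => (mem_Om.1 hz).2 i hi (ball_subset_closedBall h)⟩

theorem isOpen_Om : IsOpen (Om c0 R s c r) :=
  isOpen_ball.sdiff (s.finite_toSet.isClosed_biUnion fun _ _ => isClosed_closedBall)

theorem isCompact_Xs : IsCompact (Xs c0 R s c r) :=
  (isCompact_closedBall _ _).diff (isOpen_biUnion fun _ _ => isOpen_ball)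

theorem Cl.sphere_out (h : Cl c0 R s c r) : sphere c0 R ⊆ Xs c0 R s c r := fun z hz =>
  mem_Xs.2 ⟨sphere_subset_closedBall hz, fun i hi hb =>
    (ne_of_lt (h.sub i hi (ball_subset_closedBall hb))) hz⟩

theorem Cl.sphere_in (h : Cl c0 R s c r) {i : ι} (hi : i ∈ s) :
    sphere (c i) (r i) ⊆ Xs c0 R s c r := fun z hz =>
  mem_Xs.2 ⟨ball_subset_closedBall (h.sub i hi (sphere_subset_closedBall hz)), fun j hj hb => by
    by_cases hij : i = j
    · subst hij; exact (ne_of_lt hb) hz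
    · exact Set.disjoint_left.1 (h.disj i hi j hj hij) (sphere_subset_closedBall hz)
        (ball_subset_closedBall hb)⟩

theorem Cl.mono (h : Cl c0 R s c r) {t : Finset ι} (ht : t ⊆ s) : Cl c0 R t c r :=
  ⟨h.Rpos, fun i hi => h.pos i (ht hi), fun i hi => h.sub i (ht hi),
    fun i hi j hj => h.disj i (ht hi) j (ht hj)⟩

theorem holo_case (h : Cl c0 R s c r) {f : ℂ → ℂ} (hf : DifferentiableOn ℂ f (closedBall c0 R)) :
    DifferentiableOn ℂ (CI f c0 R) (ball c0 R) ∧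
    (∀ i ∈ s, DifferentiableOn ℂ (CI f (c i) (r i)) (closedBall (c i) (r i))ᶜ) ∧
    ∀ z ∈ Om c0 R s c r, f z = CI f c0 R z - ∑ i ∈ s, CI f (c i) (r i) z := by
  have h2 : ∀ i ∈ s, ∀ z ∉ closedBall (c i) (r i), CI f (c i) (r i) z = 0 := fun i hi z hz =>
    CI_holo_out (h.pos i hi).le (hf.mono ((h.sub i hi).trans ball_subset_closedBall)) hz
  refine ⟨?_, fun i hi => ?_, fun z hz => ?_⟩
  · exact (hf.mono ball_subset_closedBall).congr fun z hz => CI_holo_in hf hz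
  · exact (differentiableOn_const 0).congr fun z hz => h2 i hi z hz
  · rw [CI_holo_in hf (mem_Om.1 hz).1, Finset.sum_eq_zero, sub_zero]
    exact fun i hi => h2 i hi z ((mem_Om.1 hz).2 i hi)

/-- Cauchy decomposition of a rational function on a finite classical cheese -/
theorem decomp (h : Cl c0 R s c r) {f : ℂ → ℂ} (hf : IsRat (Xs c0 R s c r) f) :
    DifferentiableOn ℂ (CI f c0 R) (ball c0 R) ∧
    (∀ i ∈ s, DifferentiableOn ℂ (CI f (c i) (r i)) (closedBall (c i) (r i))ᶜ) ∧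
    ∀ z ∈ Om c0 R s c r, f z = CI f c0 R z - ∑ i ∈ s, CI f (c i) (r i) z := by
  classical
  refine IsRat.induction (K := Xs c0 R s c r) (fun f =>
    DifferentiableOn ℂ (CI f c0 R) (ball c0 R) ∧
    (∀ i ∈ s, DifferentiableOn ℂ (CI f (c i) (r i)) (closedBall (c i) (r i))ᶜ) ∧
    ∀ z ∈ Om c0 R s c r, f z = CI f c0 R z - ∑ i ∈ s, CI f (c i) (r i) z) ?_ ?_ ?_ ?_ hf
  · rintro f g ⟨h1, h2, h3⟩ hfg
    have e0 : CI g c0 R = CI f c0 R :=
      funext fun z => CI_congr h.Rpos.le (fun ζ hζ => hfg ζ (h.sphere_out hζ)) z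
    have e1 : ∀ i ∈ s, CI g (c i) (r i) = CI f (c i) (r i) := fun i hi =>
      funext fun z => CI_congr (h.pos i hi).le (fun ζ hζ => hfg ζ (h.sphere_in hi hζ)) z
    refine ⟨e0 ▸ h1, fun i hi => e1 i hi ▸ h2 i hi, fun z hz => ?_⟩
    rw [hfg z (Om_sub_Xs hz), h3 z hz, e0]
    congr 1
    exact Finset.sum_congr rfl fun i hi => by rw [e1 i hi]
  · rintro f g hf hg ⟨h1, h2, h3⟩ ⟨h1', h2', h3'⟩
    have e0 : ∀ z ∈ ball c0 R, CI (fun ζ => f ζ + g ζ) c0 R z = CI f c0 R z + CI g c0 R z :=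
      fun z hz => CI_add h.Rpos.le (hf.continuousOn.mono h.sphere_out)
        (hg.continuousOn.mono h.sphere_out) fun hs => (ne_of_lt hz) hs
    have e1 : ∀ i ∈ s, ∀ z ∉ closedBall (c i) (r i), CI (fun ζ => f ζ + g ζ) (c i) (r i) z =
        CI f (c i) (r i) z + CI g (c i) (r i) z :=
      fun i hi z hz => CI_add (h.pos i hi).le (hf.continuousOn.mono (h.sphere_in hi))
        (hg.continuousOn.mono (h.sphere_in hi)) fun hs => hz (sphere_subset_closedBall hs)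
    refine ⟨(h1.add h1').congr e0, fun i hi => ((h2 i hi).add (h2' i hi)).congr (e1 i hi),
      fun z hz => ?_⟩
    rw [e0 z (mem_Om.1 hz).1, Finset.sum_congr rfl fun i hi => e1 i hi z ((mem_Om.1 hz).2 i hi),
      Finset.sum_add_distrib]
    show f z + g z = _
    rw [h3 z hz, h3' z hz]; ring
  · intro p
    exact holo_case h p.differentiable.differentiableOn
  · intro e a k ha
    have hdiff : ∀ S : Set ℂ, a ∉ S →
        DifferentiableOn ℂ (fun z => e * ((z - a) ^ (k + 1))⁻¹) S := fun S hS z hz =>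
      ((isRat_pole e hS (k + 1)).differentiableAt hz).differentiableWithinAt
    by_cases h0 : a ∈ closedBall c0 R
    swap
    · exact holo_case h (hdiff _ h0)
    obtain ⟨m, hm, ham⟩ : ∃ m ∈ s, a ∈ ball (c m) (r m) := by
      by_contra hcon
      push Not at hcon
      exact ha (mem_Xs.2 ⟨h0, hcon⟩)
    have ha0 : a ∈ ball c0 R := h.sub m hm (ball_subset_closedBall ham)
    have h2 : ∀ i ∈ s, i ≠ m → ∀ z ∉ closedBall (c i) (r i),
        CI (fun z => e * ((z - a) ^ (k + 1))⁻¹) (c i) (r i) z = 0 := fun i hi him z hz =>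
      CI_holo_out (h.pos i hi).le (hdiff _ fun hh =>
        Set.disjoint_left.1 (h.disj i hi m hm him) hh (ball_subset_closedBall ham)) hz
    refine ⟨?_, fun i hi => ?_, fun z hz => ?_⟩
    · exact (differentiableOn_const 0).congr fun z hz => CI_pole_in e ha0 hz k
    · by_cases him : i = m
      · subst him
        refine ((hdiff (closedBall (c i) (r i))ᶜ ?_).neg).congr fun z hz => CI_pole_out e ham hz k
        exact fun hh => hh (ball_subset_closedBall ham)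
      · exact (differentiableOn_const 0).congr fun z hz => h2 i hi him z hz
    · rw [CI_pole_in e ha0 (mem_Om.1 hz).1 k, Finset.sum_eq_single m, 
        CI_pole_out e ham ((mem_Om.1 hz).2 m hm) k]
      · ring
      · exact fun i hi him => h2 i hi him z ((mem_Om.1 hz).2 i hi)
      · exact fun hh => absurd hm hh

end

/-- a rational function on a decreasing intersection has its poles off a finite stage -/
theorem IsRat.stage {Y : ℕ → Set ℂ} (hc : ∀ n, IsCompact (Y n)) (hm : ∀ n, Y (n + 1) ⊆ Y n)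
    {f : ℂ → ℂ} (hf : IsRat (⋂ n, Y n) f) : ∃ n, IsRat (Y n) f := by
  obtain ⟨p, q, h1, h2⟩ := hf
  by_contra hcon
  push Not at hcon
  have hne : ∀ n, (Y n ∩ {z | q.eval z = 0}).Nonempty := by
    intro n
    by_contra hh
    apply hcon n
    refine ⟨p, q, fun z hz h0 => hh ⟨z, hz, h0⟩, h2⟩
  have hcl : IsClosed {z : ℂ | q.eval z = 0} := isClosed_eq q.continuous continuous_const
  obtain ⟨z, hz⟩ := IsCompact.nonempty_iInter_of_sequence_nonempty_isCompact_isClosed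
    (fun n => Y n ∩ {z | q.eval z = 0}) (fun n => inter_subset_inter_left _ (hm n)) hne
    ((hc 0).inter_right hcl) (fun n => (hc n).isClosed.inter hcl)
  rw [mem_iInter] at hz
  exact h1 z (mem_iInter.2 fun n => (hz n).1) (hz 0).2

end Pool.Agent.H479Z
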