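import Pool.Agent.H479Z.Dom
import Pool.Agent.H479Z.Cauchy

set_option autoImplicit false
open Set Filter Topology Metric MeasureTheory

namespace Pool.Agent.H479Z

variable {K : Set ℂ}

theorem RX_mul (hK : IsCompact K) {F G : C(K, ℂ)} (hF : F ∈ RX K) (hG : G ∈ RX K) :
    F * G ∈ RX K := by
  have : CompactSpace K := isCompact_iff_compactSpace.1 hK
  refine RX_of_approx hK fun ε hε => ?_
  set B := ‖F‖ + ‖G‖ + 1 with hB
  have hB0 : 0 < B := by positivity
  obtain ⟨f, hf, h1⟩ := RX_approx hK hF (ε := min 1 (ε / (2 * B))) (by positivity)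
  obtain ⟨g, hg, h2⟩ := RX_approx hK hG (ε := min 1 (ε / (2 * B))) (by positivity)
  refine ⟨fun z => f z * g z, hf.mul hg, fun z => ?_⟩
  have e : (F * G) z - f z * g z = (F z - f z) * G z + f z * (G z - g z) := by
    simp only [ContinuousMap.mul_apply]; ring
  rw [e]
  have a1 : ‖F z - f z‖ ≤ ε / (2 * B) := (h1 z).le.trans (min_le_right _ _)
  have a2 : ‖G z - g z‖ ≤ ε / (2 * B) := (h2 z).le.trans (min_le_right _ _)
  have a3 : ‖G z‖ ≤ B := by linarith [G.norm_coe_le_norm z, norm_nonneg F]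
  have a4 : ‖f z‖ ≤ B := by
    have b1 : ‖F z - f z‖ ≤ 1 := (h1 z).le.trans (min_le_left _ _)
    have b2 := norm_sub_norm_le (f z) (F z)
    rw [norm_sub_rev] at b2
    linarith [F.norm_coe_le_norm z, norm_nonneg G]
  refine (norm_add_le _ _).trans ?_
  rw [norm_mul, norm_mul]
  calc ‖F z - f z‖ * ‖G z‖ + ‖f z‖ * ‖G z - g z‖ ≤ ε / (2 * B) * B + B * (ε / (2 * B)) := by
        gcongr
    _ = ε := by field_simp; ring

theorem RX_pow (hK : IsCompact K) {F : C(K, ℂ)} (hF : F ∈ RX K) (n : ℕ) : F ^ n ∈ RX K := by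
  induction n with
  | zero =>
    have e : F ^ 0 = (isRat_const (K := K) 1).res := by ext z; simp
    rw [e]; exact IsRat.res_mem _
  | succ n ih => rw [pow_succ]; exact RX_mul hK ih hF

/-- approximation within the unit ball -/
theorem RX_approx_ball (hK : IsCompact K) {F : C(K, ℂ)} (hF : F ∈ RX K) (hb : ∀ z, ‖F z‖ ≤ 1)
    {ε : ℝ} (hε : 0 < ε) : ∃ f, IsRat K f ∧ (∀ z ∈ K, ‖f z‖ ≤ 1) ∧ ∀ z : K, ‖F z - f z‖ ≤ ε := by
  obtain ⟨f, hf, h1⟩ := RX_approx hK hF (ε := ε / 2) (by positivity)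
  have hp : 0 < 1 + ε / 2 := by positivity
  have hn : ∀ z : K, ‖((1 + ε / 2 : ℝ) : ℂ)⁻¹ * f z‖ ≤ 1 := by
    intro z
    rw [norm_mul, norm_inv, Complex.norm_real, Real.norm_eq_abs, abs_of_pos hp,
      inv_mul_le_iff₀ hp]
    have b2 := norm_sub_norm_le (f z) (F z)
    rw [norm_sub_rev] at b2
    linarith [h1 z, hb z]
  refine ⟨fun z => ((1 + ε / 2 : ℝ) : ℂ)⁻¹ * f z, hf.const_mul _, fun z hz => hn ⟨z, hz⟩,
    fun z => ?_⟩
  have hne : ((1 + ε / 2 : ℝ) : ℂ) ≠ 0 := Complex.ofReal_ne_zero.2 hp.ne'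
  have e : F z - ((1 + ε / 2 : ℝ) : ℂ)⁻¹ * f z =
      (F z - f z) + ((ε / 2 : ℝ) : ℂ) * (((1 + ε / 2 : ℝ) : ℂ)⁻¹ * f z) := by
    have : ((ε / 2 : ℝ) : ℂ) = ((1 + ε / 2 : ℝ) : ℂ) - 1 := by push_cast; ring
    rw [this]
    generalize ((1 + ε / 2 : ℝ) : ℂ) = a at hne
    field_simp
    ring
  show ‖F z - ((1 + ε / 2 : ℝ) : ℂ)⁻¹ * f z‖ ≤ ε
  rw [e]
  refine (norm_add_le _ _).trans ?_
  rw [norm_mul, Complex.norm_real, Real.norm_eq_abs, abs_of_pos (by positivity : 0 < ε / 2)]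
  have := mul_le_mul_of_nonneg_left (hn z) (by positivity : 0 ≤ ε / 2)
  linarith [h1 z]

theorem nonpeak_of (hK : IsCompact K) {x : K} {S : Set ℂ} (hS : IsCompact S) (hSK : S ⊆ K)
    (hx : (x : ℂ) ∉ S) {δ θ : ℝ} (hδ : 0 < δ) (hθ : θ < 1)
    (h : ∀ f, IsRat K f → (∀ z ∈ K, ‖f z‖ ≤ 1) → (∀ z ∈ S, ‖f z‖ ≤ δ) → ‖f x‖ ≤ θ) :
    ¬ IsPeak K x := by
  rintro ⟨F, hF, hFx, hFy⟩
  have hb : ∀ z, ‖F z‖ ≤ 1 := by
    intro z
    by_cases hz : z = x
    · rw [hz, hFx]; simp
    · exact (hFy z hz).le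
  obtain ⟨t, ht0, ht1, ht⟩ : ∃ t : ℝ, 0 ≤ t ∧ t < 1 ∧ ∀ z : K, (z : ℂ) ∈ S → ‖F z‖ ≤ t := by
    have hc : IsCompact ((Subtype.val : K → ℂ) ⁻¹' S) :=
      Topology.IsInducing.subtypeVal.isCompact_preimage' hS (by simpa using hSK)
    rcases ((Subtype.val : K → ℂ) ⁻¹' S).eq_empty_or_nonempty with he | hne
    · refine ⟨0, le_rfl, one_pos, fun z hz => ?_⟩
      have : z ∈ (Subtype.val : K → ℂ) ⁻¹' S := hz
      rw [he] at this; exact absurd this (notMem_empty _)
    · obtain ⟨z0, hz0, hmax⟩ := hc.exists_isMaxOn hne F.continuous.norm.continuousOn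
      refine ⟨‖F z0‖, norm_nonneg _, hFy z0 ?_, fun z hz => hmax hz⟩
      rintro rfl; exact hx hz0
  obtain ⟨k, hk⟩ := exists_pow_lt_of_lt_one (by positivity : 0 < δ / 2) ht1
  have hbk : ∀ z, ‖(F ^ k) z‖ ≤ 1 := fun z => by
    rw [ContinuousMap.pow_apply, norm_pow]; exact pow_le_one₀ (norm_nonneg _) (hb z)
  obtain ⟨f, hf, hf1, hf2⟩ := RX_approx_ball hK (RX_pow hK hF k) hbk
    (ε := min (δ / 2) ((1 - θ) / 2)) (by positivity)
  have h1 := h f hf hf1 (fun z hz => by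
    have a1 := (hf2 ⟨z, hSK hz⟩).trans (min_le_left _ _)
    have a2 : ‖(F ^ k) ⟨z, hSK hz⟩‖ ≤ t ^ k := by
      rw [ContinuousMap.pow_apply, norm_pow]
      exact pow_le_pow_left₀ (norm_nonneg _) (ht _ hz) k
    have b2 := norm_sub_norm_le (f z) ((F ^ k) ⟨z, hSK hz⟩)
    rw [norm_sub_rev] at b2
    simp only at a1
    linarith)
  have a1 := (hf2 x).trans (min_le_right _ _)
  rw [ContinuousMap.pow_apply, hFx, one_pow] at a1
  have b2 := norm_sub_norm_le (1 : ℂ) (f x)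
  rw [norm_one] at b2
  linarith

/-- general theorem: a compact set without interior with a nonpeak point has a nonpeak point
without bounded point derivations. -/
theorem exists_nonpeak_no_bpd (hK : IsCompact K) (hint : interior K = ∅) {x : K}
    (hx : ¬ IsPeak K x) :
    ∃ y : K, ¬ IsPeak K y ∧ ∀ D, IsBPD K y D → ∀ F ∈ RX K, D F = 0 := by
  obtain ⟨y, hy, hn, hM⟩ := exists_unbdd hK hint x.2 (ε := 1 / 2) (by norm_num)
  refine ⟨⟨y, hy⟩, ?_, fun D hD => bpd_zero hK hM hD⟩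
  by_cases hxy : y = x
  · subst hxy; exact hx
  refine nonpeak_of hK (S := {(x : ℂ)}) isCompact_singleton (by simp) hxy (δ := 1 / 4)
    (θ := 3 / 4) (by norm_num) (by norm_num) fun f hf hb hs => ?_
  have h1 := hn f hf hb
  have h2 := hs x rfl
  have b2 := norm_sub_norm_le (f y) (f x)
  rw [norm_sub_rev] at b2
  simp only
  linarith

/-- positive area -/
theorem area_pos {c0 : ℂ} {R : ℝ} {c : ℕ → ℂ} {r : ℕ → ℝ} (hR : 0 < R) (hr : ∀ n, 0 < r n)
    (hsub : ∀ n, closedBall (c n) (r n) ⊆ ball c0 R) (hs : Summable r) :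
    volume (ball c0 R \ ⋃ n, closedBall (c n) (r n)) ≠ 0 := by
  intro h0
  set G := ball c0 R \ ⋃ n, closedBall (c n) (r n) with hG
  have hGm : MeasurableSet G :=
    measurableSet_ball.diff (MeasurableSet.iUnion fun _ => measurableSet_closedBall)
  have hmp := Complex.volume_preserving_equiv_real_prod.symm
  have h1 : volume (Complex.measurableEquivRealProd.symm ⁻¹' G) = 0 := by
    rw [hmp.measure_preimage hGm.nullMeasurableSet, h0]
  rw [Measure.volume_eq_prod, Measure.measure_prod_null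
    (Complex.measurableEquivRealProd.symm.measurable hGm)] at h1
  have h2 : ∀ᵐ s : ℝ, {n | s ∈ Icc ((c n).re - r n) ((c n).re + r n)}.Finite := by
    apply ae_finite_setOfPred_mem
    have : ∀ n, volume (Icc ((c n).re - r n) ((c n).re + r n)) = ENNReal.ofReal (2 * r n) := by
      intro n; rw [Real.volume_Icc]; congr 1; ring
    simp only [this]
    rw [← ENNReal.ofReal_tsum_of_nonneg (fun n => by linarith [hr n]) (hs.mul_left 2)]
    exact ENNReal.ofReal_ne_top
  have h3 : volume (Ioo (c0.re - R) (c0.re + R)) ≠ 0 := by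
    rw [Real.volume_Ioo]; simp; linarith
  obtain ⟨s, hs1, hs2, hs3⟩ : ∃ s ∈ Ioo (c0.re - R) (c0.re + R),
      volume (Prod.mk s ⁻¹' (Complex.measurableEquivRealProd.symm ⁻¹' G)) = 0 ∧
      {n | s ∈ Icc ((c n).re - r n) ((c n).re + r n)}.Finite := by
    obtain ⟨s, hs, h⟩ := Measure.exists_mem_of_measure_ne_zero_of_ae h3 (ae_restrict_of_ae (h1.and h2))
    exact ⟨s, hs, h.1, h.2⟩
  set L : ℝ → ℂ := fun t => (s : ℂ) + (t : ℂ) * Complex.I with hL
  have hLc : Continuous L := by fun_prop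
  set F := ⋃ n ∈ {n | s ∈ Icc ((c n).re - r n) ((c n).re + r n)}, closedBall (c n) (r n) with hF
  have hFc : IsClosed F := hs3.isClosed_biUnion fun _ _ => isClosed_closedBall
  have hsl : L ⁻¹' (ball c0 R \ F) ⊆ Prod.mk s ⁻¹' (Complex.measurableEquivRealProd.symm ⁻¹' G) := by
    intro t ht
    have e : Complex.measurableEquivRealProd.symm (s, t) = L t := by
      apply Complex.ext <;> simp [hL]
    show Complex.measurableEquivRealProd.symm (s, t) ∈ G
    rw [e]
    refine ⟨ht.1, fun hh => ht.2 ?_⟩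
    obtain ⟨n, hn⟩ := mem_iUnion.1 hh
    refine mem_biUnion (x := n) ?_ hn
    rw [mem_closedBall, dist_eq_norm] at hn
    have := (Complex.abs_re_le_norm (L t - c n)).trans hn
    have e2 : (L t - c n).re = s - (c n).re := by simp [hL]
    rw [e2, abs_le] at this
    exact ⟨by linarith [this.1], by linarith [this.2]⟩
  have hopen : IsOpen (L ⁻¹' (ball c0 R \ F)) := (isOpen_ball.sdiff hFc).preimage hLc
  have hemp : L ⁻¹' (ball c0 R \ F) = ∅ :=
    hopen.eq_empty_of_measure_zero (measure_mono_null hsl hs2)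
  have hclopen : IsClopen (L ⁻¹' ball c0 R) := by
    refine ⟨?_, isOpen_ball.preimage hLc⟩
    have : L ⁻¹' ball c0 R = L ⁻¹' F := by
      ext t
      constructor
      · intro ht
        by_contra hh
        have : t ∈ L ⁻¹' (ball c0 R \ F) := ⟨ht, hh⟩
        rw [hemp] at this; exact this
      · intro ht
        obtain ⟨n, -, hn⟩ := mem_iUnion₂.1 ht
        exact hsub n hn
    rw [this]; exact hFc.preimage hLc
  rcases isClopen_iff.1 hclopen with h | h
  · have : c0.im ∈ L ⁻¹' ball c0 R := by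
      show L c0.im ∈ ball c0 R
      rw [mem_ball, dist_eq_norm]
      have e : L c0.im - c0 = ((s - c0.re : ℝ) : ℂ) := by
        apply Complex.ext <;> simp [hL]
      rw [e, Complex.norm_real, Real.norm_eq_abs, abs_lt]
      exact ⟨by linarith [hs1.1], by linarith [hs1.2]⟩
    rw [h] at this; exact this
  · have : c0.im + R ∈ L ⁻¹' ball c0 R := by rw [h]; trivial
    have h4 : ‖L (c0.im + R) - c0‖ < R := by
      rw [← dist_eq_norm]; exact this
    have h5 := Complex.abs_im_le_norm (L (c0.im + R) - c0)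
    have e : (L (c0.im + R) - c0).im = R := by simp [hL]
    rw [e, abs_of_pos hR] at h5
    linarith

theorem pot_ae {c0 : ℂ} {R : ℝ} {c : ℕ → ℂ} {r : ℕ → ℝ} (hR : 0 < R) (hr : ∀ n, 0 < r n)
    (hs : Summable r) :
    ∀ᵐ z ∂(volume.restrict (closedBall c0 R)), Summable fun n => r n * ‖z - c n‖⁻¹ := by
  have hm : ∀ n, Measurable fun z : ℂ => ENNReal.ofReal (r n * ‖z - c n‖⁻¹) := fun n => by fun_prop
  have hfin : ∫⁻ z in closedBall c0 R, ∑' n, ENNReal.ofReal (r n * ‖z - c n‖⁻¹) ≠ ⊤ := by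
    rw [lintegral_tsum fun n => (hm n).aemeasurable]
    have hb : ∀ n, ∫⁻ z in closedBall c0 R, ENNReal.ofReal (r n * ‖z - c n‖⁻¹) ≤
        ENNReal.ofReal (r n * (6 * Real.pi * R)) := by
      intro n
      obtain ⟨h1, h2⟩ := Pool.Agent.Helper430.NP.job_ker c0 R hR (c n)
      rw [← ofReal_integral_eq_lintegral_ofReal (h1.const_mul _)
        (Eventually.of_forall fun z => by have := hr n; positivity), integral_const_mul]
      exact ENNReal.ofReal_le_ofReal (mul_le_mul_of_nonneg_left h2 (hr n).le)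
    refine ne_top_of_le_ne_top ?_ (ENNReal.tsum_le_tsum hb)
    rw [← ENNReal.ofReal_tsum_of_nonneg (fun n => by have := hr n; positivity) (hs.mul_right _)]
    exact ENNReal.ofReal_ne_top
  filter_upwards [ae_lt_top (Measurable.ennreal_tsum hm) hfin] with z hz
  have := ENNReal.summable_toReal hz.ne
  refine this.congr fun n => ENNReal.toReal_ofReal ?_
  have := hr n; positivity

/-- a classical Swiss cheese has a nonpeak point -/
theorem exists_nonpeak {c0 : ℂ} {R : ℝ} {c : ℕ → ℂ} {r : ℕ → ℝ} (hR : 0 < R) (hr : ∀ n, 0 < r n)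
    (hsub : ∀ n, closedBall (c n) (r n) ⊆ ball c0 R)
    (hdisj : ∀ m n, m ≠ n → Disjoint (closedBall (c m) (r m)) (closedBall (c n) (r n)))
    (hs : Summable r) :
    ∃ x : (closedBall c0 R \ ⋃ n, ball (c n) (r n) : Set ℂ),
      ¬ IsPeak (closedBall c0 R \ ⋃ n, ball (c n) (r n)) x := by
  set X : Set ℂ := closedBall c0 R \ ⋃ n, ball (c n) (r n) with hX
  have hXc : IsCompact X := (isCompact_closedBall _ _).diff (isOpen_iUnion fun _ => isOpen_ball)
  have hCl : ∀ s : Finset ℕ, Cl c0 R s c r := fun s =>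
    ⟨hR, fun i _ => hr i, fun i _ => hsub i, fun i _ j _ h => hdisj i j h⟩
  obtain ⟨x, hxG, hxs⟩ : ∃ x ∈ ball c0 R \ ⋃ n, closedBall (c n) (r n),
      Summable fun n => r n * ‖x - c n‖⁻¹ := by
    have h1 := (ae_restrict_iff' measurableSet_closedBall).1 (pot_ae (c0 := c0) (c := c) hR hr hs)
    obtain ⟨x, hx, h⟩ := Measure.exists_mem_of_measure_ne_zero_of_ae (area_pos hR hr hsub hs)
      (ae_restrict_of_ae h1)
    exact ⟨x, hx, h (ball_subset_closedBall hx.1)⟩
  have hxn : ∀ n, x ∉ closedBall (c n) (r n) := fun n h => hxG.2 (mem_iUnion.2 ⟨n, h⟩)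
  have hxX : x ∈ X := ⟨ball_subset_closedBall hxG.1, fun h => by
    obtain ⟨n, hn⟩ := mem_iUnion.1 h
    exact hxn n (ball_subset_closedBall hn)⟩
  have hXeq : X = ⋂ N, Xs c0 R (Finset.range N) c r := by
    ext z
    simp only [mem_iInter, mem_Xs, hX, Set.mem_sdiff, mem_iUnion, not_exists, Finset.mem_range]
    exact ⟨fun h N => ⟨h.1, fun i _ => h.2 i⟩,
      fun h => ⟨(h 0).1, fun i => (h (i + 1)).2 i (Nat.lt_succ_self i)⟩⟩
  have hmono : ∀ {s t : Finset ℕ}, s ⊆ t → Xs c0 R t c r ⊆ Xs c0 R s c r := fun hst z hz =>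
    mem_Xs.2 ⟨(mem_Xs.1 hz).1, fun i hi => (mem_Xs.1 hz).2 i (hst hi)⟩
  have hsph : ∀ n, sphere (c n) (r n) ⊆ X := by
    intro n z hz
    rw [hXeq, mem_iInter]
    intro N
    exact hmono (Finset.subset_insert n _) ((hCl _).sphere_in (Finset.mem_insert_self _ _) hz)
  have hsph0 : sphere c0 R ⊆ X := by
    intro z hz
    rw [hXeq, mem_iInter]
    exact fun N => (hCl _).sphere_out hz
  obtain ⟨s, hs4⟩ := summable_iff_vanishing_norm.1 hxs (1 / 4) (by norm_num)
  have hd : ∀ n, 0 < ‖x - c n‖ - r n := fun n => by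
    have := hxn n
    rw [mem_closedBall, dist_eq_norm, not_le] at this
    linarith
  have hd0 : 0 < R - ‖x - c0‖ := by
    have := hxG.1
    rw [mem_ball, dist_eq_norm] at this
    linarith
  set A := R / (R - ‖x - c0‖) + ∑ n ∈ s, r n / (‖x - c n‖ - r n) with hA
  have hA0 : 0 < A := add_pos_of_pos_of_nonneg (by positivity)
    (Finset.sum_nonneg fun n _ => by have := hr n; have := hd n; positivity)
  refine ⟨⟨x, hxX⟩, nonpeak_of hXc (S := sphere c0 R ∪ ⋃ n ∈ s, sphere (c n) (r n))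
    ((isCompact_sphere _ _).union (s.isCompact_biUnion fun _ _ => isCompact_sphere _ _))
    (union_subset hsph0 (iUnion₂_subset fun n _ => hsph n)) ?_ (δ := 1 / (4 * A)) (θ := 3 / 4)
    (by positivity) (by norm_num) fun f hf hb hS => ?_⟩
  · rintro (h | h)
    · exact (ne_of_lt hxG.1) h
    · obtain ⟨n, -, hn⟩ := mem_iUnion₂.1 h
      exact hxn n (sphere_subset_closedBall hn)
  have hf' := hf
  rw [hXeq] at hf'
  obtain ⟨N, hN⟩ := IsRat.stage (fun N => isCompact_Xs)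
    (fun N => hmono (Finset.range_mono (Nat.le_succ N))) hf'
  have hN' : IsRat (Xs c0 R (s ∪ Finset.range N) c r) f :=
    hN.mono (hmono Finset.subset_union_right)
  have e := (decomp (hCl _) hN').2.2 x (mem_Om.2 ⟨hxG.1, fun i _ => hxn i⟩)
  rw [← Finset.union_sdiff_self_eq_union, Finset.sum_union Finset.disjoint_sdiff] at e
  have b0 := CI_bound_in (f := f) (M := 1 / (4 * A)) (by positivity)
    (fun ζ hζ => hS ζ (Or.inl hζ)) hxG.1
  have b1 : ‖∑ n ∈ s, CI f (c n) (r n) x‖ ≤ 1 / (4 * A) * ∑ n ∈ s, r n / (‖x - c n‖ - r n) := by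
    rw [Finset.mul_sum]
    refine norm_sum_le_of_le _ fun n hn => CI_bound_out (hr n).le (by positivity)
      (fun ζ hζ => hS ζ (Or.inr (mem_biUnion hn hζ))) (hxn n)
  have b2 : ‖∑ n ∈ Finset.range N \ s, CI f (c n) (r n) x‖ ≤ 1 / 2 := by
    have h1 := hs4 (Finset.range N \ s) Finset.sdiff_disjoint
    rw [Real.norm_eq_abs, abs_lt] at h1
    refine (norm_sum_le_of_le _ (n := fun n => 2 * (r n * ‖x - c n‖⁻¹)) fun n hn => ?_).trans ?_
    · refine (CI_bound_out (hr n).le zero_le_one (fun ζ hζ => hb ζ (hsph n hζ)) (hxn n)).trans ?_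
      have h2 := hs4 {n} (Finset.disjoint_singleton_left.2 (Finset.mem_sdiff.1 hn).2)
      rw [Finset.sum_singleton, Real.norm_eq_abs, abs_lt] at h2
      have h3 := hd n
      have h4 := hr n
      have h5 : 0 < ‖x - c n‖ := by linarith
      have h6 := h2.2
      rw [← div_eq_mul_inv, div_lt_iff₀ h5] at h6
      rw [one_mul, ← div_eq_mul_inv, ← mul_div_assoc, div_le_div_iff₀ h3 h5]
      nlinarith
    · rw [← Finset.mul_sum]; linarith [h1.2]
  have b3 : 1 / (4 * A) * (R / (R - ‖x - c0‖)) + 1 / (4 * A) * ∑ n ∈ s, r n / (‖x - c n‖ - r n)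
      = 1 / 4 := by
    rw [← mul_add, ← hA]; field_simp
  show ‖f x‖ ≤ 3 / 4
  rw [e]
  refine (norm_sub_le _ _).trans ?_
  linarith [norm_add_le (∑ n ∈ s, CI f (c n) (r n) x) (∑ n ∈ Finset.range N \ s, CI f (c n) (r n) x)]

end Pool.Agent.H479Z
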