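import Pool.Agent.H479Z.Cauchy

set_option autoImplicit false
open Set Filter Topology Metric MeasureTheory

namespace Pool.Agent.H479Z

theorem montel_loc {W : Set ℂ} (hW : IsOpen W) (F : ℕ → ℂ → ℂ)
    (hF : ∀ n, DifferentiableOn ℂ (F n) W) (B : ℂ → ℝ) (hB : ContinuousOn B W)
    (hFB : ∀ n, ∀ z ∈ W, ‖F n z‖ ≤ B z) (U : Ultrafilter ℕ) :
    ∃ Φ : ℂ → ℂ, DifferentiableOn ℂ Φ W ∧ TendstoLocallyUniformlyOn F Φ (U : Filter ℕ) W := by
  have h1 : ∀ z, ∃ v : ℂ, z ∈ W → Tendsto (fun n => F n z) U (𝓝 v) := by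
    intro z
    by_cases hz : z ∈ W
    · obtain ⟨v, -, hv⟩ := (isCompact_closedBall (0 : ℂ) (B z)).ultrafilter_le_nhds
        (U.map (fun n => F n z)) (by
          rw [le_principal_iff, Ultrafilter.coe_map, Filter.mem_map]
          exact univ_mem' fun n => mem_closedBall_zero_iff.2 (hFB n z hz))
      exact ⟨v, fun _ => hv⟩
    · exact ⟨0, fun h => absurd h hz⟩
  choose Φ hΦ using h1
  have hlu : TendstoLocallyUniformlyOn F Φ (U : Filter ℕ) W := by
    rw [Metric.tendstoLocallyUniformlyOn_iff]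
    intro ε hε x hx
    have hev : ∀ᶠ z in 𝓝 x, z ∈ W ∧ B z < B x + 1 :=
      Filter.Eventually.and (hW.mem_nhds hx)
        ((hB.continuousAt (hW.mem_nhds hx)).eventually (gt_mem_nhds (by linarith)))
    obtain ⟨R, hR, hball⟩ := Metric.eventually_nhds_iff_ball.1 hev
    have hRW : ball x R ⊆ W := fun z hz => (hball z hz).1
    set M := B x + 1 with hM
    have hM0 : 0 < M := by linarith [(norm_nonneg _).trans (hFB 0 x hx)]
    set L : ℝ := (2 * M) / R with hL
    have hLp : 0 < L := by positivity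
    have key : ∀ i, ∀ z ∈ ball x R, dist (F i z) (F i x) ≤ L * dist z x := by
      intro i z hz
      apply Complex.dist_le_div_mul_dist_of_mapsTo_ball ((hF i).mono hRW) _ hz
      intro w hw
      rw [mem_closedBall, dist_eq_norm]
      have h1 := (hFB i w (hRW hw)).trans (hball w hw).2.le
      have h2 := hFB i x hx
      have h3 := norm_sub_le (F i w) (F i x)
      linarith
    have keyf : ∀ z ∈ ball x R, dist (Φ z) (Φ x) ≤ L * dist z x := by
      intro z hz
      have h1 : Tendsto (fun i => dist (F i z) (F i x)) U (𝓝 (dist (Φ z) (Φ x))) :=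
        (hΦ z (hRW hz)).dist (hΦ x hx)
      exact le_of_tendsto h1 (Eventually.of_forall fun i => key i z hz)
    refine ⟨ball x (min R (ε / (4 * L))),
      mem_nhdsWithin_of_mem_nhds (ball_mem_nhds _ (by positivity)), ?_⟩
    have hx' : ∀ᶠ i in (U : Filter ℕ), dist (F i x) (Φ x) < ε / 4 :=
      (Metric.tendsto_nhds.1 (hΦ x hx)) _ (by positivity)
    filter_upwards [hx'] with i hi y hy
    have hy1 : y ∈ ball x R := ball_subset_ball (min_le_left _ _) hy
    have hy2 : dist y x < ε / (4 * L) := lt_of_lt_of_le hy (min_le_right _ _)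
    have hy3 : L * dist y x < ε / 4 := by
      calc L * dist y x < L * (ε / (4 * L)) := by gcongr
        _ = ε / 4 := by field_simp
    have h1 := key i y hy1
    have h2 := keyf y hy1
    calc dist (Φ y) (F i y) ≤ dist (Φ y) (Φ x) + dist (Φ x) (F i x) + dist (F i x) (F i y) :=
          dist_triangle4 _ _ _ _
      _ < ε := by
          rw [dist_comm (Φ x), dist_comm (F i x) (F i y)]
          linarith
  exact ⟨Φ, hlu.differentiableOn (Eventually.of_forall hF) hW, hlu⟩

/-- quantitative unique continuation from sets of positive measure -/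
theorem uc_lemma {W K : Set ℂ} (hW : IsOpen W) (hWc : IsPreconnected W) (hK : IsCompact K)
    (hKW : K ⊆ W) (B : ℂ → ℝ) (hB : ContinuousOn B W) {m ε : ℝ} (hm : 0 < m) (hε : 0 < ε) :
    ∃ δ > 0, ∀ F : ℂ → ℂ, DifferentiableOn ℂ F W → (∀ z ∈ W, ‖F z‖ ≤ B z) →
      ENNReal.ofReal m ≤ volume {z ∈ K | ‖F z‖ ≤ δ} → ∀ z ∈ K, ‖F z‖ ≤ ε := by
  by_contra hcon
  push Not at hcon
  have h1 : ∀ n : ℕ, ∃ F : ℂ → ℂ, DifferentiableOn ℂ F W ∧ (∀ z ∈ W, ‖F z‖ ≤ B z) ∧
      ENNReal.ofReal m ≤ volume {z ∈ K | ‖F z‖ ≤ 1 / ((n : ℝ) + 1)} ∧ ∃ z ∈ K, ε < ‖F z‖ :=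
    fun n => hcon _ (by positivity)
  choose F hFd hFB hFm hFz using h1
  obtain ⟨Φ, hΦd, hΦ⟩ := montel_loc hW F hFd B hB hFB (hyperfilter ℕ)
  have hu : TendstoUniformlyOn F Φ (hyperfilter ℕ : Filter ℕ) K :=
    (tendstoLocallyUniformlyOn_iff_forall_isCompact hW).1 hΦ K hKW hK
  rw [Metric.tendstoUniformlyOn_iff] at hu
  have hle : (hyperfilter ℕ : Filter ℕ) ≤ atTop := by
    rw [← Nat.cofinite_eq_atTop]; exact hyperfilter_le_cofinite
  have hΦc : ContinuousOn Φ K := hΦd.continuousOn.mono hKW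
  set Z : ℕ → Set ℂ := fun k => {z ∈ K | ‖Φ z‖ ≤ 1 / ((k : ℝ) + 1)} with hZ
  have hZc : ∀ k, IsClosed (Z k) := fun k =>
    hΦc.norm.preimage_isClosed_of_isClosed hK.isClosed isClosed_Iic
  have hZm : ∀ k, ENNReal.ofReal m ≤ volume (Z k) := by
    intro k
    have e1 := hu (1 / (2 * ((k : ℝ) + 1))) (by positivity)
    have e2 : ∀ᶠ n : ℕ in (hyperfilter ℕ : Filter ℕ), 2 * k + 1 ≤ n := hle (eventually_ge_atTop _)
    obtain ⟨n, hn1, hn2⟩ := (e1.and e2).exists
    refine (hFm n).trans (measure_mono ?_)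
    rintro z ⟨hz, hzn⟩
    refine ⟨hz, ?_⟩
    have a1 := hn1 z hz
    rw [dist_eq_norm] at a1
    have a2 : 1 / ((n : ℝ) + 1) ≤ 1 / (2 * ((k : ℝ) + 1)) := by
      apply one_div_le_one_div_of_le (by positivity)
      have : ((2 * k + 1 : ℕ) : ℝ) ≤ n := by exact_mod_cast hn2
      push_cast at this
      linarith
    have a3 := norm_sub_norm_le (Φ z) (F n z)
    have a4 : 1 / ((k : ℝ) + 1) = 1 / (2 * ((k : ℝ) + 1)) + 1 / (2 * ((k : ℝ) + 1)) := by
      field_simp; ring
    linarith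
  have hanti : Antitone Z := by
    intro a b hab z hz
    refine ⟨hz.1, hz.2.trans (one_div_le_one_div_of_le (by positivity) ?_)⟩
    have : (a : ℝ) ≤ b := by exact_mod_cast hab
    linarith
  have hlim := tendsto_measure_iInter_atTop (μ := volume)
    (fun k => (hZc k).measurableSet.nullMeasurableSet) hanti
    ⟨0, ((measure_mono (sep_subset _ _)).trans_lt hK.measure_lt_top).ne⟩
  have hZ0 : ENNReal.ofReal m ≤ volume (⋂ k, Z k) := ge_of_tendsto' hlim hZm
  have hzero : ∀ z ∈ ⋂ k, Z k, z ∈ K ∧ Φ z = 0 := by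
    intro z hz
    rw [mem_iInter] at hz
    refine ⟨(hz 0).1, norm_le_zero_iff.1 ?_⟩
    exact ge_of_tendsto' tendsto_one_div_add_atTop_nhds_zero_nat fun k => (hz k).2
  have hinf : (⋂ k, Z k).Infinite := by
    intro hfin
    rw [hfin.measure_zero] at hZ0
    exact absurd hZ0 (not_le.2 (ENNReal.ofReal_pos.2 hm))
  obtain ⟨x, hxK, hx⟩ := hinf.exists_accPt_of_subset_isCompact hK fun z hz => (hzero z hz).1
  have hfr : ∃ᶠ z in 𝓝[≠] x, Φ z = 0 := by
    rw [accPt_iff_frequently_nhdsNE] at hx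
    exact hx.mono fun z hz => (hzero z hz).2
  have hall := (hΦd.analyticOnNhd hW).eqOn_zero_of_preconnected_of_frequently_eq_zero hWc
    (hKW hxK) hfr
  obtain ⟨n, hn⟩ := (hu ε hε).exists
  obtain ⟨z, hz, hlt⟩ := hFz n
  have a1 := hn z hz
  rw [hall (hKW hz), Pi.zero_apply, dist_comm, dist_zero_right] at a1
  linarith

theorem annulus_conn (c : ℂ) {r ρ : ℝ} (hr : 0 ≤ r) :
    IsPreconnected (ball c ρ \ closedBall c r) := by
  have e : ball c ρ \ closedBall c r =
      (fun p : ℝ × ℝ => circleMap c p.1 p.2) '' (Ioo r ρ ×ˢ univ) := by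
    ext z
    simp only [Set.mem_sdiff, mem_ball, mem_closedBall, not_le, mem_image, mem_prod, mem_Ioo,
      mem_univ, and_true, Prod.exists]
    constructor
    · rintro ⟨h1, h2⟩
      refine ⟨dist z c, Complex.arg (z - c), ⟨h2, h1⟩, ?_⟩
      rw [circleMap, dist_eq_norm, Complex.norm_mul_exp_arg_mul_I]; ring
    · rintro ⟨t, θ, ⟨h1, h2⟩, rfl⟩
      have : dist (circleMap c t θ) c = t := by
        have := circleMap_mem_sphere c (hr.trans h1.le) θ
        exact this
      rw [this]; exact ⟨h2, h1⟩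
  rw [e]
  refine (isPreconnected_Ioo.prod isPreconnected_univ).image _ (Continuous.continuousOn ?_)
  unfold circleMap
  fun_prop

theorem conn_diff {U : Set ℂ} (hU : IsOpen U) (hUc : IsPreconnected U) {c : ℂ} {r : ℝ}
    (hr : 0 ≤ r) (hsub : closedBall c r ⊆ U) : IsPreconnected (U \ closedBall c r) := by
  obtain ⟨δ, hδ, hth⟩ := (isCompact_closedBall c r).exists_thickening_subset_open hU hsub
  rw [thickening_closedBall hδ hr] at hth
  have hA := annulus_conn c (ρ := δ + r) hr
  have hV : IsOpen (U \ closedBall c r) := hU.sdiff isClosed_closedBall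
  have key : ∀ u v : Set ℂ, IsOpen u → IsOpen v → U \ closedBall c r ⊆ u ∪ v →
      (U \ closedBall c r) ∩ (u ∩ v) = ∅ → ball c (δ + r) \ closedBall c r ⊆ u →
      U \ closedBall c r ⊆ u ∨ U \ closedBall c r ⊆ v := by
    intro u v hu hv hcov hdis hAu
    have h1 := (isPreconnected_iff_subset_of_disjoint.1 hUc)
      ((u ∩ (U \ closedBall c r)) ∪ ball c (δ + r)) (v ∩ (U \ closedBall c r))
      ((hu.inter hV).union isOpen_ball) (hv.inter hV) ?_ ?_
    · rcases h1 with h1 | h1
      · left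
        intro z hz
        rcases h1 hz.1 with h | h
        · exact h.1
        · exact hAu ⟨h, hz.2⟩
      · exact Or.inr fun z hz => (h1 hz.1).1
    · intro z hz
      by_cases hzc : z ∈ closedBall c r
      · exact Or.inl (Or.inr (closedBall_subset_ball (by linarith) hzc))
      · rcases hcov ⟨hz, hzc⟩ with h | h
        · exact Or.inl (Or.inl ⟨h, hz, hzc⟩)
        · exact Or.inr ⟨h, hz, hzc⟩
    · rw [Set.eq_empty_iff_forall_notMem]
      rintro z ⟨-, h | h, hv', hz⟩
      · have : z ∈ (U \ closedBall c r) ∩ (u ∩ v) := ⟨hz, h.1, hv'⟩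
        rw [hdis] at this; exact this
      · have : z ∈ (U \ closedBall c r) ∩ (u ∩ v) := ⟨hz, hAu ⟨h, hz.2⟩, hv'⟩
        rw [hdis] at this; exact this
  rw [isPreconnected_iff_subset_of_disjoint]
  intro u v hu hv hcov hdis
  have hAs : ball c (δ + r) \ closedBall c r ⊆ U \ closedBall c r := sdiff_subset_sdiff_left hth
  rcases isPreconnected_iff_subset_of_disjoint.1 hA u v hu hv (hAs.trans hcov)
    (Set.eq_empty_of_subset_empty (hdis ▸ inter_subset_inter_left _ hAs)) with h | h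
  · exact key u v hu hv hcov hdis h
  · exact (key v u hv hu (union_comm u v ▸ hcov) (inter_comm u v ▸ hdis) h).symm

theorem Cl.conn {ι : Type*} {c0 : ℂ} {R : ℝ} {c : ι → ℂ} {r : ι → ℝ} {s : Finset ι}
    (h : Cl c0 R s c r) : IsPreconnected (Om c0 R s c r) := by
  classical
  induction s using Finset.induction_on with
  | empty =>
    have : Om c0 R (∅ : Finset ι) c r = ball c0 R := by simp [Om]
    rw [this]; exact (convex_ball _ _).isPreconnected
  | insert a s ha ih =>
    have h' : Cl c0 R s c r := h.mono (Finset.subset_insert _ _)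
    have e : Om c0 R (insert a s) c r = Om c0 R s c r \ closedBall (c a) (r a) := by
      ext z
      simp only [mem_Om, Finset.mem_insert, forall_eq_or_imp, Set.mem_sdiff]
      tauto
    rw [e]
    refine conn_diff isOpen_Om (ih h') (h.pos a (Finset.mem_insert_self _ _)).le fun z hz => ?_
    refine mem_Om.2 ⟨h.sub a (Finset.mem_insert_self _ _) hz, fun i hi hzi => ?_⟩
    exact Set.disjoint_left.1 (h.disj a (Finset.mem_insert_self _ _) i
      (Finset.mem_insert_of_mem hi) (fun hh => ha (hh ▸ hi))) hz hzi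

end Pool.Agent.H479Z
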