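import Pool.Agent.H479Z.Step
import Pool.Agent.H479Z.UC
import Pool.Agent.H479Z.Peak

set_option autoImplicit false
open Set Filter Topology Metric MeasureTheory

namespace Pool.Agent.H479Z

/-- bound for the Cauchy integrals of a finite stage -/
noncomputable def BB (H : Finset (ℂ × ℝ)) (z : ℂ) : ℝ :=
  1 / (1 - ‖z - 0‖) + ∑ h ∈ H, h.2 / (‖z - h.1‖ - h.2)

theorem BB_cont (H : Finset (ℂ × ℝ)) : ContinuousOn (BB H) (Om 0 1 H Prod.fst Prod.snd) := by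
  unfold BB
  refine ContinuousOn.add ?_ (continuousOn_finsetSum _ fun h hh => ?_)
  · refine ContinuousOn.div continuousOn_const (by fun_prop) fun z hz => ?_
    have := (mem_Om.1 hz).1
    rw [mem_ball, dist_eq_norm] at this
    linarith
  · refine ContinuousOn.div continuousOn_const (by fun_prop) fun z hz => ?_
    have := (mem_Om.1 hz).2 h hh
    rw [mem_closedBall, dist_eq_norm, not_le] at this
    linarith

/-- the data of one stage of the construction -/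
structure StageRel (j : ℕ) (H : Finset (ℂ × ℝ)) (β : ℝ) (H' : Finset (ℂ × ℝ)) (β' : ℝ)
    (Kc Bad : Set ℂ) (δ : ℝ) : Prop where
  cpt : IsCompact Kc
  sub : Kc ⊆ Om 0 1 H Prod.fst Prod.snd
  vol : volume (Om 0 1 H Prod.fst Prod.snd \ Kc) ≤ ENNReal.ofReal ((1 / 2) ^ j / 4)
  dpos : 0 < δ
  dle : δ ≤ 1 / ((j : ℝ) + 1)
  uc : ∀ F : ℂ → ℂ, DifferentiableOn ℂ F (Om 0 1 H Prod.fst Prod.snd) →
    (∀ z ∈ Om 0 1 H Prod.fst Prod.snd, ‖F z‖ ≤ BB H z) →
    ENNReal.ofReal (1 / ((j : ℝ) + 1)) ≤ volume {z ∈ Kc | ‖F z‖ ≤ δ} →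
    ∀ z ∈ Kc, ‖F z‖ ≤ 1 / ((j : ℝ) + 1)
  b1 : β' ≤ β / 2
  b2 : β' ≤ δ / 4
  mono : H ⊆ H'
  bad : volume Bad ≤ ENNReal.ofReal ((1 / 2) ^ j / 4)
  pot : ∀ z ∈ closedBall (0 : ℂ) 1, z ∉ Bad → ∀ S : Finset (ℂ × ℝ), S ⊆ H' → Disjoint S H →
    (∀ h ∈ S, z ∉ closedBall h.1 h.2) ∧ ∑ h ∈ S, h.2 / (‖z - h.1‖ - h.2) ≤ β'
  rad : ∑ h ∈ H', h.2 ≤ ∑ h ∈ H, h.2 + (1 / 2) ^ j / 4
  test : ∀ x ∈ Xs 0 1 H' Prod.fst Prod.snd, ∃ f, IsRat (Xs 0 1 H' Prod.fst Prod.snd) f ∧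
    (∀ z ∈ Xs 0 1 H' Prod.fst Prod.snd, ‖f z‖ ≤ 1) ∧ (j : ℝ) < ‖deriv f x‖

theorem stage_exists (j : ℕ) (H : Finset (ℂ × ℝ)) (hH : Cl 0 1 H Prod.fst Prod.snd) {β : ℝ}
    (hβ : 0 < β) : ∃ (H' : Finset (ℂ × ℝ)) (β' : ℝ), Cl 0 1 H' Prod.fst Prod.snd ∧ 0 < β' ∧
      ∃ (Kc Bad : Set ℂ) (δ : ℝ), StageRel j H β H' β' Kc Bad δ := by
  have hτ : (0 : ℝ) < (1 / 2) ^ j / 4 := by positivity
  have hfin : volume (Om 0 1 H Prod.fst Prod.snd) ≠ ⊤ :=
    ((measure_mono (fun z hz => (mem_Om.1 hz).1)).trans_lt measure_ball_lt_top).ne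
  obtain ⟨Kc, hsub, hcpt, hvol⟩ := (isOpen_Om (c0 := 0) (R := 1) (s := H) (c := Prod.fst)
    (r := Prod.snd)).measurableSet.exists_isCompact_sdiff_lt hfin
    (ε := ENNReal.ofReal ((1 / 2) ^ j / 4)) (ENNReal.ofReal_pos.2 hτ).ne'
  obtain ⟨δ, hδ, huc⟩ := uc_lemma isOpen_Om hH.conn hcpt hsub (BB H) (BB_cont H)
    (m := 1 / ((j : ℝ) + 1)) (ε := 1 / ((j : ℝ) + 1)) (by positivity) (by positivity)
  set δ' := min δ (1 / ((j : ℝ) + 1)) with hδ'
  have hδ0 : 0 < δ' := by positivity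
  obtain ⟨H', Bad, h1, h2, h3, h4, h5, h6⟩ := step H hH (β := min (β / 2) (δ' / 4))
    (by positivity) hτ j
  refine ⟨H', min (β / 2) (δ' / 4), h2, by positivity, Kc, Bad, δ', hcpt, hsub, hvol.le, hδ0,
    min_le_right _ _, fun F hF hB hm => huc F hF hB (hm.trans (measure_mono ?_)),
    min_le_left _ _, min_le_right _ _, h1, h3, h4, h5, h6⟩
  exact fun z hz => ⟨hz.1, hz.2.trans (min_le_left _ _)⟩

theorem exists_stages : ∃ (H : ℕ → Finset (ℂ × ℝ)) (β : ℕ → ℝ) (Kc Bad : ℕ → Set ℂ) (δ : ℕ → ℝ),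
    H 0 = ∅ ∧ (∀ j, Cl 0 1 (H j) Prod.fst Prod.snd) ∧ (∀ j, 0 < β j) ∧
    ∀ j, StageRel j (H j) (β j) (H (j + 1)) (β (j + 1)) (Kc j) (Bad j) (δ j) := by
  let S := {p : Finset (ℂ × ℝ) × ℝ // Cl 0 1 p.1 Prod.fst Prod.snd ∧ 0 < p.2}
  have h0 : Cl 0 1 (∅ : Finset (ℂ × ℝ)) Prod.fst Prod.snd :=
    ⟨one_pos, by simp, by simp, by simp⟩
  obtain ⟨u, hu0, hu⟩ := exists_seq (⟨(∅, 1), h0, one_pos⟩ : S)
    (fun j s s' => ∃ (Kc Bad : Set ℂ) (δ : ℝ), StageRel j s.1.1 s.1.2 s'.1.1 s'.1.2 Kc Bad δ)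
    (fun j s => by
      obtain ⟨H', β', h1, h2, h3⟩ := stage_exists j s.1.1 s.2.1 s.2.2
      exact ⟨⟨(H', β'), h1, h2⟩, h3⟩)
  choose Kc Bad δ h using hu
  exact ⟨fun j => (u j).1.1, fun j => (u j).1.2, Kc, Bad, δ, by simp only [hu0],
    fun j => (u j).2.1, fun j => (u j).2.2, h⟩

theorem Xs_anti {s t : Finset (ℂ × ℝ)} (hst : s ⊆ t) :
    Xs 0 1 t Prod.fst Prod.snd ⊆ Xs 0 1 s Prod.fst Prod.snd := fun _ hz =>
  mem_Xs.2 ⟨(mem_Xs.1 hz).1, fun i hi => (mem_Xs.1 hz).2 i (hst hi)⟩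

/-- the unique continuation property at a point -/
def UCP (X : Set ℂ) (x : ℂ) : Prop :=
  ∀ m > 0, ∀ ε > 0, ∃ δ > 0, ∀ f, IsRat X f → (∀ z ∈ X, ‖f z‖ ≤ 1) →
    ENNReal.ofReal m ≤ volume {z ∈ X | ‖f z‖ ≤ δ} → ‖f x‖ ≤ ε

theorem exists_cheese : ∃ (H : ℕ → Finset (ℂ × ℝ)) (X G : Set ℂ),
    (∀ j, Cl 0 1 (H j) Prod.fst Prod.snd) ∧ Monotone H ∧ (∀ j, ∑ h ∈ H j, h.2 ≤ 1 / 2) ∧
    X = ⋂ j, Xs 0 1 (H j) Prod.fst Prod.snd ∧ G ⊆ X ∧ volume (X \ G) = 0 ∧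
    (∀ x ∈ X, ∀ M, ¬ DerBd X M x) ∧ ∀ x ∈ G, UCP X x := by
  classical
  obtain ⟨H, β, Kc, Bad, δ, hH0, hCl, hβ, hS⟩ := exists_stages
  have hmono : Monotone H := monotone_nat_of_le_succ fun j => (hS j).mono
  set X := ⋂ j, Xs 0 1 (H j) Prod.fst Prod.snd with hX
  have hXj : ∀ j, X ⊆ Xs 0 1 (H j) Prod.fst Prod.snd := fun j => iInter_subset _ j
  have hsph0 : sphere (0 : ℂ) 1 ⊆ X := subset_iInter fun j => (hCl j).sphere_out
  have hsph : ∀ j, ∀ h ∈ H j, sphere h.1 h.2 ⊆ X := fun j h hh => subset_iInter fun N =>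
    ((hCl (max j N)).sphere_in (hmono (le_max_left _ _) hh)).trans
      (Xs_anti (hmono (le_max_right _ _)))
  have hnull : ∀ j, volume (X \ Om 0 1 (H j) Prod.fst Prod.snd) = 0 := by
    intro j
    have hsub : X \ Om 0 1 (H j) Prod.fst Prod.snd ⊆
        sphere 0 1 ∪ ⋃ h ∈ H j, sphere h.1 h.2 := by
      rintro z ⟨hz, hz'⟩
      obtain ⟨h1, h2⟩ := mem_Xs.1 (hXj j hz)
      rw [mem_Om, not_and_or] at hz'
      rcases hz' with h | h
      · exact Or.inl (le_antisymm h1 (not_lt.1 h))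
      · push Not at h
        obtain ⟨i, hi, h⟩ := h
        exact Or.inr (mem_biUnion hi (le_antisymm h (not_lt.1 (h2 i hi))))
    refine measure_mono_null hsub (measure_union_null (Measure.addHaar_sphere _ _ _) ?_)
    exact (measure_biUnion_null_iff (H j).countable_toSet).2 fun h _ => Measure.addHaar_sphere _ _ _
  have hsumτ : ∀ j, ∑' i, ENNReal.ofReal ((1 / 2 : ℝ) ^ (j + i) / 4) =
      ENNReal.ofReal (2 * ((1 / 2) ^ j / 4)) := by
    intro j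
    have e : ∀ i, (1 / 2 : ℝ) ^ (j + i) / 4 = (1 / 2) ^ j / 4 * (1 / 2) ^ i := fun i => by
      rw [pow_add]; ring
    simp only [e]
    rw [← ENNReal.ofReal_tsum_of_nonneg (fun i => by positivity)
      (summable_geometric_two.mul_left _), tsum_mul_left, tsum_geometric_two, mul_comm]
  have htail : ∀ j, volume (⋃ i, Bad (j + i)) ≤ ENNReal.ofReal (2 * ((1 / 2) ^ j / 4)) := by
    intro j
    rw [← hsumτ j]
    exact (measure_iUnion_le _).trans (ENNReal.tsum_le_tsum fun i => (hS (j + i)).bad)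
  have hfin : ∀ s : ℕ → Set ℂ, (∀ i, volume (s i) ≤ ENNReal.ofReal ((1 / 2) ^ i / 4)) →
      ∀ᵐ z : ℂ, ∀ᶠ n in atTop, z ∉ s n := by
    intro s hs
    apply ae_eventually_notMem
    refine ne_top_of_le_ne_top ?_ (ENNReal.tsum_le_tsum hs)
    have := hsumτ 0
    simp only [zero_add] at this
    rw [this]; exact ENNReal.ofReal_ne_top
  -- the tail estimate
  have hpot : ∀ j, ∀ z ∈ Om 0 1 (H j) Prod.fst Prod.snd, z ∉ (⋃ i, Bad (j + i)) → ∀ n,
      z ∈ Om 0 1 (H (j + n)) Prod.fst Prod.snd ∧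
      ∑ h ∈ H (j + n) \ H j, h.2 / (‖z - h.1‖ - h.2) ≤ 2 * β (j + 1) - 2 * β (j + n + 1) := by
    intro j z hz hzB n
    induction n with
    | zero => exact ⟨hz, by simp⟩
    | succ n ih =>
      obtain ⟨h1, h2⟩ := (hS (j + n)).pot z (ball_subset_closedBall (mem_Om.1 hz).1)
        (fun h => hzB (mem_iUnion.2 ⟨n, h⟩)) (H (j + n + 1) \ H (j + n)) Finset.sdiff_subset
        Finset.sdiff_disjoint
      refine ⟨mem_Om.2 ⟨(mem_Om.1 hz).1, fun h hh => ?_⟩, ?_⟩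
      · by_cases h3 : h ∈ H (j + n)
        · exact (mem_Om.1 ih.1).2 h h3
        · exact h1 h (Finset.mem_sdiff.2 ⟨hh, h3⟩)
      · have e : H (j + (n + 1)) \ H j = (H (j + n + 1) \ H (j + n)) ∪ (H (j + n) \ H j) :=
          (Finset.sdiff_union_sdiff_cancel (hS (j + n)).mono (hmono (Nat.le_add_right _ _))).symm
        rw [e, Finset.sum_union (Finset.disjoint_left.2 fun a ha hb =>
          (Finset.mem_sdiff.1 ha).2 (Finset.mem_sdiff.1 hb).1)]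
        have h3 := (hS (j + n + 1)).b1
        have e2 : j + (n + 1) + 1 = j + n + 1 + 1 := by ring
        rw [e2]
        linarith [ih.2]
  have hdec : ∀ j f, IsRat X f → (∀ z ∈ X, ‖f z‖ ≤ 1) → ∃ F : ℂ → ℂ,
      DifferentiableOn ℂ F (Om 0 1 (H j) Prod.fst Prod.snd) ∧
      (∀ z ∈ Om 0 1 (H j) Prod.fst Prod.snd, ‖F z‖ ≤ BB (H j) z) ∧
      ∀ z ∈ Om 0 1 (H j) Prod.fst Prod.snd, z ∉ (⋃ i, Bad (j + i)) → ‖f z - F z‖ ≤ δ j / 2 := by
    intro j f hf hb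
    obtain ⟨N, hN⟩ := IsRat.stage (fun N => isCompact_Xs) (fun N => Xs_anti (hS N).mono) hf
    have hN' : IsRat (Xs 0 1 (H (j + N)) Prod.fst Prod.snd) f :=
      hN.mono (Xs_anti (hmono (Nat.le_add_left _ _)))
    have hjN : H j ⊆ H (j + N) := hmono (Nat.le_add_right _ _)
    obtain ⟨d1, d2, d3⟩ := decomp (hCl _) hN'
    refine ⟨fun z => CI f 0 1 z - ∑ h ∈ H j, CI f h.1 h.2 z, ?_, fun z hz => ?_, fun z hz hzB => ?_⟩
    · refine (d1.mono fun z hz => (mem_Om.1 hz).1).sub (DifferentiableOn.fun_sum fun h hh => ?_)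
      exact (d2 h (hjN hh)).mono fun z hz => (mem_Om.1 hz).2 h hh
    · refine (norm_sub_le _ _).trans (add_le_add ?_ (norm_sum_le_of_le _ fun h hh => ?_))
      · simpa using CI_bound_in zero_le_one (fun ζ hζ => hb ζ (hsph0 hζ)) (mem_Om.1 hz).1
      · simpa using CI_bound_out ((hCl j).pos h hh).le zero_le_one
          (fun ζ hζ => hb ζ (hsph j h hh hζ)) ((mem_Om.1 hz).2 h hh)
    · obtain ⟨h1, h2⟩ := hpot j z hz hzB N
      rw [d3 z h1, ← Finset.sum_sdiff hjN]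
      have e : CI f 0 1 z - (∑ h ∈ H (j + N) \ H j, CI f h.1 h.2 z + ∑ h ∈ H j, CI f h.1 h.2 z) -
          (CI f 0 1 z - ∑ h ∈ H j, CI f h.1 h.2 z) = -∑ h ∈ H (j + N) \ H j, CI f h.1 h.2 z := by
        ring
      rw [e, norm_neg]
      refine (norm_sum_le_of_le _ (n := fun h => h.2 / (‖z - h.1‖ - h.2)) fun h hh => ?_).trans ?_
      · have hh' := (Finset.mem_sdiff.1 hh).1
        simpa using CI_bound_out ((hCl _).pos h hh').le zero_le_one
          (fun ζ hζ => hb ζ (hsph _ h hh' hζ)) ((mem_Om.1 h1).2 h hh')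
      · linarith [(hS j).b2, hβ (j + N + 1)]
  refine ⟨H, X, {x ∈ X | ∀ᶠ j in atTop, x ∈ Kc j ∧ x ∉ Bad j}, hCl, hmono, fun j => ?_, rfl,
    sep_subset _ _, ?_, ?_, ?_⟩
  · have : ∑ h ∈ H j, h.2 ≤ 1 / 2 - (1 / 2) ^ j / 2 := by
      induction j with
      | zero => simp [hH0]
      | succ j ih => have := (hS j).rad; rw [pow_succ]; linarith
    have h2 : (0 : ℝ) < (1 / 2) ^ j / 2 := by positivity
    linarith
  · have h1 := hfin _ fun j => (hS j).vol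
    have h2 := hfin _ fun j => (hS j).bad
    have h3 : ∀ᵐ z : ℂ, ∀ j, z ∉ X \ Om 0 1 (H j) Prod.fst Prod.snd :=
      ae_all_iff.2 fun j => measure_eq_zero_iff_ae_notMem.1 (hnull j)
    rw [measure_eq_zero_iff_ae_notMem]
    filter_upwards [h1, h2, h3] with z a1 a2 a3
    rintro ⟨hz, hz'⟩
    refine hz' ⟨hz, ?_⟩
    filter_upwards [a1, a2] with j b1 b2
    refine ⟨?_, b2⟩
    by_contra b3
    exact b1 ⟨by by_contra b4; exact a3 j ⟨hz, b4⟩, b3⟩
  · intro x hx M hM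
    obtain ⟨j, hj⟩ := exists_nat_ge M
    obtain ⟨f, hf, hb, hd⟩ := (hS j).test x (hXj _ hx)
    have := hM f (hf.mono (hXj _)) fun z hz => hb z (hXj _ hz)
    linarith
  · rintro x ⟨hx, hev⟩ m hm ε hε
    obtain ⟨J, hJ⟩ := eventually_atTop.1 hev
    have t1 : Tendsto (fun j : ℕ => 1 / ((j : ℝ) + 1)) atTop (𝓝 0) :=
      tendsto_one_div_add_atTop_nhds_zero_nat
    have t2 : Tendsto (fun j : ℕ => (1 / 2 : ℝ) ^ j) atTop (𝓝 0) :=
      tendsto_pow_atTop_nhds_zero_of_lt_one (by norm_num) (by norm_num)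
    obtain ⟨j, hj1, hj2, hj3, hj4⟩ := ((eventually_ge_atTop J).and
      ((t1.eventually (gt_mem_nhds (half_pos hε))).and
      ((t1.eventually (gt_mem_nhds (half_pos hm))).and
      (t2.eventually (gt_mem_nhds (half_pos hm)))))).exists
    refine ⟨δ j / 2, half_pos (hS j).dpos, fun f hf hb hvol => ?_⟩
    obtain ⟨F, hF1, hF2, hF3⟩ := hdec j f hf hb
    have hxB : x ∉ ⋃ i, Bad (j + i) := fun h => by
      obtain ⟨i, hi⟩ := mem_iUnion.1 h
      exact (hJ (j + i) (by omega)).2 hi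
    have hxK := (hJ j hj1).1
    have hsub : {z ∈ X | ‖f z‖ ≤ δ j / 2} ⊆ {z ∈ Kc j | ‖F z‖ ≤ δ j} ∪
        ((Om 0 1 (H j) Prod.fst Prod.snd \ Kc j) ∪ ((⋃ i, Bad (j + i)) ∪
          (X \ Om 0 1 (H j) Prod.fst Prod.snd))) := by
      rintro z ⟨hz, hzf⟩
      by_cases c1 : z ∈ Om 0 1 (H j) Prod.fst Prod.snd
      swap
      · exact Or.inr (Or.inr (Or.inr ⟨hz, c1⟩))
      by_cases c2 : z ∈ ⋃ i, Bad (j + i)
      · exact Or.inr (Or.inr (Or.inl c2))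
      by_cases c3 : z ∈ Kc j
      swap
      · exact Or.inr (Or.inl ⟨c1, c3⟩)
      refine Or.inl ⟨c3, ?_⟩
      have a1 := hF3 z c1 c2
      have a2 := norm_sub_norm_le (F z) (f z)
      rw [norm_sub_rev] at a2
      linarith
    have hv : ENNReal.ofReal (1 / ((j : ℝ) + 1)) ≤ volume {z ∈ Kc j | ‖F z‖ ≤ δ j} := by
      have hτ : (0 : ℝ) < (1 / 2) ^ j / 4 := by positivity
      have a1 : volume ((Om 0 1 (H j) Prod.fst Prod.snd \ Kc j) ∪ ((⋃ i, Bad (j + i)) ∪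
          (X \ Om 0 1 (H j) Prod.fst Prod.snd))) ≤ ENNReal.ofReal (3 * ((1 / 2) ^ j / 4)) := by
        refine (measure_union_le _ _).trans ((add_le_add (hS j).vol
          ((measure_union_le _ _).trans (add_le_add (htail j) (hnull j).le))).trans ?_)
        rw [add_zero, ← ENNReal.ofReal_add hτ.le (by positivity)]
        exact ENNReal.ofReal_le_ofReal (by linarith)
      have a2 := hvol.trans ((measure_mono hsub).trans ((measure_union_le _ _).trans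
        (add_le_add le_rfl a1)))
      have a3 : ENNReal.ofReal (1 / ((j : ℝ) + 1)) + ENNReal.ofReal (3 * ((1 / 2) ^ j / 4)) ≤
          ENNReal.ofReal m := by
        rw [← ENNReal.ofReal_add (by positivity) (by positivity)]
        exact ENNReal.ofReal_le_ofReal (by linarith)
      exact ENNReal.le_of_add_le_add_right ENNReal.ofReal_ne_top (a3.trans a2)
    have b1 := (hS j).uc F hF1 hF2 hv x hxK
    have b2 := hF3 x ((hS j).sub hxK) hxB
    have b3 := (hS j).dle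
    have b4 := norm_sub_norm_le (f x) (F x)
    have b5 := (hS j).dpos
    linarith

theorem cheese_vol {H : ℕ → Finset (ℂ × ℝ)} (hCl : ∀ j, Cl 0 1 (H j) Prod.fst Prod.snd)
    (hmono : Monotone H) (hrad : ∀ j, ∑ h ∈ H j, h.2 ≤ 1 / 2) :
    ENNReal.ofReal 2 ≤ volume (⋂ j, Xs 0 1 (H j) Prod.fst Prod.snd) := by
  have h1 : ∀ j, volume (⋃ h ∈ H j, ball h.1 h.2) ≤ ENNReal.ofReal 1 := by
    intro j
    refine (measure_biUnion_finset_le _ _).trans ?_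
    rw [Finset.sum_congr rfl fun h hh => vol_ball h.1 ((hCl j).pos h hh).le,
      ← ENNReal.ofReal_sum_of_nonneg fun h _ => by have := Real.pi_pos; positivity]
    apply ENNReal.ofReal_le_ofReal
    have h2 : ∀ h ∈ H j, h.2 ^ 2 * Real.pi ≤ 2 * h.2 := by
      intro h hh
      have a := (hCl j).pos h hh
      have b : h.2 ≤ 1 / 2 := (Finset.single_le_sum (f := fun h : ℂ × ℝ => h.2)
        (fun h hh => ((hCl j).pos h hh).le) hh).trans (hrad j)
      have c := Real.pi_lt_four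
      have d := Real.pi_pos
      nlinarith [mul_pos a d]
    refine (Finset.sum_le_sum h2).trans ?_
    rw [← Finset.mul_sum]; linarith [hrad j]
  have h2 : volume (⋃ j, ⋃ h ∈ H j, ball h.1 h.2) ≤ ENNReal.ofReal 1 := by
    rw [Monotone.measure_iUnion]
    · exact iSup_le h1
    · intro a b hab
      exact biUnion_subset_biUnion_left (hmono hab)
  have h3 : closedBall (0 : ℂ) 1 ⊆ (⋂ j, Xs 0 1 (H j) Prod.fst Prod.snd) ∪
      ⋃ j, ⋃ h ∈ H j, ball h.1 h.2 := by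
    intro z hz
    by_cases h : z ∈ ⋃ j, ⋃ h ∈ H j, ball h.1 h.2
    · exact Or.inr h
    · exact Or.inl (mem_iInter.2 fun j => ⟨hz, fun h' => h (mem_iUnion.2 ⟨j, h'⟩)⟩)
  have h4 := (measure_mono (μ := volume) h3).trans ((measure_union_le _ _).trans
    (add_le_add le_rfl h2))
  rw [vol_closedBall _ zero_le_one] at h4
  have h5 : ENNReal.ofReal 2 + ENNReal.ofReal 1 ≤ ENNReal.ofReal (1 ^ 2 * Real.pi) := by
    rw [← ENNReal.ofReal_add (by norm_num) (by norm_num)]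
    exact ENNReal.ofReal_le_ofReal (by linarith [Real.pi_gt_three])
  exact ENNReal.le_of_add_le_add_right ENNReal.ofReal_ne_top (h5.trans h4)

theorem vol_off_ball {X : Set ℂ} (hX : ENNReal.ofReal 2 ≤ volume X) (x : ℂ) :
    ENNReal.ofReal 1 ≤ volume (X \ ball x (1 / 2)) := by
  have h1 : X ⊆ (X \ ball x (1 / 2)) ∪ ball x (1 / 2) := fun z hz => by
    by_cases h : z ∈ ball x (1 / 2)
    · exact Or.inr h
    · exact Or.inl ⟨hz, h⟩
  have h2 := hX.trans ((measure_mono h1).trans (measure_union_le _ _))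
  rw [vol_ball _ (by norm_num)] at h2
  have h3 : ENNReal.ofReal 1 + ENNReal.ofReal ((1 / 2) ^ 2 * Real.pi) ≤ ENNReal.ofReal 2 := by
    rw [← ENNReal.ofReal_add (by norm_num) (by positivity)]
    exact ENNReal.ofReal_le_ofReal (by linarith [Real.pi_lt_four])
  exact ENNReal.le_of_add_le_add_right ENNReal.ofReal_ne_top (h3.trans h2)

/-- a compact set with no bounded point derivations whose algebra is not regular -/
theorem exists_nonregular : ∃ X : Set ℂ, IsCompact X ∧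
    (∀ (x : X) (D : C(X, ℂ) → ℂ), IsBPD X x D → ∀ f ∈ RX X, D f = 0) ∧
    ∃ (F : Set X) (x : X), IsClosed F ∧ x ∉ F ∧ ∀ f ∈ RX X, (∀ y ∈ F, f y = 0) → f x = 0 := by
  obtain ⟨H, X, G, hCl, hmono, hrad, hX, hG, hnull, hder, huc⟩ := exists_cheese
  have hXc : IsCompact X := by
    rw [hX]
    exact isCompact_Xs.of_isClosed_subset (isClosed_iInter fun j => isCompact_Xs.isClosed)
      (iInter_subset _ 0)
  have : CompactSpace X := isCompact_iff_compactSpace.1 hXc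
  have hvol : ENNReal.ofReal 2 ≤ volume X := hX ▸ cheese_vol hCl hmono hrad
  obtain ⟨x, hx⟩ : G.Nonempty := by
    by_contra h
    rw [not_nonempty_iff_eq_empty] at h
    rw [h, Set.sdiff_empty] at hnull
    rw [hnull] at hvol
    exact absurd hvol (not_le.2 (ENNReal.ofReal_pos.2 two_pos))
  refine ⟨X, hXc, fun x D hD => bpd_zero hXc (hder x x.2) hD,
    (Subtype.val : X → ℂ) ⁻¹' (ball x (1 / 2))ᶜ, ⟨x, hG hx⟩,
    isOpen_ball.isClosed_compl.preimage continuous_subtype_val, by simp, fun f hf h0 => ?_⟩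
  set B := ‖f‖ + 1 with hB
  have hB0 : 0 < B := by positivity
  have hg : ((B : ℂ)⁻¹) • f ∈ RX X := by
    have e : ((B : ℂ)⁻¹) • f = (isRat_const (K := X) ((B : ℂ)⁻¹)).res * f := by ext z; simp
    rw [e]; exact RX_mul hXc (IsRat.res_mem _) hf
  have hgb : ∀ z, ‖(((B : ℂ)⁻¹) • f) z‖ ≤ 1 := fun z => by
    rw [ContinuousMap.smul_apply, smul_eq_mul, norm_mul, norm_inv, Complex.norm_real,
      Real.norm_eq_abs, abs_of_pos hB0, inv_mul_le_iff₀ hB0]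
    linarith [f.norm_coe_le_norm z]
  have key : ‖(((B : ℂ)⁻¹) • f) ⟨x, hG hx⟩‖ ≤ 0 := by
    refine le_of_forall_pos_le_add fun ε hε => ?_
    obtain ⟨δ, hδ, h⟩ := huc x hx 1 one_pos (ε / 2) (half_pos hε)
    obtain ⟨g, hg1, hg2, hg3⟩ := RX_approx_ball hXc hg hgb (ε := min δ (ε / 2)) (by positivity)
    have h1 := h g hg1 hg2 ((vol_off_ball hvol x).trans (measure_mono ?_))
    · have h2 := (hg3 ⟨x, hG hx⟩).trans (min_le_right _ _)
      have h3 := norm_sub_norm_le ((((B : ℂ)⁻¹) • f) ⟨x, hG hx⟩) (g x)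
      simp only at h2
      linarith
    · rintro z ⟨hz, hzb⟩
      refine ⟨hz, ?_⟩
      have h2 := (hg3 ⟨z, hz⟩).trans (min_le_left _ _)
      rw [ContinuousMap.smul_apply, h0 ⟨z, hz⟩ hzb] at h2
      simpa using h2
  have h1 := norm_le_zero_iff.1 key
  rw [ContinuousMap.smul_apply, smul_eq_mul, mul_eq_zero, inv_eq_zero] at h1
  exact h1.resolve_left (Complex.ofReal_ne_zero.2 hB0.ne')

end Pool.Agent.H479Z
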