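import Mathlib

set_option autoImplicit false

namespace Pool.Agent.H479Z

/-- `R(X)`: the closure in `C(X)` of the restrictions of rational functions with poles off `X`. -/
def RX (X : Set ℂ) : Set C(X, ℂ) :=
  closure {g : C(X, ℂ) | ∃ p q : Polynomial ℂ,
    (∀ z ∈ X, q.eval z ≠ 0) ∧ ∀ z : X, g z = p.eval (z : ℂ) / q.eval (z : ℂ)}

/-- `x` is a peak point for `R(X)`. -/
def IsPeak (X : Set ℂ) (x : X) : Prop :=
  ∃ f ∈ RX X, f x = 1 ∧ ∀ y : X, y ≠ x → ‖f y‖ < 1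

/-- `D` (only its values on `R(X)` matter) is a bounded point derivation on `R(X)` at `x`:
linear, satisfies the Leibniz rule at `x`, and bounded for the supremum norm. -/
def IsBPD (X : Set ℂ) (x : X) (D : C(X, ℂ) → ℂ) : Prop :=
  (∀ f ∈ RX X, ∀ g ∈ RX X, D (f + g) = D f + D g) ∧
  (∀ c : ℂ, ∀ f ∈ RX X, D (c • f) = c * D f) ∧
  (∀ f ∈ RX X, ∀ g ∈ RX X, D (f * g) = f x * D g + g x * D f) ∧
  (∃ C : ℝ, ∀ f ∈ RX X, ∀ M : ℝ, (∀ z : X, ‖f z‖ ≤ M) → ‖D f‖ ≤ C * M)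

/-- `x` and `y` lie in the same Gleason part of `R(X)`: the norm of the difference of the two
evaluation functionals on `R(X)` is less than `2`. -/
def SamePart (X : Set ℂ) (x y : X) : Prop :=
  ∃ c : ℝ, c < 2 ∧ ∀ f ∈ RX X, (∀ z : X, ‖f z‖ ≤ 1) → ‖f x - f y‖ ≤ c

end Pool.Agent.H479Z
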