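import Pool.Agent.H479Z.Rat
import Pool.Agent.Helper430.NP.JKer
import Pool.Agent.Helper430.NP.JGood

set_option autoImplicit false
open Set Filter Topology Metric MeasureTheory

namespace Pool.Agent.H479Z

variable {K : Set ℂ}

theorem DerBd.scale {M : ℝ} {y : ℂ} (hy : y ∈ K) (h : DerBd K M y) {f : ℂ → ℂ} (hf : IsRat K f)
    {B : ℝ} (hB : ∀ z ∈ K, ‖f z‖ ≤ B) : ‖deriv f y‖ ≤ M * B := by
  have hM : 0 ≤ M := le_trans (norm_nonneg _) (h _ (isRat_const 0) (by simp))
  have hB0 : 0 ≤ B := le_trans (norm_nonneg _) (hB y hy)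
  have key : ∀ η > 0, ‖deriv f y‖ ≤ M * (B + η) := by
    intro η hη
    have hp : 0 < B + η := by linarith
    have h1 := h _ (hf.const_mul ((B + η : ℝ) : ℂ)⁻¹) (fun z hz => by
      rw [norm_mul, norm_inv, Complex.norm_real, Real.norm_eq_abs, abs_of_pos hp,
        inv_mul_le_iff₀ hp]
      linarith [hB z hz])
    rw [deriv_const_mul _ (hf.differentiableAt hy), norm_mul, norm_inv, Complex.norm_real,
      Real.norm_eq_abs, abs_of_pos hp, inv_mul_le_iff₀ hp] at h1
    linarith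
  refine le_of_forall_pos_le_add fun ε hε => ?_
  have h1 := key (ε / (M + 1)) (by positivity)
  have h2 : M * (ε / (M + 1)) ≤ ε := by
    rw [mul_div_assoc', div_le_iff₀ (by positivity)]
    nlinarith
  nlinarith

/-- a dominating probability measure for a bounded derivative -/
theorem exists_dom (hK : IsCompact K) {M : ℝ} {y : ℂ} (hy : y ∈ K) (h : DerBd K M y) :
    ∃ μ : Measure ℂ, IsProbabilityMeasure μ ∧ μ Kᶜ = 0 ∧
      ∀ f, IsRat K f → ‖deriv f y‖ ≤ M * ∫ z, ‖f z‖ ∂μ := by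
  have : CompactSpace K := isCompact_iff_compactSpace.1 hK
  have : Nonempty K := ⟨⟨y, hy⟩⟩
  have hM : 0 ≤ M := le_trans (norm_nonneg _) (h _ (isRat_const 0) (by simp))
  set S : Set C(K, ℝ) := {u | ∀ z, u z < 0} with hS
  set T : Set C(K, ℝ) := {v | ∃ g, IsRat K g ∧ ∀ z : K, M * ‖g z‖ - (deriv g y).re ≤ v z} with hT
  have hSc : Convex ℝ S := by
    intro u hu v hv a b ha hb hab z
    simp only [ContinuousMap.add_apply, ContinuousMap.smul_apply, smul_eq_mul]
    have h1 := hu z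
    have h2 := hv z
    rcases ha.eq_or_lt with rfl | ha'
    · have : b = 1 := by linarith
      subst this; linarith
    · nlinarith
  have hSo : IsOpen S := by
    rw [Metric.isOpen_iff]
    intro u hu
    obtain ⟨z0, -, hz0⟩ := isCompact_univ.exists_isMaxOn univ_nonempty u.continuous.continuousOn
    refine ⟨-u z0, by linarith [hu z0], fun v hv z => ?_⟩
    have h1 : dist (v z) (u z) < -u z0 := lt_of_le_of_lt (ContinuousMap.dist_apply_le_dist z) hv
    have h2 : u z ≤ u z0 := hz0 (mem_univ z)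
    rw [Real.dist_eq] at h1
    linarith [le_abs_self (v z - u z)]
  have hTc : Convex ℝ T := by
    rintro u ⟨g, hg, hu⟩ v ⟨g', hg', hv⟩ a b ha hb hab
    refine ⟨fun z => (a : ℂ) * g z + (b : ℂ) * g' z, (hg.const_mul _).add (hg'.const_mul _),
      fun z => ?_⟩
    have hd : deriv (fun z => (a : ℂ) * g z + (b : ℂ) * g' z) y =
        (a : ℂ) * deriv g y + (b : ℂ) * deriv g' y :=
      (((hg.differentiableAt hy).hasDerivAt.const_mul _).add
        ((hg'.differentiableAt hy).hasDerivAt.const_mul _)).deriv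
    rw [hd]
    simp only [ContinuousMap.add_apply, ContinuousMap.smul_apply, smul_eq_mul, Complex.add_re,
      Complex.re_ofReal_mul]
    have h1 : ‖(a : ℂ) * g z + (b : ℂ) * g' z‖ ≤ a * ‖g z‖ + b * ‖g' z‖ := by
      refine (norm_add_le _ _).trans (le_of_eq ?_)
      rw [norm_mul, norm_mul, Complex.norm_real, Complex.norm_real, Real.norm_eq_abs,
        Real.norm_eq_abs, abs_of_nonneg ha, abs_of_nonneg hb]
    have h2 := mul_le_mul_of_nonneg_left (hu z) ha
    have h3 := mul_le_mul_of_nonneg_left (hv z) hb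
    have h4 := mul_le_mul_of_nonneg_left h1 hM
    nlinarith
  have hdisj : Disjoint S T := by
    rw [Set.disjoint_left]
    rintro v hv ⟨g, hg, hgv⟩
    obtain ⟨z0, -, hz0⟩ := isCompact_univ.exists_isMaxOn univ_nonempty
      (hg.res.continuous.norm).continuousOn
    have h1 := h.scale hy hg (B := ‖g z0‖) (fun z hz => hz0 (mem_univ (⟨z, hz⟩ : K)))
    have h2 := hgv z0
    have h3 := hv z0
    have h4 := Complex.re_le_norm (deriv g y)
    linarith
  obtain ⟨L, u, hLS, hLT⟩ := geometric_hahn_banach_open hSc hSo hTc hdisj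
  have hT0 : (0 : C(K, ℝ)) ∈ T := ⟨_, isRat_const 0, by simp⟩
  have hu0 : u ≤ 0 := by simpa using hLT 0 hT0
  have hneg : ∀ v ∈ S, L v < 0 := fun v hv => lt_of_lt_of_le (hLS v hv) hu0
  have hL1 : 0 < L 1 := by
    have := hneg (-1) (fun z => by simp)
    rw [map_neg] at this; linarith
  have hu1 : 0 ≤ u := by
    by_contra hcon
    push Not at hcon
    have h1 := hLS ((u / L 1) • (1 : C(K, ℝ))) (fun z => by
      simp only [ContinuousMap.smul_apply, ContinuousMap.one_apply, smul_eq_mul, mul_one]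
      exact div_neg_of_neg_of_pos hcon hL1)
    rw [map_smul, smul_eq_mul, div_mul_cancel₀ _ hL1.ne'] at h1
    exact lt_irrefl _ h1
  have hpos : ∀ v : C(K, ℝ), 0 ≤ v → 0 ≤ L v := by
    intro v hv
    refine le_of_forall_pos_le_add fun ε hε => ?_
    have h1 := hneg (-v - (ε / L 1) • (1 : C(K, ℝ))) (fun z => by
      simp only [ContinuousMap.sub_apply, ContinuousMap.neg_apply, ContinuousMap.smul_apply,
        ContinuousMap.one_apply, smul_eq_mul, mul_one]
      have h1 : 0 ≤ v z := hv z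
      have h2 : 0 < ε / L 1 := by positivity
      linarith)
    rw [map_sub, map_neg, map_smul, smul_eq_mul, div_mul_cancel₀ _ hL1.ne'] at h1
    linarith
  let Λ : CompactlySupportedContinuousMap K ℝ →ₚ[ℝ] ℝ :=
    { toFun := fun w => (L 1)⁻¹ * L (w : C(K, ℝ))
      map_add' := fun w w' => by
        rw [← mul_add, ← map_add]
        rfl
      map_smul' := fun r w => by
        simp only [RingHom.id_apply, smul_eq_mul]
        rw [mul_left_comm, ← smul_eq_mul r, ← map_smul]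
        rfl
      monotone' := fun w w' hww => by
        have h1 : (0 : C(K, ℝ)) ≤ (w' : C(K, ℝ)) - (w : C(K, ℝ)) := by
          rw [sub_nonneg]
          exact fun z => hww z
        have h2 := hpos _ h1
        rw [map_sub] at h2
        show (L 1)⁻¹ * L (w : C(K, ℝ)) ≤ (L 1)⁻¹ * L (w' : C(K, ℝ))
        exact mul_le_mul_of_nonneg_left (by linarith) (by positivity) }
  set μ₀ : Measure K := RealRMK.rieszMeasure Λ with hμ₀
  have hint : ∀ w : C(K, ℝ), ∫ z, w z ∂μ₀ = (L 1)⁻¹ * L w := by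
    intro w
    exact RealRMK.integral_rieszMeasure Λ ⟨w, HasCompactSupport.of_compactSpace _⟩
  have hprob : IsProbabilityMeasure μ₀ := by
    constructor
    have h1 := hint 1
    rw [inv_mul_cancel₀ hL1.ne'] at h1
    simp only [ContinuousMap.one_apply, integral_const, smul_eq_mul, mul_one] at h1
    rw [← ENNReal.toReal_eq_one_iff]
    exact h1
  have hemb : MeasurableEmbedding (Subtype.val : K → ℂ) :=
    MeasurableEmbedding.subtype_coe hK.measurableSet
  refine ⟨μ₀.map Subtype.val, ?_, ?_, ?_⟩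
  · exact Measure.isProbabilityMeasure_map measurable_subtype_coe.aemeasurable
  · rw [Measure.map_apply measurable_subtype_coe hK.measurableSet.compl]
    have : (Subtype.val : K → ℂ) ⁻¹' Kᶜ = ∅ := by ext z; simp
    rw [this, measure_empty]
  · intro f hf
    rw [hemb.integral_map]
    obtain ⟨e, he1, he2⟩ : ∃ e : ℂ, ‖e‖ = 1 ∧ (e * deriv f y).re = ‖deriv f y‖ := by
      by_cases h0 : deriv f y = 0
      · exact ⟨1, by simp, by simp [h0]⟩
      · refine ⟨(‖deriv f y‖ : ℂ) / deriv f y, ?_, ?_⟩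
        · rw [norm_div, Complex.norm_real, norm_norm, div_self (norm_ne_zero_iff.2 h0)]
        · rw [div_mul_cancel₀ _ h0, Complex.ofReal_re]
    let w : C(K, ℝ) := ⟨fun z => ‖f z‖, hf.res.continuous.norm⟩
    have hmem : M • w - ‖deriv f y‖ • (1 : C(K, ℝ)) ∈ T := by
      refine ⟨fun z => e * f z, hf.const_mul e, fun z => ?_⟩
      rw [deriv_const_mul _ (hf.differentiableAt hy), he2, norm_mul, he1, one_mul]
      simp [w]
    have h1 := hLT _ hmem
    rw [map_sub, map_smul, map_smul, smul_eq_mul, smul_eq_mul] at h1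
    have h2 : ∫ z : K, ‖f z‖ ∂μ₀ = (L 1)⁻¹ * L w := hint w
    rw [h2, mul_left_comm, le_inv_mul_iff₀ hL1]
    linarith

/-- a point with small potential -/
theorem exists_small_pot (μ : Measure ℂ) [IsProbabilityMeasure μ] (c : ℂ) {ρ : ℝ} (hρ : 0 < ρ) :
    ∃ w ∈ closedBall c ρ, μ {w} = 0 ∧ Integrable (fun z => ‖z - w‖⁻¹) μ ∧
      ∫ z, ‖z - w‖⁻¹ ∂μ ≤ 7 / ρ := by
  have hmeas : Measurable (fun p : ℂ × ℂ => ‖(p.2 - p.1)⁻¹‖ₑ) := by fun_prop
  have hk : ∀ ζ : ℂ, ∫⁻ z in closedBall c ρ, ‖(ζ - z)⁻¹‖ₑ ≤ ENNReal.ofReal (6 * Real.pi * ρ) := by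
    intro ζ
    obtain ⟨h1, h2⟩ := Pool.Agent.Helper430.NP.job_ker c ρ hρ ζ
    have h3 : ∫⁻ z in closedBall c ρ, ‖(ζ - z)⁻¹‖ₑ
        = ENNReal.ofReal (∫ z in closedBall c ρ, ‖z - ζ‖⁻¹) := by
      rw [ofReal_integral_eq_lintegral_ofReal h1 (Eventually.of_forall fun z => by positivity)]
      refine lintegral_congr fun z => ?_
      rw [← ofReal_norm, norm_inv, norm_sub_rev]
    rw [h3]
    exact ENNReal.ofReal_le_ofReal h2
  have hfin : ∫⁻ z in closedBall c ρ, ∫⁻ ζ, ‖(ζ - z)⁻¹‖ₑ ∂μ ≤ ENNReal.ofReal (6 * Real.pi * ρ) := by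
    rw [lintegral_lintegral_swap hmeas.aemeasurable]
    calc ∫⁻ ζ, (∫⁻ z in closedBall c ρ, ‖(ζ - z)⁻¹‖ₑ) ∂μ
        ≤ ∫⁻ _ζ, ENNReal.ofReal (6 * Real.pi * ρ) ∂μ := lintegral_mono fun ζ => hk ζ
      _ = _ := by simp
  by_contra hcon
  push Not at hcon
  have hae : ∀ᵐ z ∂(volume.restrict (closedBall c ρ)),
      ENNReal.ofReal (7 / ρ) ≤ ∫⁻ ζ, ‖(ζ - z)⁻¹‖ₑ ∂μ := by
    rw [ae_restrict_iff' measurableSet_closedBall]
    filter_upwards [Pool.Agent.Helper430.NP.good_atoms μ inferInstance] with w hw hwc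
    by_contra hlt
    push Not at hlt
    have hI : Integrable (fun z => ‖z - w‖⁻¹) μ := by
      refine ⟨Measurable.aestronglyMeasurable (by fun_prop), ?_⟩
      refine lt_of_le_of_lt (le_of_eq ?_) (hlt.trans ENNReal.ofReal_lt_top)
      refine lintegral_congr fun z => ?_
      show ‖‖z - w‖⁻¹‖ₑ = _
      rw [← norm_inv, enorm_norm]
    have h1 := hcon w hwc hw hI
    have h2 : ∫⁻ ζ, ‖(ζ - w)⁻¹‖ₑ ∂μ = ENNReal.ofReal (∫ z, ‖z - w‖⁻¹ ∂μ) := by
      rw [ofReal_integral_eq_lintegral_ofReal hI (Eventually.of_forall fun z => by positivity)]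
      refine lintegral_congr fun z => ?_
      rw [← ofReal_norm, norm_inv]
    rw [h2] at hlt
    exact absurd (ENNReal.ofReal_le_ofReal h1.le) (not_le.2 hlt)
  have h1 := (lintegral_mono_ae hae).trans hfin
  rw [lintegral_const, Measure.restrict_apply MeasurableSet.univ, univ_inter,
    Complex.volume_closedBall] at h1
  have h2 : (ENNReal.ofReal ρ ^ 2 * (NNReal.pi : ENNReal)) = ENNReal.ofReal (ρ ^ 2 * Real.pi) := by
    rw [ENNReal.ofReal_mul (by positivity), ENNReal.ofReal_pow hρ.le]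
    congr 1
    rw [← NNReal.coe_real_pi, ENNReal.ofReal_coe_nnreal]
  rw [h2, ← ENNReal.ofReal_mul (by positivity), ENNReal.ofReal_le_ofReal_iff (by positivity)] at h1
  have h3 : 7 / ρ * (ρ ^ 2 * Real.pi) = 7 * Real.pi * ρ := by field_simp
  rw [h3] at h1
  have := Real.pi_pos
  nlinarith

/-- closeness in the norm of the dual of `R(K)` -/
def Near (K : Set ℂ) (t : ℝ) (x y : ℂ) : Prop :=
  ∀ f, IsRat K f → (∀ z ∈ K, ‖f z‖ ≤ 1) → ‖f x - f y‖ ≤ t

theorem Near.trans {s t : ℝ} {x y z : ℂ} (h1 : Near K s x y) (h2 : Near K t y z) :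
    Near K (s + t) x z := fun f hf hb => by
  have := norm_sub_le_norm_sub_add_norm_sub (f x) (f y) (f z)
  linarith [h1 f hf hb, h2 f hf hb]

theorem Near.mono {s t : ℝ} {x y : ℂ} (h1 : Near K s x y) (h : s ≤ t) : Near K t x y :=
  fun f hf hb => (h1 f hf hb).trans h

theorem Near.refl {t : ℝ} (ht : 0 ≤ t) (x : ℂ) : Near K t x x := fun f _ _ => by simpa using ht

/-- the approximate Taylor step -/
theorem step_Q (hK : IsCompact K) {M ρ : ℝ} {y c : ℂ} (hy : y ∈ K) (h : DerBd K M y)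
    (hρ : 0 < ρ) (hMρ : 32 * M * ρ < 1) (hyc : ‖y - c‖ ≤ ρ) :
    ∃ w ∈ K, ‖w - c‖ ≤ ρ / 2 ∧ Near K (65 * M * ρ) y w := by
  have hM : 0 ≤ M := le_trans (norm_nonneg _) (h _ (isRat_const 0) (by simp))
  obtain ⟨μ, hμ, hsupp, hdom⟩ := exists_dom hK hy h
  obtain ⟨w, hwc, hw0, hI, hP⟩ := exists_small_pot μ c (ρ := ρ / 2) (by positivity)
  rw [mem_closedBall, dist_eq_norm] at hwc
  have hP' : ∫ z, ‖z - w‖⁻¹ ∂μ ≤ 14 / ρ := hP.trans (le_of_eq (by field_simp; norm_num))
  have hyw : ‖y - w‖ ≤ 3 / 2 * ρ := by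
    have := norm_sub_le_norm_sub_add_norm_sub y c w
    rw [norm_sub_rev c w] at this
    linarith
  have haeK : ∀ᵐ z ∂μ, z ∈ K := by rw [ae_iff]; exact hsupp
  have haew : ∀ᵐ z ∂μ, z ≠ w := by rw [ae_iff]; simpa using hw0
  by_cases hwK : w ∈ K
  · refine ⟨w, hwK, hwc, fun f hf hb => ?_⟩
    obtain ⟨g, hg, hfg⟩ := hf.divq hwK
    have h1 : ‖deriv g y‖ ≤ M * (2 * (14 / ρ)) := by
      refine (hdom g hg).trans (mul_le_mul_of_nonneg_left ?_ hM)
      calc ∫ z, ‖g z‖ ∂μ ≤ ∫ z, 2 * ‖z - w‖⁻¹ ∂μ := by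
            refine integral_mono_of_nonneg (Eventually.of_forall fun z => norm_nonneg _)
              (hI.const_mul 2) ?_
            filter_upwards [haeK, haew] with z hz hzw
            have e := (hfg z hz).self_of_nhds
            have hne : 0 < ‖z - w‖ := norm_pos_iff.2 (sub_ne_zero.2 hzw)
            have e2 : ‖z - w‖ * ‖g z‖ ≤ 2 := by
              rw [← norm_mul]
              have : (z - w) * g z = f z - f w := by rw [e]; ring
              rw [this]
              linarith [norm_sub_le (f z) (f w), hb z hz, hb w hwK]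
            rw [← div_eq_mul_inv, le_div_iff₀ hne]
            linarith
        _ = 2 * ∫ z, ‖z - w‖⁻¹ ∂μ := integral_const_mul _ _
        _ ≤ _ := by linarith
    have h2 : deriv f y = g y + (y - w) * deriv g y := by
      have h3 : f =ᶠ[𝓝 y] fun z => f w + (z - w) * g z := hfg y hy
      rw [h3.deriv_eq]
      have hd : HasDerivAt (fun z => f w + (z - w) * g z) (1 * g y + (y - w) * deriv g y) y := by
        have := ((hasDerivAt_id y).sub_const w).mul (hg.differentiableAt hy).hasDerivAt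
        exact this.const_add _
      rw [hd.deriv, one_mul]
    have h3 : f y - f w = (y - w) * (deriv f y - (y - w) * deriv g y) := by
      rw [h2, (hfg y hy).self_of_nhds]; ring
    have h4 := h f hf hb
    rw [h3, norm_mul]
    have h5 : ‖deriv f y - (y - w) * deriv g y‖ ≤ 43 * M := by
      refine (norm_sub_le _ _).trans ?_
      rw [norm_mul]
      have : ‖y - w‖ * ‖deriv g y‖ ≤ (3 / 2 * ρ) * (M * (2 * (14 / ρ))) := by gcongr
      have e : (3 / 2 * ρ) * (M * (2 * (14 / ρ))) = 42 * M := by field_simp; ring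
      linarith
    calc ‖y - w‖ * ‖deriv f y - (y - w) * deriv g y‖ ≤ (3 / 2 * ρ) * (43 * M) := by gcongr
      _ ≤ 65 * M * ρ := by nlinarith
  · exfalso
    have hg := isRat_inv_sub hwK
    have hne : y - w ≠ 0 := fun h0 => hwK (sub_eq_zero.1 h0 ▸ hy)
    have h1 := hdom _ hg
    have hd : HasDerivAt (fun z : ℂ => (z - w)⁻¹) (-1 / (y - w) ^ 2) y :=
      ((hasDerivAt_id y).sub_const w).inv hne
    rw [hd.deriv, norm_div, norm_neg, norm_one, norm_pow] at h1
    simp only [norm_inv] at h1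
    have hp : 0 < ‖y - w‖ := norm_pos_iff.2 hne
    have h2 : 1 / ‖y - w‖ ^ 2 ≤ M * (14 / ρ) := h1.trans (mul_le_mul_of_nonneg_left hP' hM)
    rw [div_le_iff₀ (by positivity)] at h2
    have h3 : M * (14 / ρ) * ‖y - w‖ ^ 2 ≤ M * (14 / ρ) * (3 / 2 * ρ) ^ 2 := by gcongr
    have e : M * (14 / ρ) * (3 / 2 * ρ) ^ 2 = 63 / 2 * M * ρ := by field_simp; ring
    nlinarith

/-- points with large derivatives are dense for the dual norm -/
theorem dense_unbdd (hK : IsCompact K) (hint : interior K = ∅) {x : ℂ} (hx : x ∈ K) {ε : ℝ}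
    (hε : 0 < ε) (M0 : ℝ) : ∃ y ∈ K, Near K ε x y ∧ ¬ DerBd K M0 y := by
  by_contra hcon
  push Not at hcon
  set M := |M0| + 1 with hMdef
  have hM : 0 < M := by positivity
  have hcon' : ∀ y ∈ K, Near K ε x y → DerBd K M y := fun y hy hn f hf hb =>
    (hcon y hy hn f hf hb).trans (by linarith [le_abs_self M0])
  set δ := min (1 / (64 * M)) (ε / (130 * M)) with hδ
  have hδ0 : 0 < δ := by positivity
  have hδ1 : 32 * M * δ < 1 := by
    have : δ ≤ 1 / (64 * M) := min_le_left _ _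
    rw [le_div_iff₀ (by positivity)] at this
    linarith
  have hδ2 : 130 * M * δ ≤ ε := by
    have : δ ≤ ε / (130 * M) := min_le_right _ _
    rw [le_div_iff₀ (by positivity)] at this
    linarith
  obtain ⟨c, hc, hcK⟩ : ∃ c ∈ ball x δ, c ∉ K := by
    by_contra hh
    push Not at hh
    have : x ∈ interior K := mem_interior.2 ⟨ball x δ, hh, isOpen_ball, mem_ball_self hδ0⟩
    rw [hint] at this; exact this
  have key : ∀ n : ℕ, ∃ y ∈ K, ‖y - c‖ ≤ δ / 2 ^ n ∧ Near K (130 * M * (δ - δ / 2 ^ n)) x y := by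
    intro n
    induction n with
    | zero =>
      refine ⟨x, hx, ?_, by simpa using Near.refl le_rfl x⟩
      rw [mem_ball, dist_comm, dist_eq_norm] at hc
      simpa using hc.le
    | succ n ih =>
      obtain ⟨y, hy, h1, h2⟩ := ih
      have hp : 0 < δ / 2 ^ n := by positivity
      have hle : δ / 2 ^ n ≤ δ := div_le_self hδ0.le (one_le_pow₀ (by norm_num))
      have h3 : DerBd K M y := hcon' y hy (h2.mono (by nlinarith))
      obtain ⟨w, hw, h4, h5⟩ := step_Q hK hy h3 hp (by nlinarith) h1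
      refine ⟨w, hw, h4.trans (le_of_eq (by rw [pow_succ]; field_simp)), (h2.trans h5).mono
        (le_of_eq (by rw [pow_succ]; field_simp; ring))⟩
  obtain ⟨η, hη, hb⟩ := Metric.isOpen_iff.1 hK.isClosed.isOpen_compl c hcK
  obtain ⟨n, hn⟩ := pow_unbounded_of_one_lt (δ / η) (by norm_num : (1 : ℝ) < 2)
  obtain ⟨y, hy, h1, -⟩ := key n
  apply hb _ hy
  rw [mem_ball, dist_eq_norm]
  refine lt_of_le_of_lt h1 ?_
  rw [div_lt_iff₀ hη] at hn
  rw [div_lt_iff₀ (by positivity)]
  linarith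

theorem exists_seq {S : Type*} (s0 : S) (Rel : ℕ → S → S → Prop) (h : ∀ n s, ∃ s', Rel n s s') :
    ∃ u : ℕ → S, u 0 = s0 ∧ ∀ n, Rel n (u n) (u (n + 1)) := by
  choose F hF using h
  exact ⟨fun n => Nat.rec s0 (fun n s => F n s) n, rfl, fun n => hF n _⟩

theorem isClosed_near (hK : IsCompact K) (t : ℝ) (x : ℂ) : IsClosed {y ∈ K | Near K t x y} := by
  have : {y ∈ K | Near K t x y} = ⋂ f ∈ {f | IsRat K f ∧ ∀ z ∈ K, ‖f z‖ ≤ 1},
      {y ∈ K | ‖f x - f y‖ ≤ t} := by
    ext y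
    simp only [mem_ofPred_eq, mem_iInter]
    constructor
    · rintro ⟨h1, h2⟩ f ⟨hf, hb⟩; exact ⟨h1, h2 f hf hb⟩
    · intro h
      exact ⟨(h _ ⟨isRat_const 0, by simp⟩).1, fun f hf hb => (h f ⟨hf, hb⟩).2⟩
  rw [this]
  refine isClosed_biInter fun f hf => ?_
  have hc : ContinuousOn (fun y => ‖f x - f y‖) K := (continuousOn_const.sub hf.1.continuousOn).norm
  exact hc.preimage_isClosed_of_isClosed hK.isClosed isClosed_Iic

/-- near any point there is a point where derivatives are unbounded -/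
theorem exists_unbdd (hK : IsCompact K) (hint : interior K = ∅) {x : ℂ} (hx : x ∈ K) {ε : ℝ}
    (hε : 0 < ε) : ∃ y ∈ K, Near K ε x y ∧ ∀ M, ¬ DerBd K M y := by
  obtain ⟨B, hB0, hB⟩ := hK.isBounded.exists_pos_norm_le
  have heu : ∀ t y z, Near K t y z → ‖y - z‖ ≤ B * t := by
    intro t y z h
    have h1 := h _ ((isRat_id (K := K)).const_mul ((B : ℂ)⁻¹)) (fun w hw => by
      rw [norm_mul, norm_inv, Complex.norm_real, Real.norm_eq_abs, abs_of_pos hB0,
        inv_mul_le_iff₀ hB0, mul_one]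
      exact hB w hw)
    rw [← mul_sub, norm_mul, norm_inv, Complex.norm_real, Real.norm_eq_abs, abs_of_pos hB0,
      inv_mul_le_iff₀ hB0] at h1
    exact h1
  let S := {p : ℂ × ℝ // p.1 ∈ K ∧ 0 < p.2}
  let A : S → Set ℂ := fun p => {y ∈ K | Near K p.1.2 p.1.1 y}
  have hstep : ∀ (n : ℕ) (s : S), ∃ s' : S, A s' ⊆ A s ∧ ∀ z ∈ A s', ¬ DerBd K n z := by
    rintro n ⟨⟨y, t⟩, hy, ht⟩
    simp only at hy ht
    obtain ⟨y', hy', h1, h2⟩ := dense_unbdd hK hint hy (ε := t / 2) (by positivity) n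
    unfold DerBd at h2
    push Not at h2
    obtain ⟨f, hf, hb, hlt⟩ := h2
    have hev : ∀ᶠ z in 𝓝 y', (n : ℝ) < ‖deriv f z‖ :=
      (hf.continuousAt_deriv hy').norm.eventually (lt_mem_nhds hlt)
    obtain ⟨η, hη, hball⟩ := Metric.eventually_nhds_iff_ball.1 hev
    refine ⟨⟨(y', min (t / 2) (η / (2 * B))), hy', by positivity⟩, ?_, ?_⟩
    · rintro z ⟨hz, hn⟩
      refine ⟨hz, (h1.trans hn).mono ?_⟩
      have := min_le_left (t / 2) (η / (2 * B))
      simp only
      linarith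
    · rintro z ⟨hz, hn⟩ hD
      have h3 := heu _ _ _ hn
      have h4 : B * min (t / 2) (η / (2 * B)) ≤ B * (η / (2 * B)) :=
        mul_le_mul_of_nonneg_left (min_le_right _ _) hB0.le
      have h5 : B * (η / (2 * B)) = η / 2 := by field_simp
      have h6 := hball z (by
        rw [mem_ball, dist_comm, dist_eq_norm]
        simp only at h3
        linarith)
      exact absurd (hD f hf hb) (not_le.2 h6)
  obtain ⟨u, hu0, hu⟩ := exists_seq (⟨(x, ε), hx, hε⟩ : S) _ hstep
  obtain ⟨y, hy⟩ := IsCompact.nonempty_iInter_of_sequence_nonempty_isCompact_isClosed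
    (fun n => A (u n)) (fun n => (hu n).1)
    (fun n => ⟨(u n).1.1, (u n).2.1, Near.refl (u n).2.2.le _⟩)
    (hK.of_isClosed_subset (isClosed_near hK _ _) (sep_subset _ _))
    (fun n => isClosed_near hK _ _)
  rw [mem_iInter] at hy
  have h0 := hy 0
  rw [hu0] at h0
  refine ⟨y, h0.1, h0.2, fun M hM => ?_⟩
  obtain ⟨n, hn⟩ := exists_nat_ge M
  exact (hu n).2 y (hy (n + 1)) fun f hf hb => (hM f hf hb).trans hn

end Pool.Agent.H479Z
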