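import Pool.Agent.H479Z.Cauchy

set_option autoImplicit false
open Set Filter Topology Metric MeasureTheory

namespace Pool.Agent.H479Z

/-- a square block of lattice indices -/
noncomputable def box (N : ℕ) : Finset (ℤ × ℤ) := Finset.Icc (-(N : ℤ)) N ×ˢ Finset.Icc (-(N : ℤ)) N

/-- the maximum norm of an index -/
def mx (Q : ℤ × ℤ) : ℕ := max Q.1.natAbs Q.2.natAbs

theorem mem_box {N : ℕ} {Q : ℤ × ℤ} : Q ∈ box N ↔ mx Q ≤ N := by
  simp only [box, mx, Finset.mem_product, Finset.mem_Icc]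
  omega

theorem card_box (N : ℕ) : (box N).card = (2 * N + 1) ^ 2 := by
  have : ((N : ℤ) + 1 - -(N : ℤ)).toNat = 2 * N + 1 := by omega
  simp only [box, Finset.card_product, Int.card_Icc, this]
  ring

theorem box_sub (N : ℕ) : box N ⊆ box (N + 1) := fun _ h =>
  mem_box.2 ((mem_box.1 h).trans (Nat.le_succ _))

theorem sum_box_succ (F : ℕ → ℝ) (N : ℕ) :
    ∑ Q ∈ box (N + 1), F (mx Q) = ∑ Q ∈ box N, F (mx Q) + (8 * N + 8) * F (N + 1) := by
  rw [← Finset.sum_sdiff (box_sub N), add_comm]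
  congr 1
  have h1 : ∀ Q ∈ box (N + 1) \ box N, F (mx Q) = F (N + 1) := by
    intro Q hQ
    rw [Finset.mem_sdiff, mem_box, mem_box] at hQ
    congr 1; omega
  rw [Finset.sum_congr rfl h1, Finset.sum_const, Finset.card_sdiff_of_subset (box_sub N),
    card_box, card_box, nsmul_eq_mul]
  congr 1
  have : (2 * (N + 1) + 1) ^ 2 = (2 * N + 1) ^ 2 + (8 * N + 8) := by ring
  rw [this, Nat.add_sub_cancel_left]
  push_cast; ring

theorem sum_box_zero (F : ℕ → ℝ) : ∑ Q ∈ box 0, F (mx Q) = F 0 := by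
  have h1 : ∀ Q ∈ box 0, F (mx Q) = F 0 := by
    intro Q hQ
    rw [mem_box] at hQ
    congr 1; omega
  rw [Finset.sum_congr rfl h1, Finset.sum_const, card_box]
  simp

theorem sum_box_upper (N : ℕ) : ∑ Q ∈ box N, 1 / ((mx Q : ℝ) + 1) ≤ 8 * (N + 1) := by
  induction N with
  | zero => rw [sum_box_zero (fun k => 1 / ((k : ℝ) + 1))]; norm_num
  | succ N ih =>
    rw [sum_box_succ (fun k => 1 / ((k : ℝ) + 1))]
    have : (8 * (N : ℝ) + 8) * (1 / (((N + 1 : ℕ) : ℝ) + 1)) ≤ 8 := by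
      rw [mul_one_div, div_le_iff₀ (by positivity)]
      push_cast; linarith
    push_cast at this ⊢
    linarith

theorem sum_box_lower (N : ℕ) :
    ∑ k ∈ Finset.range N, 1 / ((k : ℝ) + 1) ≤ ∑ Q ∈ box N, 1 / ((mx Q : ℝ) + 1) ^ 2 := by
  induction N with
  | zero => rw [sum_box_zero (fun k => 1 / ((k : ℝ) + 1) ^ 2)]; norm_num
  | succ N ih =>
    rw [sum_box_succ (fun k => 1 / ((k : ℝ) + 1) ^ 2), Finset.sum_range_succ]
    have : 1 / ((N : ℝ) + 1) ≤ (8 * (N : ℝ) + 8) * (1 / (((N + 1 : ℕ) : ℝ) + 1) ^ 2) := by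
      rw [mul_one_div, div_le_div_iff₀ (by positivity) (by positivity)]
      push_cast
      have : (0 : ℝ) ≤ N := Nat.cast_nonneg _
      nlinarith
    linarith

theorem sum_box_ind (N : ℕ) {t : ℝ} (ht : 0 ≤ t) :
    ∑ Q ∈ box N, (if mx Q ≤ 1 then t else 0) ≤ 9 * t := by
  rw [← Finset.sum_filter, Finset.sum_const, nsmul_eq_mul]
  refine mul_le_mul_of_nonneg_right ?_ ht
  have : ((box N).filter fun Q => mx Q ≤ 1).card ≤ (box 1).card :=
    Finset.card_le_card fun Q hQ => mem_box.2 (Finset.mem_filter.1 hQ).2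
  rw [card_box] at this
  exact_mod_cast this

/-- lattice point -/
noncomputable def lp (K : ℕ) (Q : ℤ × ℤ) : ℂ := ⟨(Q.1 : ℝ) / K, (Q.2 : ℝ) / K⟩

/-- index of the nearest lattice point -/
noncomputable def idx (K : ℕ) (z : ℂ) : ℤ × ℤ := (round (z.re * K), round (z.im * K))

theorem mx_cast (Q : ℤ × ℤ) : (mx Q : ℝ) = max |(Q.1 : ℝ)| |(Q.2 : ℝ)| := by
  simp only [mx, Nat.cast_max, Nat.cast_natAbs, Int.cast_abs]

theorem idx_mem {K : ℕ} {z : ℂ} (hz : z ∈ closedBall (0 : ℂ) 1) : mx (idx K z) ≤ K + 1 := by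
  rw [mem_closedBall_zero_iff] at hz
  have h1 := (Complex.abs_re_le_norm z).trans hz
  have h2 := (Complex.abs_im_le_norm z).trans hz
  have hK : (0 : ℝ) ≤ K := Nat.cast_nonneg _
  have key : ∀ t : ℝ, |t| ≤ 1 → |((round (t * K) : ℤ) : ℝ)| ≤ K + 1 := by
    intro t ht
    have a := abs_sub_round (t * K)
    have b : |t * K| ≤ K := by rw [abs_mul, abs_of_nonneg hK]; nlinarith
    have c := abs_sub_abs_le_abs_sub ((round (t * K) : ℤ) : ℝ) (t * K)
    rw [abs_sub_comm] at c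
    linarith
  have : (mx (idx K z) : ℝ) ≤ K + 1 := by
    rw [mx_cast]; exact max_le (key _ h1) (key _ h2)
  exact_mod_cast this

theorem coord_est {K : ℕ} (hK : 0 < K) (t u : ℝ) (m : ℤ) (h : |u - (m : ℝ) / K| ≤ 1 / (4 * K)) :
    |((m - round (t * K) : ℤ) : ℝ)| - 3 / 4 ≤ K * |t - u| ∧
      K * |t - u| ≤ |((m - round (t * K) : ℤ) : ℝ)| + 3 / 4 := by
  have hK' : (0 : ℝ) < K := Nat.cast_pos.2 hK
  have a := abs_sub_round (t * K)
  have b : |u * K - m| ≤ 1 / 4 := by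
    have e : u * K - m = (u - (m : ℝ) / K) * K := by field_simp
    rw [e, abs_mul, abs_of_pos hK']
    calc |u - (m : ℝ) / K| * K ≤ 1 / (4 * K) * K := by gcongr
      _ = 1 / 4 := by field_simp
  have e : (K : ℝ) * |t - u| = |t * K - u * K| := by
    rw [← sub_mul, abs_mul, abs_of_pos hK', mul_comm]
  rw [e]
  push_cast
  rw [abs_le] at a b
  constructor
  · rw [sub_le_iff_le_add, abs_le]
    constructor
    · linarith [le_abs_self (t * K - u * K)]
    · linarith [neg_abs_le (t * K - u * K)]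
  · rw [abs_le]
    constructor
    · linarith [le_abs_self ((m : ℝ) - round (t * K))]
    · linarith [neg_abs_le ((m : ℝ) - round (t * K))]

theorem dist_est {K : ℕ} (hK : 0 < K) (z p : ℂ) (Q : ℤ × ℤ) (h : ‖p - lp K Q‖ ≤ 1 / (4 * K)) :
    (mx (Q - idx K z) : ℝ) - 3 / 4 ≤ K * ‖z - p‖ ∧ K * ‖z - p‖ ≤ 2 * ((mx (Q - idx K z) : ℝ) + 1) := by
  have hK' : (0 : ℝ) < K := Nat.cast_pos.2 hK
  have h1 := coord_est hK z.re p.re Q.1 ((Complex.abs_re_le_norm (p - lp K Q)).trans h)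
  have h2 := coord_est hK z.im p.im Q.2 ((Complex.abs_im_le_norm (p - lp K Q)).trans h)
  have a1 : |z.re - p.re| ≤ ‖z - p‖ := Complex.abs_re_le_norm (z - p)
  have a2 : |z.im - p.im| ≤ ‖z - p‖ := Complex.abs_im_le_norm (z - p)
  have a3 : ‖z - p‖ ≤ |z.re - p.re| + |z.im - p.im| := Complex.norm_le_abs_re_add_abs_im (z - p)
  have e1 : (Q - idx K z).1 = Q.1 - round (z.re * K) := rfl
  have e2 : (Q - idx K z).2 = Q.2 - round (z.im * K) := rfl
  rw [mx_cast, e1, e2]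
  have b1 := mul_le_mul_of_nonneg_left a1 hK'.le
  have b2 := mul_le_mul_of_nonneg_left a2 hK'.le
  have b3 := mul_le_mul_of_nonneg_left a3 hK'.le
  constructor
  · rw [sub_le_iff_le_add]
    exact max_le (by linarith [h1.1]) (by linarith [h2.1])
  · have c1 := le_max_left |((Q.1 - round (z.re * K) : ℤ) : ℝ)| |((Q.2 - round (z.im * K) : ℤ) : ℝ)|
    have c2 := le_max_right |((Q.1 - round (z.re * K) : ℤ) : ℝ)| |((Q.2 - round (z.im * K) : ℤ) : ℝ)|
    rw [mul_add] at b3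
    linarith [h1.2, h2.2]

theorem mx_sub (Q Q' : ℤ × ℤ) : mx (Q - Q') ≤ mx Q + mx Q' := by
  simp only [mx, Prod.fst_sub, Prod.snd_sub]; omega

theorem mx_add (Q Q' : ℤ × ℤ) : mx (Q + Q') ≤ mx Q + mx Q' := by
  simp only [mx, Prod.fst_add, Prod.snd_add]; omega

theorem lat_upper {K : ℕ} (hK : 0 < K) {p : ℤ × ℤ → ℂ} (hp : ∀ Q, ‖p Q - lp K Q‖ ≤ 1 / (4 * K))
    {T : Finset (ℤ × ℤ)} (hT : T ⊆ box (3 * K)) {z : ℂ} (hz : z ∈ closedBall (0 : ℂ) 1)
    {l : ℝ} (hl : 0 < l) (hzl : ∀ Q ∈ T, l ≤ ‖z - p Q‖) :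
    ∑ Q ∈ T, ‖z - p Q‖⁻¹ ≤ 9 * l⁻¹ + 144 * (K : ℝ) ^ 2 := by
  have hK' : (0 : ℝ) < K := Nat.cast_pos.2 hK
  have hK1 : (1 : ℝ) ≤ K := by exact_mod_cast hK
  set F : ℤ × ℤ → ℝ := fun Q => (if mx Q ≤ 1 then l⁻¹ else 0) + 3 * K * (1 / ((mx Q : ℝ) + 1))
    with hF
  have hF0 : ∀ Q, 0 ≤ F Q := fun Q => by
    simp only [hF]; split_ifs <;> positivity
  have h1 : ∀ Q ∈ T, ‖z - p Q‖⁻¹ ≤ F (Q - idx K z) := by
    intro Q hQ
    simp only [hF]
    split_ifs with h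
    · have : ‖z - p Q‖⁻¹ ≤ l⁻¹ := inv_anti₀ hl (hzl Q hQ)
      have : 0 ≤ 3 * K * (1 / ((mx (Q - idx K z) : ℝ) + 1)) := by positivity
      linarith
    · have h2 : (2 : ℝ) ≤ mx (Q - idx K z) := by exact_mod_cast (by omega : 2 ≤ mx (Q - idx K z))
      have h3 := (dist_est hK z (p Q) Q (hp Q)).1
      have h4 : 0 < ‖z - p Q‖ := hl.trans_le (hzl Q hQ)
      rw [zero_add, mul_one_div, inv_eq_one_div, div_le_div_iff₀ h4 (by positivity)]
      nlinarith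
  refine (Finset.sum_le_sum h1).trans ?_
  rw [← Finset.sum_image (s := T) (g := fun Q => Q - idx K z) (f := F)
    (fun a _ b _ h => sub_left_injective h)]
  have hsub : T.image (fun Q => Q - idx K z) ⊆ box (5 * K) := by
    intro Q hQ
    obtain ⟨Q', hQ', rfl⟩ := Finset.mem_image.1 hQ
    have a := mem_box.1 (hT hQ')
    have b := idx_mem (K := K) hz
    have c := mx_sub Q' (idx K z)
    rw [mem_box]; omega
  refine (Finset.sum_le_sum_of_subset_of_nonneg hsub fun Q _ _ => hF0 Q).trans ?_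
  simp only [hF]
  rw [Finset.sum_add_distrib, ← Finset.mul_sum]
  have a := sum_box_ind (5 * K) (t := l⁻¹) (by positivity)
  have b := sum_box_upper (5 * K)
  have c := mul_le_mul_of_nonneg_left b (by positivity : (0 : ℝ) ≤ 3 * K)
  push_cast at c
  nlinarith

theorem lat_lower {K : ℕ} (hK : 0 < K) {p : ℤ × ℤ → ℂ} (hp : ∀ Q, ‖p Q - lp K Q‖ ≤ 1 / (4 * K))
    {x : ℂ} (hx : x ∈ closedBall (0 : ℂ) 1) (hxp : ∀ Q ∈ box (3 * K), x ≠ p Q) :
    ∃ T ⊆ box (3 * K), (K : ℝ) ^ 2 / 4 * ∑ k ∈ Finset.range K, 1 / ((k : ℝ) + 1) ≤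
      ∑ Q ∈ T, (‖x - p Q‖ ^ 2)⁻¹ := by
  have hK' : (0 : ℝ) < K := Nat.cast_pos.2 hK
  have hsub : (box K).image (fun Q => Q + idx K x) ⊆ box (3 * K) := by
    intro Q hQ
    obtain ⟨Q', hQ', rfl⟩ := Finset.mem_image.1 hQ
    have a := mem_box.1 hQ'
    have b := idx_mem (K := K) hx
    have c := mx_add Q' (idx K x)
    rw [mem_box]; omega
  refine ⟨_, hsub, ?_⟩
  rw [Finset.sum_image (fun a _ b _ h => add_left_injective _ h)]
  refine (mul_le_mul_of_nonneg_left (sum_box_lower K) (by positivity)).trans ?_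
  rw [Finset.mul_sum]
  refine Finset.sum_le_sum fun Q hQ => ?_
  have h1 := (dist_est hK x (p (Q + idx K x)) _ (hp _)).2
  rw [add_sub_cancel_right] at h1
  have h2 : 0 < ‖x - p (Q + idx K x)‖ :=
    norm_pos_iff.2 (sub_ne_zero.2 (hxp _ (hsub (Finset.mem_image_of_mem _ hQ))))
  rw [mul_one_div, inv_eq_one_div, div_le_div_iff₀ (by positivity) (by positivity)]
  have h3 : (K * ‖x - p (Q + idx K x)‖) ^ 2 ≤ (2 * ((mx Q : ℝ) + 1)) ^ 2 := by gcongr
  nlinarith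

theorem lat_sep {K : ℕ} (hK : 0 < K) {p : ℤ × ℤ → ℂ} (hp : ∀ Q, ‖p Q - lp K Q‖ ≤ 1 / (4 * K))
    {Q Q' : ℤ × ℤ} (h : Q ≠ Q') : 1 / (2 * K) ≤ ‖p Q - p Q'‖ := by
  have hK' : (0 : ℝ) < K := Nat.cast_pos.2 hK
  have h1 : 1 / (K : ℝ) ≤ ‖lp K Q - lp K Q'‖ := by
    have key : ∀ m n : ℤ, m ≠ n → 1 / (K : ℝ) ≤ |(m : ℝ) / K - (n : ℝ) / K| := by
      intro m n hmn
      rw [← sub_div, abs_div, abs_of_pos hK']
      gcongr
      have : (1 : ℤ) ≤ |m - n| := Int.one_le_abs (sub_ne_zero.2 hmn)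
      exact_mod_cast this
    by_cases h1 : Q.1 = Q'.1
    · have h2 : Q.2 ≠ Q'.2 := fun h2 => h (Prod.ext h1 h2)
      exact (key _ _ h2).trans (Complex.abs_im_le_norm (lp K Q - lp K Q'))
    · exact (key _ _ h1).trans (Complex.abs_re_le_norm (lp K Q - lp K Q'))
  have h2 := norm_sub_le_norm_sub_add_norm_sub (lp K Q) (p Q) (lp K Q')
  have h3 := norm_sub_le_norm_sub_add_norm_sub (p Q) (p Q') (lp K Q')
  rw [norm_sub_rev (lp K Q) (p Q)] at h2
  have e : 1 / (K : ℝ) = 1 / (2 * K) + 1 / (4 * K) + 1 / (4 * K) := by field_simp; ring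
  linarith [hp Q, hp Q']

theorem vol_closedBall (c : ℂ) {t : ℝ} (ht : 0 ≤ t) :
    volume (closedBall c t) = ENNReal.ofReal (t ^ 2 * Real.pi) := by
  rw [Complex.volume_closedBall, ENNReal.ofReal_mul (by positivity), ENNReal.ofReal_pow ht]
  congr 1
  rw [← NNReal.coe_real_pi, ENNReal.ofReal_coe_nnreal]

theorem vol_ball (c : ℂ) {t : ℝ} (ht : 0 ≤ t) :
    volume (ball c t) = ENNReal.ofReal (t ^ 2 * Real.pi) := by
  rw [Complex.volume_ball, ENNReal.ofReal_mul (by positivity), ENNReal.ofReal_pow ht]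
  congr 1
  rw [← NNReal.coe_real_pi, ENNReal.ofReal_coe_nnreal]

theorem vol_ann (c : ℂ) {ρ r : ℝ} (hρ : 0 < ρ) (hρ1 : ρ ≤ 1) (hr : 0 < r) (hr1 : r ≤ 1) :
    volume {p : ℂ | |‖p - c‖ - ρ| ≤ r} ≤ ENNReal.ofReal (4 * r * Real.pi) := by
  have hsub : {p : ℂ | |‖p - c‖ - ρ| ≤ r} ⊆ closedBall c (ρ + r) \ ball c (max (ρ - r) 0) := by
    intro p hp
    have hp' := abs_le.1 (show |‖p - c‖ - ρ| ≤ r from hp)
    refine ⟨?_, ?_⟩
    · rw [mem_closedBall, dist_eq_norm]; linarith [hp'.2]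
    · rw [mem_ball, dist_eq_norm, not_lt]
      exact max_le (by linarith [hp'.1]) (norm_nonneg _)
  refine (measure_mono hsub).trans ?_
  rw [measure_sdiff (ball_subset_closedBall.trans (closedBall_subset_closedBall
    (max_le (by linarith) (by linarith)))) measurableSet_ball.nullMeasurableSet
    measure_ball_lt_top.ne, vol_closedBall c (by linarith), vol_ball c (le_max_right _ _),
    tsub_le_iff_right, ← ENNReal.ofReal_add (by positivity) (by positivity)]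
  apply ENNReal.ofReal_le_ofReal
  rw [← add_mul]
  refine mul_le_mul_of_nonneg_right ?_ Real.pi_pos.le
  rcases le_total r ρ with h | h
  · rw [max_eq_left (by linarith)]; nlinarith
  · rw [max_eq_right (by linarith)]; nlinarith

theorem exists_centres {K : ℕ} (hK : 0 < K) (G : Finset (ℂ × ℝ)) (hG : ∀ h ∈ G, 0 < h.2 ∧ h.2 ≤ 1)
    {a : ℝ} (ha : 0 < a) (ha1 : a ≤ 1) (haG : 64 * G.card * a < 1) :
    ∃ p : ℤ × ℤ → ℂ, (∀ Q, ‖p Q - lp K Q‖ ≤ 1 / (4 * K)) ∧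
      ∀ Q, ∀ h ∈ G, a / K ^ 2 < |‖p Q - h.1‖ - h.2| := by
  have hK' : (0 : ℝ) < K := Nat.cast_pos.2 hK
  have hK1 : (1 : ℝ) ≤ K := by exact_mod_cast hK
  have hr1 : a / K ^ 2 ≤ 1 := by
    rw [div_le_one (by positivity)]; nlinarith
  have key : ∀ Q, ∃ p : ℂ, ‖p - lp K Q‖ ≤ 1 / (4 * K) ∧
      ∀ h ∈ G, a / K ^ 2 < |‖p - h.1‖ - h.2| := by
    intro Q
    by_contra hcon
    push Not at hcon
    have hsub : closedBall (lp K Q) (1 / (4 * K)) ⊆
        ⋃ h ∈ G, {p : ℂ | |‖p - h.1‖ - h.2| ≤ a / K ^ 2} := by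
      intro p hp
      rw [mem_closedBall, dist_eq_norm] at hp
      obtain ⟨h, hh, h2⟩ := hcon p hp
      exact mem_biUnion hh h2
    have h1 := (measure_mono (μ := volume) hsub).trans (measure_biUnion_finset_le G _)
    have h2 := h1.trans (Finset.sum_le_sum fun h hh =>
      vol_ann h.1 (hG h hh).1 (hG h hh).2 (by positivity) hr1)
    rw [vol_closedBall _ (by positivity), Finset.sum_const, nsmul_eq_mul, ← ENNReal.ofReal_natCast,
      ← ENNReal.ofReal_mul (by positivity), ENNReal.ofReal_le_ofReal_iff (by positivity)] at h2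
    have e1 : (1 / (4 * (K : ℝ))) ^ 2 * Real.pi = 1 * (Real.pi / (16 * K ^ 2)) := by
      field_simp; ring
    have e2 : (G.card : ℝ) * (4 * (a / K ^ 2) * Real.pi) =
        (64 * G.card * a) * (Real.pi / (16 * K ^ 2)) := by
      field_simp; ring
    rw [e1, e2] at h2
    have h3 : 0 < Real.pi / (16 * K ^ 2) := by have := Real.pi_pos; positivity
    nlinarith
  choose p hp1 hp2 using key
  exact ⟨p, hp1, hp2⟩

end Pool.Agent.H479Z
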