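import Pool.Agent.H479Z.Build
import Pool.Agent.Helper430.NP.JUniqloc
import Pool.Agent.Helper430.NP.JDual
import Pool.Agent.Helper430.NP.JCp
import Pool.Agent.Helper430.NP.JRephb
import Pool.Agent.Helper430.NP.JBishop
import Pool.Agent.Helper430.NP.Asm

set_option autoImplicit false
open Set Filter Topology Metric MeasureTheory

namespace Pool.Agent.H479Z

open Pool.Agent.Helper430.NP

variable {K : Set ℂ}

theorem IsRat.inv {f : ℂ → ℂ} (hf : IsRat K f) (h0 : ∀ z ∈ K, f z ≠ 0) :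
    IsRat K (fun z => (f z)⁻¹) := by
  obtain ⟨p, q, h1, h2⟩ := hf
  refine ⟨q * q, p * q, fun z hz => ?_, fun z hz => ?_⟩
  · rw [Polynomial.eval_mul]
    refine mul_ne_zero (fun h => h0 z hz ?_) (h1 z hz)
    rw [h2 z (h1 z hz), h, zero_div]
  · rw [Polynomial.eval_mul] at hz
    have a := left_ne_zero_of_mul hz
    have b := right_ne_zero_of_mul hz
    show (f z)⁻¹ = _
    rw [h2 z b, Polynomial.eval_mul, Polynomial.eval_mul]
    field_simp

theorem nonPeak_of (hK : IsCompact K) {y : K} (h : ¬ IsPeak K y) : NonPeak K y := by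
  rintro ⟨f, hf, h1, h2⟩
  have hc : ContinuousOn f K := bishop_cont hf
  refine h ⟨⟨fun z => f z, hc.domRestrict⟩, RX_of_approx hK fun ε hε => ?_, h1,
    fun z hz => h2 z z.2 fun hh => hz (Subtype.ext hh)⟩
  obtain ⟨p, q, hq, hz⟩ := hf ε hε
  exact ⟨_, isRat_div p q hq, fun z => (hz z z.2).le⟩

theorem rep_rat (hK : IsCompact K) {y : ℂ} (hy : y ∈ K) {μ : Measure ℂ} (hμ : Rep K y μ)
    {f : ℂ → ℂ} (hf : IsRat K f) : Integrable f μ ∧ ∫ z, f z ∂μ = f y := by
  have := hμ.prob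
  obtain ⟨p, q, h1, h2⟩ := hf
  have hae : f =ᵐ[μ] fun z => p.eval z / q.eval z := by
    have : ∀ᵐ z ∂μ, z ∈ K := by rw [ae_iff]; exact hμ.supp
    filter_upwards [this] with z hz
    exact h2 z (h1 z hz)
  exact ⟨(rat_integrable hK hμ.supp p q h1).congr hae.symm,
    by rw [integral_congr_ae hae, hμ.rep p q h1, h2 y (h1 y hy)]⟩

/-- a nonpeak point controls a set of positive area -/
theorem wilken (hK : IsCompact K) {y : K} (h : ¬ IsPeak K y) :
    ∃ E ⊆ K, volume E ≠ 0 ∧ ∀ w ∈ E, ∀ ε > 0, ∃ η > 0, ∀ f, IsRat K f → (∀ z ∈ K, ‖f z‖ ≤ 1) →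
      ‖f y - 1‖ ≤ η → ‖f w - 1‖ ≤ ε := by
  obtain ⟨μ, hμ⟩ := rep job_rephb job_bishop K y hK y.2 (nonPeak_of hK h)
  have := hμ.prob
  have hθ := theta0_mem hK hμ
  have haeK : ∀ᵐ z ∂μ, z ∈ K := by rw [ae_iff]; exact hμ.supp
  have hsub : IsRat K (fun z => z - (y : ℂ)) := by
    simpa [sub_eq_add_neg] using (isRat_id (K := K)).add (isRat_const (-(y : ℂ)))
  refine ⟨{w | good μ (fun ζ => ζ - y) w ∧ CT μ (fun ζ => ζ - y) w ≠ 0}, ?_, ?_, ?_⟩
  · rintro w ⟨-, hw⟩
    by_contra hwK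
    apply hw
    have := (rep_rat hK y.2 hμ (hsub.mul (isRat_inv_sub hwK))).2
    simpa [CT, div_eq_mul_inv] using this
  · intro h0
    have h1 : ∀ᵐ w : ℂ, CT μ (fun ζ => ζ - y) w = 0 := by
      filter_upwards [job_good job_ker μ _ inferInstance hθ.1,
        measure_eq_zero_iff_ae_notMem.1 h0] with w a b
      by_contra c
      exact b ⟨a, c⟩
    have h2 := (job_uniqloc (job_dual job_cp job_ker (job_good job_ker))).1 μ _ inferInstance hθ.1 h1
    have h3 : ∀ᵐ z ∂μ, z ≠ (y : ℂ) := by rw [ae_iff]; simpa using hμ.atom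
    obtain ⟨z, a, b⟩ := (h2.and h3).exists
    exact b (sub_eq_zero.1 a)
  · rintro w ⟨⟨hw0, hI⟩, hc⟩ ε hε
    have hwK : w ∈ K := by
      by_contra hwK
      apply hc
      have := (rep_rat hK y.2 hμ (hsub.mul (isRat_inv_sub hwK))).2
      simpa [CT, div_eq_mul_inv] using this
    set c := CT μ (fun ζ => ζ - y) w with hcdef
    set g0 : ℂ → ℂ := fun ζ => (ζ - y) / (ζ - w) with hg0
    have hcp : 0 < ‖c‖ := norm_pos_iff.2 hc
    have haew : ∀ᵐ z ∂μ, z ≠ w := by rw [ae_iff]; simpa using hw0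
    have hlim : Tendsto (fun n : ℕ => ∫ z, max (‖g0 z‖ - n) 0 ∂μ) atTop (𝓝 (∫ _z, (0 : ℝ) ∂μ)) := by
      refine tendsto_integral_of_dominated_convergence (fun z => ‖g0 z‖)
        (fun n => ((hI.norm.sub (integrable_const _)).sup (integrable_const _)).aestronglyMeasurable)
        hI.norm (fun n => Eventually.of_forall fun z => ?_) (Eventually.of_forall fun z => ?_)
      · rw [Real.norm_eq_abs, abs_of_nonneg (le_max_right _ _)]
        exact max_le (by linarith [Nat.cast_nonneg (α := ℝ) n]) (norm_nonneg _)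
      · refine tendsto_const_nhds.congr' ?_
        filter_upwards [(tendsto_natCast_atTop_atTop (R := ℝ)).eventually_ge_atTop ‖g0 z‖] with n hn
        rw [max_eq_right (by linarith)]
    rw [integral_zero] at hlim
    obtain ⟨n, hn, hn0⟩ := ((hlim.eventually (gt_mem_nhds
      (by positivity : 0 < ε * ‖c‖ / 8))).and (eventually_gt_atTop 0)).exists
    have hT : (0 : ℝ) < n := Nat.cast_pos.2 hn0
    set s := ε * ‖c‖ / (4 * n) with hs
    have hs0 : 0 < s := by positivity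
    refine ⟨s * s / 2, by positivity, fun f hf hb hfy => ?_⟩
    obtain ⟨g, hg, hfg⟩ := hf.divq hwK
    obtain ⟨hfI, hfy'⟩ := rep_rat hK y.2 hμ hf
    have h1 : ∫ z, (z - y) * g z ∂μ = 0 := by
      simpa using (rep_rat hK y.2 hμ (hsub.mul hg)).2
    have h2 : ∫ z, g0 z * (f z - 1) ∂μ = c * (f w - 1) := by
      have e : (fun z => g0 z * (f z - 1)) =ᵐ[μ] fun z => (z - y) * g z + g0 z * (f w - 1) := by
        filter_upwards [haeK, haew] with z hz hzw
        have e1 := (hfg z hz).self_of_nhds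
        have hne : z - w ≠ 0 := sub_ne_zero.2 hzw
        simp only [hg0]
        rw [e1]
        field_simp
        ring
      rw [integral_congr_ae e, integral_add (rep_rat hK y.2 hμ (hsub.mul hg)).1 (hI.mul_const _),
        h1, zero_add, integral_mul_const]
      rfl
    have hre : Integrable (fun z => (f z).re) μ := hfI.re
    have hre' : ∫ z, (f z).re ∂μ = (f y).re := by
      have := Complex.reCLM.integral_comp_comm hfI
      rw [hfy'] at this
      exact this
    have hmaxI : Integrable (fun z => max (‖g0 z‖ - n) 0) μ :=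
      (hI.norm.sub (integrable_const _)).sup (integrable_const _)
    have h3 : ‖∫ z, g0 z * (f z - 1) ∂μ‖ ≤
        ∫ z, (2 * max (‖g0 z‖ - n) 0 + (n * s + n / s * 2 - n / s * 2 * (f z).re)) ∂μ := by
      refine norm_integral_le_of_norm_le ((hmaxI.const_mul 2).add
        ((integrable_const _).sub (hre.const_mul _))) ?_
      filter_upwards [haeK] with z hz
      have b1 := hb z hz
      have b2 : ‖f z - 1‖ ≤ 2 := by
        have := norm_sub_le (f z) 1
        rw [norm_one] at this; linarith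
      have b3 : ‖f z - 1‖ ^ 2 ≤ 2 - 2 * (f z).re := by
        have e1 : ‖f z - 1‖ ^ 2 = ‖f z‖ ^ 2 + 1 - 2 * (f z).re := by
          rw [Complex.sq_norm, Complex.sq_norm, Complex.normSq_apply, Complex.normSq_apply]
          simp; ring
        have : ‖f z‖ ^ 2 ≤ 1 := pow_le_one₀ (norm_nonneg _) b1
        linarith
      have b4 : ‖f z - 1‖ ≤ s + (2 - 2 * (f z).re) / s := by
        have : ‖f z - 1‖ ≤ s + ‖f z - 1‖ ^ 2 / s := by
          rw [← sub_le_iff_le_add', le_div_iff₀ hs0]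
          nlinarith [sq_nonneg (‖f z - 1‖ - s), norm_nonneg (f z - 1)]
        refine this.trans ?_
        gcongr
      have b5 : ‖g0 z‖ ≤ max (‖g0 z‖ - n) 0 + n := by linarith [le_max_left (‖g0 z‖ - n) 0]
      rw [norm_mul]
      calc ‖g0 z‖ * ‖f z - 1‖ ≤ (max (‖g0 z‖ - n) 0 + n) * ‖f z - 1‖ := by gcongr
        _ = max (‖g0 z‖ - n) 0 * ‖f z - 1‖ + n * ‖f z - 1‖ := by ring
        _ ≤ max (‖g0 z‖ - n) 0 * 2 + n * (s + (2 - 2 * (f z).re) / s) := by
          gcongr
        _ = _ := by field_simp; ring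
    have hI2 : Integrable (fun z => (n * s + n / s * 2 - n / s * 2 * (f z).re)) μ :=
      (integrable_const _).sub (hre.const_mul _)
    rw [integral_add (hmaxI.const_mul 2) hI2,
      integral_const_mul, integral_sub (integrable_const _) (hre.const_mul _), integral_const_mul,
      hre', h2, norm_mul] at h3
    simp only [integral_const, probReal_univ, smul_eq_mul, one_mul] at h3
    have b6 : 1 - (f y).re ≤ s * s / 2 := by
      have := Complex.abs_re_le_norm (f y - 1)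
      rw [Complex.sub_re, Complex.one_re] at this
      linarith [neg_abs_le ((f y).re - 1)]
    have b7 : n / s * 2 - n / s * 2 * (f y).re ≤ n * s := by
      calc n / s * 2 - n / s * 2 * (f y).re = n / s * 2 * (1 - (f y).re) := by ring
        _ ≤ n / s * 2 * (s * s / 2) := by gcongr
        _ = n * s := by field_simp
    have b8 : n * s = ε * ‖c‖ / 4 := by rw [hs]; field_simp
    have b9 : ‖c‖ * ‖f w - 1‖ ≤ ‖c‖ * ε := by nlinarith
    exact le_of_mul_le_mul_left b9 hcp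

theorem rot (a : ℂ) : ∃ u : ℂ, ‖u‖ = 1 ∧ u * a = (‖a‖ : ℂ) := by
  by_cases h0 : a = 0
  · exact ⟨1, by simp, by simp [h0]⟩
  · refine ⟨(‖a‖ : ℂ) / a, ?_, div_mul_cancel₀ _ h0⟩
    rw [norm_div, Complex.norm_real, norm_norm, div_self (norm_ne_zero_iff.2 h0)]

theorem samePart_of_ucp (hK : IsCompact K) {x y : K} (hx : UCP K x) (hy : ¬ IsPeak K y) :
    SamePart K x y := by
  obtain ⟨E, hEK, hE0, hE⟩ := wilken hK hy
  obtain ⟨m, hm0, hm⟩ : ∃ m : ℝ, 0 < m ∧ ENNReal.ofReal m < volume E := by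
    obtain ⟨r, h1, h2, h3⟩ := ENNReal.lt_iff_exists_real_btwn.1 (pos_iff_ne_zero.2 hE0)
    exact ⟨r, ENNReal.ofReal_pos.1 h2, h3⟩
  obtain ⟨δ, hδ, h⟩ := hx m hm0 (1 / 2) (by norm_num)
  set A : ℕ → Set ℂ := fun k => {w ∈ E | ∀ f, IsRat K f → (∀ z ∈ K, ‖f z‖ ≤ 1) →
    ‖f y - 1‖ ≤ 1 / ((k : ℝ) + 1) → ‖f w - 1‖ ≤ 2 * δ} with hA
  have hmono : Monotone A := by
    rintro a b hab w ⟨h1, h2⟩
    refine ⟨h1, fun f hf hb hfy => h2 f hf hb (hfy.trans (one_div_le_one_div_of_le
      (by positivity) ?_))⟩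
    have : (a : ℝ) ≤ b := by exact_mod_cast hab
    linarith
  have hU : E ⊆ ⋃ k, A k := by
    intro w hw
    obtain ⟨η, hη, h1⟩ := hE w hw (2 * δ) (by positivity)
    obtain ⟨k, hk⟩ := exists_nat_one_div_lt hη
    exact mem_iUnion.2 ⟨k, hw, fun f hf hb hfy => h1 f hf hb (hfy.trans hk.le)⟩
  have h1 := hm.trans_le (measure_mono hU)
  rw [hmono.measure_iUnion, lt_iSup_iff] at h1
  obtain ⟨k, hk⟩ := h1
  set s := min (1 / 4) (1 / ((k : ℝ) + 1)) with hs
  have hs0 : 0 < s := by positivity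
  have hs1 : s ≤ 1 / 4 := min_le_left _ _
  have hs2 : s ≤ 1 / ((k : ℝ) + 1) := min_le_right _ _
  refine ⟨2 - s / 3, by linarith, fun F hF hb => ?_⟩
  by_contra hlt
  push Not at hlt
  obtain ⟨f0, hf0, hb0, hap⟩ := RX_approx_ball hK hF hb (ε := s / 3) (by positivity)
  have h2 : 2 - s < ‖f0 x - f0 y‖ := by
    have a1 := norm_sub_le_norm_sub_add_norm_sub (F x) (f0 x) (F y)
    have a2 := norm_sub_le_norm_sub_add_norm_sub (f0 x) (f0 y) (F y)
    rw [norm_sub_rev (f0 y) (F y)] at a2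
    linarith [hap x, hap y]
  obtain ⟨u, hu1, hu2⟩ := rot (f0 y)
  have hbu : ∀ z ∈ K, ‖u * f0 z‖ ≤ 1 := fun z hz => by rw [norm_mul, hu1, one_mul]; exact hb0 z hz
  have h3 : ‖u * f0 y - 1‖ ≤ s := by
    have a1 := norm_sub_le (f0 x) (f0 y)
    have a2 := hb0 x x.2
    have a3 := hb0 y y.2
    rw [hu2, ← Complex.ofReal_one, ← Complex.ofReal_sub, Complex.norm_real, Real.norm_eq_abs,
      abs_of_nonpos (by linarith)]
    linarith
  have hg : IsRat K (fun z => (1 / 2 : ℂ) * (u * f0 z + -1)) :=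
    ((hf0.const_mul u).add (isRat_const _)).const_mul _
  have hn : ∀ z, ‖(1 / 2 : ℂ) * (u * f0 z + -1)‖ = ‖u * f0 z - 1‖ / 2 := fun z => by
    rw [norm_mul, ← sub_eq_add_neg]; simp; ring
  have h4 := h _ hg (fun z hz => by
    rw [hn]
    have := norm_sub_le (u * f0 z) 1
    rw [norm_one] at this
    linarith [hbu z hz]) (hk.le.trans (measure_mono fun w hw => ⟨hEK hw.1, by
      rw [hn]
      have := hw.2 _ (hf0.const_mul u) hbu (h3.trans hs2)
      linarith⟩))
  rw [hn] at h4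
  have a1 := norm_sub_le_norm_sub_add_norm_sub (u * f0 x) 1 (u * f0 y)
  rw [← mul_sub, norm_mul, hu1, one_mul, norm_sub_rev 1] at a1
  linarith

theorem nonpeak_of_samePart (hK : IsCompact K) {x y : K} (hxy : y ≠ x) (h : SamePart K x y) :
    ¬ IsPeak K y := by
  obtain ⟨c, hc, h⟩ := h
  set t := max (c / 2) 0 with ht
  have ht0 : 0 ≤ t := le_max_right _ _
  have ht1 : t < 1 := max_lt (by linarith) one_pos
  have ht2 : c / 2 ≤ t := le_max_left _ _
  have hgap : 0 < 1 + t - c := by linarith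
  set η := (1 - t) * (1 + t - c) / 4 with hη
  have hη0 : 0 < η := by have : 0 < 1 - t := by linarith
                         positivity
  refine nonpeak_of hK (S := {(x : ℂ)}) isCompact_singleton (by simp)
    (fun hh => hxy (Subtype.ext hh)) hη0 (θ := 1 - η) (by linarith) fun f0 hf0 hb0 hs => ?_
  by_contra hlt
  push Not at hlt
  obtain ⟨u, hu1, hu2⟩ := rot (f0 y)
  set f : ℂ → ℂ := fun z => u * f0 z with hf
  have hfr : IsRat K f := hf0.const_mul u
  have hb : ∀ z ∈ K, ‖f z‖ ≤ 1 := fun z hz => by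
    simp only [hf]; rw [norm_mul, hu1, one_mul]; exact hb0 z hz
  have hfy : ‖f y - 1‖ ≤ η := by
    simp only [hf]
    have a3 := hb0 y y.2
    rw [hu2, ← Complex.ofReal_one, ← Complex.ofReal_sub, Complex.norm_real, Real.norm_eq_abs,
      abs_of_nonpos (by linarith)]
    linarith
  have hfx : ‖f x‖ ≤ η := by
    simp only [hf]; rw [norm_mul, hu1, one_mul]; exact hs x rfl
  have hden : ∀ z ∈ K, 1 - t ≤ ‖1 + -(t : ℂ) * f z‖ := by
    intro z hz
    have a1 := norm_sub_norm_le (1 : ℂ) ((t : ℂ) * f z)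
    rw [norm_one, norm_mul, Complex.norm_real, Real.norm_eq_abs, abs_of_nonneg ht0] at a1
    have a2 : t * ‖f z‖ ≤ t := mul_le_of_le_one_right ht0 (hb z hz)
    rw [neg_mul, ← sub_eq_add_neg]
    linarith
  have hden0 : ∀ z ∈ K, 1 + -(t : ℂ) * f z ≠ 0 := fun z hz h0 => by
    have := hden z hz
    rw [h0, norm_zero] at this
    linarith
  have hg : IsRat K (fun z => (f z + -(t : ℂ)) * (1 + -(t : ℂ) * f z)⁻¹) :=
    (hfr.add (isRat_const _)).mul (((isRat_const 1).add (hfr.const_mul _)).inv hden0)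
  have h1 := h _ hg.res_mem (fun z => by
    have hz := hden0 z z.2
    rw [IsRat.res_apply, norm_mul, norm_inv, ← div_eq_mul_inv, div_le_one (norm_pos_iff.2 hz),
      ← sq_le_sq₀ (norm_nonneg _) (norm_nonneg _)]
    have a1 : ‖f z‖ ^ 2 ≤ 1 := pow_le_one₀ (norm_nonneg _) (hb z z.2)
    rw [Complex.sq_norm, Complex.normSq_apply] at a1
    rw [Complex.sq_norm, Complex.sq_norm, Complex.normSq_apply, Complex.normSq_apply]
    simp only [Complex.add_re, Complex.neg_re, Complex.ofReal_re, Complex.add_im, Complex.neg_im,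
      Complex.ofReal_im, Complex.mul_re, Complex.mul_im, Complex.one_re, Complex.one_im]
    have a2 : 0 ≤ 1 - t ^ 2 := by nlinarith
    nlinarith [mul_nonneg a2 (sub_nonneg.2 a1)])
  simp only [IsRat.res_apply] at h1
  have h1t : 0 < 1 - t := by linarith
  have e1 : (f y + -(t : ℂ)) * (1 + -(t : ℂ) * f y)⁻¹ - 1 =
      ((1 + t : ℝ) : ℂ) * (f y - 1) * (1 + -(t : ℂ) * f y)⁻¹ := by
    have hinv := mul_inv_cancel₀ (hden0 y y.2)
    push_cast
    linear_combination hinv
  have e2 : (f x + -(t : ℂ)) * (1 + -(t : ℂ) * f x)⁻¹ + t =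
      ((1 - t ^ 2 : ℝ) : ℂ) * f x * (1 + -(t : ℂ) * f x)⁻¹ := by
    have hinv := mul_inv_cancel₀ (hden0 x x.2)
    push_cast
    linear_combination (-(t : ℂ)) * hinv
  have b1 : ‖(f y + -(t : ℂ)) * (1 + -(t : ℂ) * f y)⁻¹ - 1‖ ≤ 2 * η / (1 - t) := by
    rw [e1, norm_mul, norm_mul, norm_inv, Complex.norm_real, Real.norm_eq_abs,
      abs_of_nonneg (by linarith), ← div_eq_mul_inv]
    have := hden y y.2
    gcongr
    linarith
  have b2 : ‖(f x + -(t : ℂ)) * (1 + -(t : ℂ) * f x)⁻¹ + t‖ ≤ 1 * η / (1 - t) := by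
    have a2 : 0 ≤ 1 - t ^ 2 := by nlinarith
    rw [e2, norm_mul, norm_mul, norm_inv, Complex.norm_real, Real.norm_eq_abs,
      abs_of_nonneg a2, ← div_eq_mul_inv]
    have := hden x x.2
    gcongr
    nlinarith
  have e3 : η / (1 - t) = (1 + t - c) / 4 := by rw [hη]; field_simp
  rw [mul_div_assoc, e3] at b1 b2
  set gy := (f y + -(t : ℂ)) * (1 + -(t : ℂ) * f y)⁻¹
  set gx := (f x + -(t : ℂ)) * (1 + -(t : ℂ) * f x)⁻¹
  have e4 : ((1 + t : ℝ) : ℂ) = (gx + t) - (gx - gy) - (gy - 1) := by push_cast; ring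
  have b3 : ‖((1 + t : ℝ) : ℂ)‖ ≤ ‖gx + t‖ + ‖gx - gy‖ + ‖gy - 1‖ := by
    rw [e4]
    exact (norm_sub_le _ _).trans (add_le_add (norm_sub_le _ _) le_rfl)
  rw [Complex.norm_real, Real.norm_eq_abs, abs_of_nonneg (by linarith)] at b3
  linarith

theorem interior_empty (h : ∀ x ∈ K, ∀ M, ¬ DerBd K M x) : interior K = ∅ := by
  rw [Set.eq_empty_iff_forall_notMem]
  intro x hx
  obtain ⟨ρ, hρ, hb⟩ := Metric.nhds_basis_closedBall.mem_iff.1 (mem_interior_iff_mem_nhds.1 hx)
  refine h x (interior_subset hx) (1 / ρ) fun f hf hf1 => ?_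
  have hd : DifferentiableOn ℂ f (closedBall x ρ) := fun z hz =>
    (hf.differentiableAt (hb hz)).differentiableWithinAt
  exact Complex.norm_deriv_le_of_forall_mem_sphere_norm_le hρ
    (DiffContOnCl.mk_ball (hd.mono ball_subset_closedBall) hd.continuousOn)
    fun z hz => hf1 z (hb (sphere_subset_closedBall hz))

theorem Om_nonempty {H : Finset (ℂ × ℝ)} (h : Cl 0 1 H Prod.fst Prod.snd) :
    (Om 0 1 H Prod.fst Prod.snd).Nonempty := by
  have h1 : (1 : ℂ) ∈ closure (ball (0 : ℂ) 1) := by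
    rw [closure_ball _ one_ne_zero]; simp
  obtain ⟨z, a, b⟩ := mem_closure_iff.1 h1 (⋃ i ∈ H, closedBall i.1 i.2)ᶜ
    (H.finite_toSet.isClosed_biUnion fun _ _ => isClosed_closedBall).isOpen_compl (by
      intro hh
      obtain ⟨i, hi, h2⟩ := mem_iUnion₂.1 hh
      simpa using h.sub i hi h2)
  exact ⟨z, b, a⟩

theorem exists_one_part : ∃ (c : ℕ → ℂ) (r : ℕ → ℝ) (X : Set ℂ),
    (∀ n, 0 < r n) ∧ (∀ n, closedBall (c n) (r n) ⊆ ball 0 1) ∧
    (∀ m n, m ≠ n → Disjoint (closedBall (c m) (r m)) (closedBall (c n) (r n))) ∧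
    Summable r ∧ X = closedBall 0 1 \ ⋃ n, ball (c n) (r n) ∧ interior X = ∅ ∧
    (∃ x : X, {y : X | ¬ IsPeak X y} = {y : X | SamePart X x y}) ∧
    volume (X \ Subtype.val '' {y : X | ¬ IsPeak X y}) = 0 ∧
    ∀ (x : X) (D : C(X, ℂ) → ℂ), IsBPD X x D → ∀ f ∈ RX X, D f = 0 := by
  classical
  obtain ⟨H, X, G, hCl, hmono, hrad, hX, hG, hnull, hder, huc⟩ := exists_cheese
  have hXc : IsCompact X := by
    rw [hX]
    exact isCompact_Xs.of_isClosed_subset (isClosed_iInter fun j => isCompact_Xs.isClosed)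
      (iInter_subset _ 0)
  have hvol : ENNReal.ofReal 2 ≤ volume X := hX ▸ cheese_vol hCl hmono hrad
  have hint := interior_empty hder
  set S : Set (ℂ × ℝ) := ⋃ j, (H j : Set (ℂ × ℝ)) with hS
  have hfin : ∀ u : Finset (ℂ × ℝ), (u : Set (ℂ × ℝ)) ⊆ S → ∃ J, u ⊆ H J := by
    intro u hu
    induction u using Finset.induction_on with
    | empty => exact ⟨0, Finset.empty_subset _⟩
    | insert a u _ ih =>
      rw [Finset.coe_insert, insert_subset_iff] at hu
      obtain ⟨J, hJ⟩ := ih hu.2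
      obtain ⟨j, hj⟩ := mem_iUnion.1 hu.1
      exact ⟨max j J, Finset.insert_subset (hmono (le_max_left _ _) hj)
        (hJ.trans (hmono (le_max_right _ _)))⟩
  have hSc : S.Countable := countable_iUnion fun j => (H j).countable_toSet
  have hSi : S.Infinite := by
    intro hf
    obtain ⟨J, hJ⟩ := hfin hf.toFinset (by simp)
    have h1 : Om 0 1 (H J) Prod.fst Prod.snd ⊆ X := by
      rw [hX]
      refine subset_iInter fun j => Om_sub_Xs.trans (Xs_anti fun i hi => hJ ?_)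
      rw [Set.Finite.mem_toFinset]
      exact mem_iUnion.2 ⟨j, hi⟩
    obtain ⟨z, hz⟩ := Om_nonempty (hCl J)
    have : z ∈ interior X := interior_maximal h1 isOpen_Om hz
    rw [hint] at this; exact this
  have := hSc.to_subtype
  have := hSi.to_subtype
  obtain ⟨e⟩ : Nonempty (ℕ ≃ S) := nonempty_equiv_of_countable
  have hmem : ∀ n, ∃ j, (e n).1 ∈ H j := fun n => mem_iUnion.1 (e n).2
  have hnp : ∀ x (hx : x ∈ G), ¬ IsPeak X ⟨x, hG hx⟩ := by
    intro x hx
    obtain ⟨δ, hδ, h⟩ := huc x hx 1 one_pos (1 / 2) (by norm_num)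
    refine nonpeak_of hXc (S := X \ ball x (1 / 2)) (hXc.diff isOpen_ball) sdiff_subset (by simp)
      hδ (θ := 1 / 2) (by norm_num) fun f hf hb hs => ?_
    exact h f hf hb ((vol_off_ball hvol x).trans (measure_mono fun z hz => ⟨hz.1, hs z hz⟩))
  obtain ⟨x, hx⟩ : G.Nonempty := by
    by_contra h
    rw [not_nonempty_iff_eq_empty] at h
    rw [h, Set.sdiff_empty] at hnull
    rw [hnull] at hvol
    exact absurd hvol (not_le.2 (ENNReal.ofReal_pos.2 two_pos))
  refine ⟨fun n => (e n).1.1, fun n => (e n).1.2, X, fun n => ?_, fun n => ?_, fun m n hmn => ?_,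
    ?_, ?_, hint, ⟨⟨x, hG hx⟩, ?_⟩, ?_, fun x D hD => bpd_zero hXc (hder x x.2) hD⟩
  · obtain ⟨j, hj⟩ := hmem n
    exact (hCl j).pos _ hj
  · obtain ⟨j, hj⟩ := hmem n
    exact (hCl j).sub _ hj
  · obtain ⟨i, hi⟩ := hmem m
    obtain ⟨j, hj⟩ := hmem n
    exact (hCl (max i j)).disj _ (hmono (le_max_left _ _) hi) _ (hmono (le_max_right _ _) hj)
      fun h => hmn (e.injective (Subtype.ext h))
  · refine summable_of_sum_le (c := 1 / 2) (fun n => ?_) fun u => ?_
    · obtain ⟨j, hj⟩ := hmem n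
      exact ((hCl j).pos _ hj).le
    · obtain ⟨J, hJ⟩ := hfin (u.image fun n => (e n).1) (by
        intro a ha
        obtain ⟨n, -, rfl⟩ := Finset.mem_image.1 (Finset.mem_coe.1 ha)
        exact (e n).2)
      rw [← Finset.sum_image (s := u) (g := fun n => (e n).1) (f := fun h : ℂ × ℝ => h.2)
        fun a _ b _ h => e.injective (Subtype.ext h)]
      exact (Finset.sum_le_sum_of_subset_of_nonneg hJ
        fun i hi _ => ((hCl J).pos i hi).le).trans (hrad J)
  · rw [hX]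
    ext z
    simp only [mem_iInter, mem_Xs, Set.mem_sdiff, mem_iUnion, not_exists]
    constructor
    · intro h
      refine ⟨(h 0).1, fun n => ?_⟩
      obtain ⟨j, hj⟩ := hmem n
      exact (h j).2 _ hj
    · intro h j
      refine ⟨h.1, fun i hi => ?_⟩
      have := h.2 (e.symm ⟨i, mem_iUnion.2 ⟨j, hi⟩⟩)
      simpa using this
  · ext y
    constructor
    · exact fun hy => samePart_of_ucp hXc (huc x hx) hy
    · intro hy
      by_cases hxy : y = ⟨x, hG hx⟩
      · rw [hxy]; exact hnp x hx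
      · exact nonpeak_of_samePart hXc hxy hy
  · refine measure_mono_null (fun z hz => ?_) hnull
    exact ⟨hz.1, fun hzG => hz.2 ⟨⟨z, hG hzG⟩, hnp z hzG, rfl⟩⟩

end Pool.Agent.H479Z
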