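import Pool.Agent.H479Z.Defs

set_option autoImplicit false
open Set Filter Topology Metric Polynomial

namespace Pool.Agent.H479Z

/-- `f` is a rational function with poles off `K`. -/
def IsRat (K : Set ℂ) (f : ℂ → ℂ) : Prop :=
  ∃ p q : ℂ[X], (∀ z ∈ K, q.eval z ≠ 0) ∧ ∀ z, q.eval z ≠ 0 → f z = p.eval z / q.eval z

variable {K : Set ℂ}

theorem IsRat.mono {L : Set ℂ} {f : ℂ → ℂ} (h : IsRat K f) (hL : L ⊆ K) : IsRat L f := by
  obtain ⟨p, q, h1, h2⟩ := h
  exact ⟨p, q, fun z hz => h1 z (hL hz), h2⟩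

theorem isRat_poly (p : ℂ[X]) : IsRat K (fun z => p.eval z) :=
  ⟨p, 1, by simp, by simp⟩

theorem isRat_div (p q : ℂ[X]) (hq : ∀ z ∈ K, q.eval z ≠ 0) :
    IsRat K (fun z => p.eval z / q.eval z) := ⟨p, q, hq, fun _ _ => rfl⟩

theorem isRat_const (c : ℂ) : IsRat K (fun _ => c) := ⟨C c, 1, by simp, by simp⟩

theorem isRat_id : IsRat K (fun z => z) := ⟨X, 1, by simp, by simp⟩

theorem IsRat.add {f g : ℂ → ℂ} (hf : IsRat K f) (hg : IsRat K g) :
    IsRat K (fun z => f z + g z) := by
  obtain ⟨p, q, h1, h2⟩ := hf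
  obtain ⟨p', q', h1', h2'⟩ := hg
  refine ⟨p * q' + p' * q, q * q', fun z hz => ?_, fun z hz => ?_⟩
  · rw [eval_mul]; exact mul_ne_zero (h1 z hz) (h1' z hz)
  · rw [eval_mul] at hz
    have a := left_ne_zero_of_mul hz
    have b := right_ne_zero_of_mul hz
    show f z + g z = _
    rw [h2 z a, h2' z b, eval_add, eval_mul, eval_mul, eval_mul]
    field_simp

theorem IsRat.mul {f g : ℂ → ℂ} (hf : IsRat K f) (hg : IsRat K g) :
    IsRat K (fun z => f z * g z) := by
  obtain ⟨p, q, h1, h2⟩ := hf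
  obtain ⟨p', q', h1', h2'⟩ := hg
  refine ⟨p * p', q * q', fun z hz => ?_, fun z hz => ?_⟩
  · rw [eval_mul]; exact mul_ne_zero (h1 z hz) (h1' z hz)
  · rw [eval_mul] at hz
    have a := left_ne_zero_of_mul hz
    have b := right_ne_zero_of_mul hz
    show f z * g z = _
    rw [h2 z a, h2' z b, eval_mul, eval_mul]
    field_simp

theorem IsRat.const_mul {f : ℂ → ℂ} (c : ℂ) (hf : IsRat K f) : IsRat K (fun z => c * f z) :=
  (isRat_const c).mul hf

theorem IsRat.pow {f : ℂ → ℂ} (hf : IsRat K f) (n : ℕ) : IsRat K (fun z => f z ^ n) := by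
  induction n with
  | zero => simpa using isRat_const (K := K) 1
  | succ n ih => simpa [pow_succ] using ih.mul hf

theorem isRat_inv_sub {a : ℂ} (ha : a ∉ K) : IsRat K (fun z => (z - a)⁻¹) := by
  refine ⟨1, X - C a, fun z hz => ?_, fun z _ => by simp⟩
  simp only [eval_sub, eval_X, eval_C]
  intro h
  exact ha (sub_eq_zero.1 h ▸ hz)

theorem isRat_pole (e : ℂ) {a : ℂ} (ha : a ∉ K) (k : ℕ) :
    IsRat K (fun z => e * ((z - a) ^ k)⁻¹) := by
  have := ((isRat_inv_sub ha).pow k).const_mul e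
  simpa [inv_pow] using this

theorem isRat_sum {ι : Type*} (s : Finset ι) (f : ι → ℂ → ℂ) (hf : ∀ i ∈ s, IsRat K (f i)) :
    IsRat K (fun z => ∑ i ∈ s, f i z) := by
  classical
  induction s using Finset.induction_on with
  | empty => simpa using isRat_const (K := K) 0
  | insert a s ha ih =>
    simp only [Finset.sum_insert ha]
    exact (hf a (Finset.mem_insert_self _ _)).add
      (ih fun i hi => hf i (Finset.mem_insert_of_mem hi))

theorem IsRat.differentiableAt {f : ℂ → ℂ} (hf : IsRat K f) {x : ℂ} (hx : x ∈ K) :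
    DifferentiableAt ℂ f x := by
  obtain ⟨p, q, h1, h2⟩ := hf
  have hq : ∀ᶠ z in 𝓝 x, q.eval z ≠ 0 := q.continuous.continuousAt.eventually_ne (h1 x hx)
  have he : f =ᶠ[𝓝 x] fun z => p.eval z / q.eval z := hq.mono fun z hz => h2 z hz
  refine DifferentiableAt.congr_of_eventuallyEq ?_ he
  exact (p.differentiable.differentiableAt).div (q.differentiable.differentiableAt) (h1 x hx)

theorem IsRat.continuousOn {f : ℂ → ℂ} (hf : IsRat K f) : ContinuousOn f K :=
  fun _ hx => (hf.differentiableAt hx).continuousAt.continuousWithinAt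

theorem IsRat.continuousAt_deriv {f : ℂ → ℂ} (hf : IsRat K f) {x : ℂ} (hx : x ∈ K) :
    ContinuousAt (deriv f) x := by
  obtain ⟨p, q, h1, h2⟩ := hf
  have hopen : IsOpen {z : ℂ | q.eval z ≠ 0} := isOpen_ne_fun q.continuous continuous_const
  have hd : DifferentiableOn ℂ f {z : ℂ | q.eval z ≠ 0} := by
    intro z hz
    have : IsRat {z : ℂ | q.eval z ≠ 0} f := ⟨p, q, fun _ h => h, h2⟩
    exact (this.differentiableAt hz).differentiableWithinAt
  have := (hd.analyticOnNhd hopen).deriv x (h1 x hx)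
  exact this.continuousAt

/-- difference quotients -/
theorem IsRat.divq {f : ℂ → ℂ} (hf : IsRat K f) {w : ℂ} (hw : w ∈ K) :
    ∃ g, IsRat K g ∧ ∀ y ∈ K, ∀ᶠ z in 𝓝 y, f z = f w + (z - w) * g z := by
  obtain ⟨p, q, h1, h2⟩ := hf
  have hroot : (p * C (q.eval w) - C (p.eval w) * q).IsRoot w := by
    simp [IsRoot, mul_comm]
  obtain ⟨p1, hp1⟩ := dvd_iff_isRoot.2 hroot
  refine ⟨fun z => p1.eval z / (C (q.eval w) * q).eval z, isRat_div _ _ ?_, fun y hy => ?_⟩
  · intro z hz
    rw [eval_mul, eval_C]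
    exact mul_ne_zero (h1 w hw) (h1 z hz)
  · have hq : ∀ᶠ z in 𝓝 y, q.eval z ≠ 0 := q.continuous.continuousAt.eventually_ne (h1 y hy)
    filter_upwards [hq] with z hz
    have e := congrArg (Polynomial.eval z) hp1
    simp only [eval_sub, eval_mul, eval_C, eval_X] at e
    rw [h2 z hz, h2 w (h1 w hw), eval_mul, eval_C]
    have a := h1 w hw
    field_simp
    linear_combination e

/-- partial fractions as an induction principle -/
theorem IsRat.induction (P : (ℂ → ℂ) → Prop)
    (hcongr : ∀ f g, P f → (∀ z ∈ K, g z = f z) → P g)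
    (hadd : ∀ f g, IsRat K f → IsRat K g → P f → P g → P (fun z => f z + g z))
    (hpoly : ∀ p : ℂ[X], P (fun z => p.eval z))
    (hpole : ∀ (e a : ℂ) (k : ℕ), a ∉ K → P (fun z => e * ((z - a) ^ (k + 1))⁻¹))
    {f : ℂ → ℂ} (hf : IsRat K f) : P f := by
  obtain ⟨p, q, h1, h2⟩ := hf
  suffices H : ∀ (n : ℕ) (p q : ℂ[X]), q.natDegree = n → (∀ z ∈ K, q.eval z ≠ 0) →
      P (fun z => p.eval z / q.eval z) from
    hcongr _ _ (H _ p q rfl h1) fun z hz => h2 z (h1 z hz)
  intro n
  induction n using Nat.strong_induction_on with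
  | _ n ih =>
    intro p q hn hq
    by_cases h0 : q.natDegree = 0
    · obtain ⟨c, rfl⟩ := natDegree_eq_zero.1 h0
      refine hcongr _ _ (hpoly (C c⁻¹ * p)) fun z _ => ?_
      simp [div_eq_inv_mul]
    · have hq0 : q ≠ 0 := by rintro rfl; simp at h0
      have hdeg : q.degree ≠ 0 := by
        intro h; exact h0 (natDegree_eq_zero_iff_degree_le_zero.2 h.le)
      obtain ⟨a, ha⟩ := IsAlgClosed.exists_root q hdeg
      have haK : a ∉ K := fun h => hq a h ha
      obtain ⟨q1, hq1, hnd⟩ := exists_eq_pow_rootMultiplicity_mul_and_not_dvd q hq0 a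
      have hm : 0 < q.rootMultiplicity a := (rootMultiplicity_pos hq0).2 ha
      obtain ⟨k, hk⟩ : ∃ k, q.rootMultiplicity a = k + 1 := ⟨_, (Nat.succ_pred_eq_of_pos hm).symm⟩
      rw [hk] at hq1
      have hq1a : q1.eval a ≠ 0 := fun h => hnd (dvd_iff_isRoot.2 h)
      set e := p.eval a / q1.eval a with he
      have hroot : (p - C e * q1).IsRoot a := by
        simp only [IsRoot, eval_sub, eval_mul, eval_C, he]
        field_simp
        ring
      obtain ⟨p1, hp1⟩ := dvd_iff_isRoot.2 hroot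
      have hq10 : q1 ≠ 0 := by rintro rfl; simp at hq1a
      have hq2 : ∀ z ∈ K, ((X - C a) ^ k * q1).eval z ≠ 0 := by
        intro z hz h
        apply hq z hz
        rw [hq1, pow_succ, mul_right_comm, eval_mul, h, zero_mul]
      have hdeg2 : ((X - C a) ^ k * q1).natDegree < n := by
        rw [← hn, hq1, natDegree_mul (pow_ne_zero _ (X_sub_C_ne_zero a)) hq10,
          natDegree_mul (pow_ne_zero _ (X_sub_C_ne_zero a)) hq10, natDegree_pow, natDegree_pow,
          natDegree_X_sub_C]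
        omega
      have P2 := ih _ hdeg2 p1 _ rfl hq2
      have P1 := hpole e a k haK
      refine hcongr _ _ (hadd _ _ (isRat_pole e haK (k + 1)) (isRat_div _ _ hq2) P1 P2) ?_
      intro z hz
      have hza : z - a ≠ 0 := fun h => haK (sub_eq_zero.1 h ▸ hz)
      have hq1z : q1.eval z ≠ 0 := by
        intro h; apply hq2 z hz; rw [eval_mul, h, mul_zero]
      have e1 := congrArg (Polynomial.eval z) hp1
      simp only [eval_sub, eval_mul, eval_C, eval_X] at e1
      rw [hq1]
      simp only [eval_mul, eval_pow, eval_sub, eval_X, eval_C]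
      have e2 : eval z p = e * eval z q1 + (z - a) * eval z p1 := by linear_combination e1
      rw [e2]
      generalize e = e'
      field_simp
      ring

/-- restriction to `K` -/
noncomputable def IsRat.res {f : ℂ → ℂ} (hf : IsRat K f) : C(K, ℂ) :=
  ⟨fun z => f z, hf.continuousOn.domRestrict⟩

@[simp] theorem IsRat.res_apply {f : ℂ → ℂ} (hf : IsRat K f) (z : K) : hf.res z = f z := rfl

theorem IsRat.res_mem {f : ℂ → ℂ} (hf : IsRat K f) : hf.res ∈ RX K := by
  apply subset_closure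
  obtain ⟨p, q, h1, h2⟩ := id hf
  exact ⟨p, q, h1, fun z => h2 z (h1 z z.2)⟩

theorem RX_approx (hK : IsCompact K) {F : C(K, ℂ)} (hF : F ∈ RX K) {ε : ℝ} (hε : 0 < ε) :
    ∃ f, IsRat K f ∧ ∀ z : K, ‖F z - f z‖ < ε := by
  have : CompactSpace K := isCompact_iff_compactSpace.1 hK
  obtain ⟨g, ⟨p, q, h1, h2⟩, hd⟩ := Metric.mem_closure_iff.1 hF ε hε
  refine ⟨fun z => p.eval z / q.eval z, isRat_div p q h1, fun z => ?_⟩
  show ‖F z - p.eval (z : ℂ) / q.eval (z : ℂ)‖ < ε
  rw [← h2 z, ← dist_eq_norm]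
  exact lt_of_le_of_lt (ContinuousMap.dist_apply_le_dist z) hd

theorem RX_of_approx (hK : IsCompact K) {F : C(K, ℂ)}
    (h : ∀ ε > 0, ∃ f, IsRat K f ∧ ∀ z : K, ‖F z - f z‖ ≤ ε) : F ∈ RX K := by
  have : CompactSpace K := isCompact_iff_compactSpace.1 hK
  refine Metric.mem_closure_iff.2 fun ε hε => ?_
  obtain ⟨f, hf, hz⟩ := h (ε / 2) (by positivity)
  refine ⟨hf.res, ?_, ?_⟩
  · obtain ⟨p, q, h1, h2⟩ := id hf
    exact ⟨p, q, h1, fun z => h2 z (h1 z z.2)⟩
  · refine lt_of_le_of_lt ((ContinuousMap.dist_le (by positivity : 0 ≤ ε / 2)).2 fun z => ?_)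
      (by linarith)
    rw [dist_eq_norm]; exact hz z

/-- derivative at `y` is bounded by `M` on the unit ball -/
def DerBd (K : Set ℂ) (M : ℝ) (y : ℂ) : Prop :=
  ∀ f, IsRat K f → (∀ z ∈ K, ‖f z‖ ≤ 1) → ‖deriv f y‖ ≤ M

/-- a point derivation acts on rational functions as a multiple of the derivative -/
theorem bpd_rat {x : K} {D : C(K, ℂ) → ℂ} (hD : IsBPD K x D) {f : ℂ → ℂ} (hf : IsRat K f) :
    D hf.res = deriv f x * D (isRat_id (K := K)).res := by
  obtain ⟨hadd, hsmul, hmul, -⟩ := hD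
  obtain ⟨g, hg, hfg⟩ := hf.divq x.2
  have h1 : (isRat_const (K := K) 1).res ∈ RX K := IsRat.res_mem _
  have D1 : D (isRat_const (K := K) 1).res = 0 := by
    have := hmul _ h1 _ h1
    have e : (isRat_const (K := K) 1).res * (isRat_const (K := K) 1).res =
        (isRat_const (K := K) 1).res := by ext z; simp
    rw [e] at this
    simp only [IsRat.res_apply, one_mul] at this
    linear_combination -this
  have Dc : ∀ c : ℂ, D (isRat_const (K := K) c).res = 0 := by
    intro c
    have e : (isRat_const (K := K) c).res = c • (isRat_const (K := K) 1).res := by ext z; simp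
    rw [e, hsmul c _ h1, D1, mul_zero]
  have hsub : IsRat K (fun z => z + (-(x : ℂ))) := isRat_id.add (isRat_const _)
  have Dsub : D hsub.res = D (isRat_id (K := K)).res := by
    have e : hsub.res = (isRat_id (K := K)).res + (isRat_const (K := K) (-(x : ℂ))).res := by
      ext z; simp
    rw [e, hadd _ (IsRat.res_mem _) _ (IsRat.res_mem _), Dc, add_zero]
  have e : hf.res = (isRat_const (K := K) (f x)).res + (hsub.mul hg).res := by
    ext z
    have := (hfg z z.2).self_of_nhds
    simp only [IsRat.res_apply, ContinuousMap.add_apply]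
    rw [this]; ring
  have e2 : (hsub.mul hg).res = hsub.res * hg.res := by ext z; simp
  rw [e, hadd _ (IsRat.res_mem _) _ (IsRat.res_mem _), Dc, zero_add, e2,
    hmul _ (IsRat.res_mem _) _ (IsRat.res_mem _), Dsub]
  simp only [IsRat.res_apply, add_neg_cancel, zero_mul, zero_add]
  congr 1
  have h3 : f =ᶠ[𝓝 (x : ℂ)] fun z => f x + (z - x) * g z := hfg x x.2
  rw [h3.deriv_eq]
  have hd : HasDerivAt (fun z => f x + (z - x) * g z)
      (1 * g x + ((x : ℂ) - x) * deriv g x) x := by
    have := ((hasDerivAt_id (x : ℂ)).sub_const (x : ℂ)).mul (hg.differentiableAt x.2).hasDerivAt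
    exact this.const_add _
  rw [hd.deriv]; simp

/-- no bounded point derivation at a point where derivatives are unbounded -/
theorem bpd_zero (hK : IsCompact K) {x : K} (hx : ∀ M, ¬ DerBd K M x)
    {D : C(K, ℂ) → ℂ} (hD : IsBPD K x D) : ∀ F ∈ RX K, D F = 0 := by
  have h0 : D (isRat_id (K := K)).res = 0 := by
    by_contra hne
    obtain ⟨C, hC⟩ := hD.2.2.2
    apply hx (C / ‖D (isRat_id (K := K)).res‖)
    intro f hf hb
    have h1 := hC _ hf.res_mem 1 (fun z => hb z z.2)
    rw [bpd_rat hD hf, norm_mul, mul_one] at h1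
    rw [le_div_iff₀ (norm_pos_iff.2 hne)]
    exact h1
  intro F hF
  obtain ⟨hadd, hsmul, -, C, hC⟩ := id hD
  have key : ∀ ε > 0, ‖D F‖ ≤ C * ε := by
    intro ε hε
    obtain ⟨f, hf, hz⟩ := RX_approx hK hF hε
    have hmem : F + (-1 : ℂ) • hf.res ∈ RX K := by
      refine RX_of_approx hK fun η hη => ?_
      obtain ⟨g, hg, hgz⟩ := RX_approx hK hF hη
      refine ⟨fun z => g z + (-1) * f z, hg.add (hf.const_mul _), fun z => ?_⟩
      have := (hgz z).le
      simpa using this
    have hm2 : (-1 : ℂ) • hf.res ∈ RX K := by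
      have e : (-1 : ℂ) • hf.res = (hf.const_mul (-1)).res := by ext z; simp
      rw [e]; exact IsRat.res_mem _
    have h1 := hC _ hmem ε (fun z => by
      have := (hz z).le
      simpa [sub_eq_add_neg] using this)
    rw [hadd _ hF _ hm2, hsmul _ _ hf.res_mem, bpd_rat hD hf, h0] at h1
    simpa using h1
  have : ‖D F‖ ≤ 0 := by
    refine le_of_forall_pos_le_add fun ε hε => ?_
    have h1 := key (ε / (|C| + 1)) (by positivity)
    have h2 : C * (ε / (|C| + 1)) ≤ ε := by
      rw [mul_div_assoc', div_le_iff₀ (by positivity)]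
      nlinarith [le_abs_self C]
    linarith
  exact norm_le_zero_iff.1 this

end Pool.Agent.H479Z
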