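import Pool.Agent.H479Z.Lat

set_option autoImplicit false
open Set Filter Topology Metric MeasureTheory

namespace Pool.Agent.H479Z

theorem rad_le_one {c : ℂ} {ρ : ℝ} (hρ : 0 < ρ) (h : closedBall c ρ ⊆ ball (0 : ℂ) 1) : ρ ≤ 1 := by
  have h1 : c + ρ ∈ closedBall c ρ := by simp [abs_of_pos hρ]
  have h2 : c - ρ ∈ closedBall c ρ := by simp [abs_of_pos hρ]
  have a := mem_ball_zero_iff.1 (h h1)
  have b := mem_ball_zero_iff.1 (h h2)
  have c1 := norm_sub_le (c + ρ) (c - ρ)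
  have e : c + ρ - (c - ρ) = ((2 * ρ : ℝ) : ℂ) := by push_cast; ring
  rw [e, Complex.norm_real, Real.norm_eq_abs, abs_of_pos (by positivity)] at c1
  linarith

theorem test_fun {Y : Set ℂ} {T : Finset (ℤ × ℤ)} {p : ℤ × ℤ → ℂ} (hp : ∀ Q ∈ T, p Q ∉ Y)
    {x : ℂ} (hx : x ∈ Y) {t : ℝ} (ht : 0 ≤ t) :
    ∃ f, IsRat Y f ∧ (∀ z, ‖f z‖ ≤ t * ∑ Q ∈ T, ‖z - p Q‖⁻¹) ∧
      ‖deriv f x‖ = t * ∑ Q ∈ T, (‖x - p Q‖ ^ 2)⁻¹ := by
  set e : ℤ × ℤ → ℂ := fun Q => -(t : ℂ) * (x - p Q) ^ 2 / ((‖x - p Q‖ ^ 2 : ℝ) : ℂ) with he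
  have hne : ∀ Q ∈ T, x - p Q ≠ 0 := fun Q hQ h => hp Q hQ (sub_eq_zero.1 h ▸ hx)
  refine ⟨fun z => ∑ Q ∈ T, e Q * (z - p Q)⁻¹,
    isRat_sum T _ fun Q hQ => (isRat_inv_sub (hp Q hQ)).const_mul _, fun z => ?_, ?_⟩
  · rw [Finset.mul_sum]
    refine norm_sum_le_of_le _ fun Q hQ => le_of_eq ?_
    have h1 : 0 < ‖x - p Q‖ := norm_pos_iff.2 (hne Q hQ)
    simp only [he]
    rw [norm_mul, norm_inv, norm_div, norm_mul, norm_neg, norm_pow, Complex.norm_real,
      Complex.norm_real, Real.norm_eq_abs, Real.norm_eq_abs, abs_of_nonneg ht,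
      abs_of_pos (by positivity), mul_div_assoc, div_self (by positivity), mul_one]
  · have hd : HasDerivAt (fun z => ∑ Q ∈ T, e Q * (z - p Q)⁻¹)
        (∑ Q ∈ T, e Q * (-1 / (x - p Q) ^ 2)) x :=
      HasDerivAt.fun_sum fun Q hQ => (((hasDerivAt_id x).sub_const (p Q)).inv (hne Q hQ)).const_mul _
    rw [hd.deriv]
    have : ∑ Q ∈ T, e Q * (-1 / (x - p Q) ^ 2) =
        ((t * ∑ Q ∈ T, (‖x - p Q‖ ^ 2)⁻¹ : ℝ) : ℂ) := by
      rw [Finset.mul_sum, Complex.ofReal_sum]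
      refine Finset.sum_congr rfl fun Q hQ => ?_
      have h1 := hne Q hQ
      have h2 : ((‖x - p Q‖ ^ 2 : ℝ) : ℂ) ≠ 0 :=
        Complex.ofReal_ne_zero.2 (pow_ne_zero _ (norm_ne_zero_iff.2 h1))
      simp only [he]
      rw [Complex.ofReal_mul, Complex.ofReal_inv]
      generalize ((‖x - p Q‖ ^ 2 : ℝ) : ℂ) = w at h2
      field_simp
    rw [this, Complex.norm_real, Real.norm_eq_abs, abs_of_nonneg (by positivity)]

theorem step (H : Finset (ℂ × ℝ)) (hH : Cl 0 1 H Prod.fst Prod.snd) {β τ : ℝ} (hβ : 0 < β)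
    (hτ : 0 < τ) (M : ℝ) :
    ∃ (H' : Finset (ℂ × ℝ)) (Bad : Set ℂ), H ⊆ H' ∧ Cl 0 1 H' Prod.fst Prod.snd ∧
      volume Bad ≤ ENNReal.ofReal τ ∧
      (∀ z ∈ closedBall (0 : ℂ) 1, z ∉ Bad → ∀ S : Finset (ℂ × ℝ), S ⊆ H' → Disjoint S H →
        (∀ h ∈ S, z ∉ closedBall h.1 h.2) ∧ ∑ h ∈ S, h.2 / (‖z - h.1‖ - h.2) ≤ β) ∧
      ∑ h ∈ H', h.2 ≤ ∑ h ∈ H, h.2 + τ ∧
      ∀ x ∈ Xs 0 1 H' Prod.fst Prod.snd, ∃ f, IsRat (Xs 0 1 H' Prod.fst Prod.snd) f ∧
        (∀ z ∈ Xs 0 1 H' Prod.fst Prod.snd, ‖f z‖ ≤ 1) ∧ M < ‖deriv f x‖ := by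
  classical
  set G : Finset (ℂ × ℝ) := insert (0, 1) H with hG
  have hG1 : ∀ h ∈ G, 0 < h.2 ∧ h.2 ≤ 1 := by
    intro h hh
    rcases Finset.mem_insert.1 hh with rfl | hh
    · simp
    · exact ⟨hH.pos h hh, rad_le_one (hH.pos h hh) (hH.sub h hh)⟩
  set b := min (1 / 2) (β / 36) with hb
  have hb0 : 0 < b := by positivity
  have hb1 : b ≤ 1 / 2 := min_le_left _ _
  have hb2 : b ≤ β / 36 := min_le_right _ _
  set a := min (min b (β / 576)) (min (min (1 / 144) (τ / 49)) (1 / (64 * (G.card + 1)))) with ha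
  have ha0 : 0 < a := by positivity
  have ha1 : a ≤ b := (min_le_left _ _).trans (min_le_left _ _)
  have ha2 : a ≤ β / 576 := (min_le_left _ _).trans (min_le_right _ _)
  have ha3 : a ≤ 1 / 144 := (min_le_right _ _).trans ((min_le_left _ _).trans (min_le_left _ _))
  have ha4 : a ≤ τ / 49 := (min_le_right _ _).trans ((min_le_left _ _).trans (min_le_right _ _))
  have ha5 : 64 * G.card * a < 1 := by
    have : a ≤ 1 / (64 * (G.card + 1)) := (min_le_right _ _).trans (min_le_right _ _)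
    rw [le_div_iff₀ (by positivity)] at this
    nlinarith
  obtain ⟨K, hK, hK2, hK3⟩ : ∃ K : ℕ, 0 < K ∧ 49 * Real.pi / τ ≤ K ∧
      40 * M / a < ∑ k ∈ Finset.range K, 1 / ((k : ℝ) + 1) := by
    have e1 := Real.tendsto_sum_range_one_div_nat_succ_atTop.eventually_gt_atTop (40 * M / a)
    have e2 := (tendsto_natCast_atTop_atTop (R := ℝ)).eventually_ge_atTop (49 * Real.pi / τ)
    obtain ⟨K, h1, h2, h3⟩ := ((eventually_gt_atTop 0).and (e2.and e1)).exists
    exact ⟨K, h1, h2, h3⟩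
  have hK' : (0 : ℝ) < K := Nat.cast_pos.2 hK
  have hK1 : (1 : ℝ) ≤ K := by exact_mod_cast hK
  obtain ⟨p, hp1, hp2⟩ := exists_centres hK G hG1 ha0 (by linarith) ha5
  set r := a / (K : ℝ) ^ 2 with hr
  have hr0 : 0 < r := by positivity
  have hrK : r * (K : ℝ) ^ 2 = a := by rw [hr]; field_simp
  have hcard : ((box (3 * K)).card : ℝ) ≤ 49 * (K : ℝ) ^ 2 := by
    rw [card_box]; push_cast; nlinarith
  have hsep : ∀ Q Q', Q ≠ Q' → 2 * r < ‖p Q - p Q'‖ := by
    intro Q Q' h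
    refine lt_of_lt_of_le ?_ (lat_sep hK hp1 h)
    rw [lt_div_iff₀ (by positivity)]
    have : r * K ≤ r * (K : ℝ) ^ 2 := by gcongr; nlinarith
    nlinarith
  set T0 := (box (3 * K)).filter fun Q => p Q ∈ Om 0 1 H Prod.fst Prod.snd with hT0
  set N := T0.image fun Q => (p Q, r) with hN
  have hinj : Set.InjOn (fun Q => (p Q, r)) T0 := by
    intro Q _ Q' _ h
    by_contra hne
    have h1 := hsep Q Q' hne
    have h2 : p Q = p Q' := congrArg Prod.fst h
    rw [h2, sub_self, norm_zero] at h1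
    linarith
  have hin : ∀ Q ∈ T0, closedBall (p Q) r ⊆ Om 0 1 H Prod.fst Prod.snd := by
    intro Q hQ z hz
    have h0 := mem_Om.1 (Finset.mem_filter.1 hQ).2
    rw [mem_closedBall, dist_eq_norm] at hz
    refine mem_Om.2 ⟨?_, fun h hh hzh => ?_⟩
    · have h1 := hp2 Q (0, 1) (Finset.mem_insert_self _ _)
      have h2 := mem_ball_zero_iff.1 h0.1
      simp only [sub_zero] at h1
      rw [abs_of_neg (by linarith)] at h1
      have h3 := norm_sub_norm_le z (p Q)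
      rw [mem_ball_zero_iff]; linarith
    · have h1 := hp2 Q h (Finset.mem_insert_of_mem hh)
      have h2 := h0.2 h hh
      rw [mem_closedBall, dist_eq_norm, not_le] at h2
      rw [abs_of_pos (by linarith)] at h1
      rw [mem_closedBall, dist_eq_norm] at hzh
      have h3 := norm_sub_le_norm_sub_add_norm_sub (p Q) z h.1
      rw [norm_sub_rev (p Q) z] at h3
      linarith
  have hCl : Cl 0 1 (H ∪ N) Prod.fst Prod.snd := by
    have hHN : ∀ i ∈ H, ∀ Q ∈ T0, Disjoint (closedBall i.1 i.2) (closedBall (p Q) r) :=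
      fun i hi Q hQ => Set.disjoint_left.2 fun z hz hz' => (mem_Om.1 (hin Q hQ hz')).2 i hi hz
    refine ⟨one_pos, fun i hi => ?_, fun i hi => ?_, fun i hi j hj hij => ?_⟩
    · rcases Finset.mem_union.1 hi with hi | hi
      · exact hH.pos i hi
      · obtain ⟨Q, -, rfl⟩ := Finset.mem_image.1 hi
        exact hr0
    · rcases Finset.mem_union.1 hi with hi | hi
      · exact hH.sub i hi
      · obtain ⟨Q, hQ, rfl⟩ := Finset.mem_image.1 hi
        exact fun z hz => (mem_Om.1 (hin Q hQ hz)).1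
    · rcases Finset.mem_union.1 hi with hi | hi <;> rcases Finset.mem_union.1 hj with hj | hj
      · exact hH.disj i hi j hj hij
      · obtain ⟨Q, hQ, rfl⟩ := Finset.mem_image.1 hj
        exact hHN i hi Q hQ
      · obtain ⟨Q, hQ, rfl⟩ := Finset.mem_image.1 hi
        exact (hHN j hj Q hQ).symm
      · obtain ⟨Q, hQ, rfl⟩ := Finset.mem_image.1 hi
        obtain ⟨Q', hQ', rfl⟩ := Finset.mem_image.1 hj
        have hne : Q ≠ Q' := fun h => hij (by rw [h])
        refine closedBall_disjoint_closedBall ?_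
        rw [dist_eq_norm]
        have := hsep Q Q' hne
        simp only
        linarith
  have hfar : ∀ Q ∈ box (3 * K), ∀ z ∈ Xs 0 1 (H ∪ N) Prod.fst Prod.snd, r ≤ ‖z - p Q‖ := by
    intro Q hQ z hz
    obtain ⟨hz1, hz2⟩ := mem_Xs.1 hz
    by_cases h0 : p Q ∈ Om 0 1 H Prod.fst Prod.snd
    · have := hz2 (p Q, r) (Finset.mem_union_right _
        (Finset.mem_image_of_mem _ (Finset.mem_filter.2 ⟨hQ, h0⟩)))
      rwa [mem_ball, dist_eq_norm, not_lt] at this
    · rw [mem_Om, not_and_or] at h0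
      rcases h0 with h0 | h0
      · have h1 := hp2 Q (0, 1) (Finset.mem_insert_self _ _)
        rw [mem_ball_zero_iff, not_lt] at h0
        simp only [sub_zero] at h1
        rw [abs_of_nonneg (by linarith)] at h1
        have h3 := norm_sub_norm_le (p Q) z
        rw [norm_sub_rev] at h3
        rw [mem_closedBall_zero_iff] at hz1
        linarith
      · push Not at h0
        obtain ⟨h, hh, h0⟩ := h0
        have h1 := hp2 Q h (Finset.mem_insert_of_mem hh)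
        rw [mem_closedBall, dist_eq_norm] at h0
        rw [abs_of_nonpos (by linarith)] at h1
        have h2 := hz2 h (Finset.mem_union_left _ hh)
        rw [mem_ball, dist_eq_norm, not_lt] at h2
        have h3 := norm_sub_le_norm_sub_add_norm_sub z (p Q) h.1
        linarith
  refine ⟨H ∪ N, ⋃ Q ∈ box (3 * K), ball (p Q) (r / b), Finset.subset_union_left, hCl, ?_, ?_, ?_, ?_⟩
  · refine (measure_biUnion_finset_le _ _).trans ?_
    simp only [vol_ball _ (by positivity : 0 ≤ r / b)]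
    rw [Finset.sum_const, nsmul_eq_mul, ← ENNReal.ofReal_natCast,
      ← ENNReal.ofReal_mul (by positivity)]
    apply ENNReal.ofReal_le_ofReal
    have h1 : r / b ≤ 1 / (K : ℝ) ^ 2 := by
      rw [div_le_div_iff₀ hb0 (by positivity)]; linarith
    have hpi := Real.pi_pos
    calc ((box (3 * K)).card : ℝ) * ((r / b) ^ 2 * Real.pi)
        ≤ (49 * (K : ℝ) ^ 2) * ((1 / (K : ℝ) ^ 2) ^ 2 * Real.pi) := by gcongr
      _ = 49 * Real.pi / (K : ℝ) ^ 2 := by field_simp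
      _ ≤ 49 * Real.pi / K := by gcongr; nlinarith
      _ ≤ τ := by
        rw [div_le_iff₀ hτ] at hK2
        rw [div_le_iff₀ hK']; linarith
  · intro z hz hzB S hS hSH
    have hSN : S ⊆ N := by
      intro h hh
      rcases Finset.mem_union.1 (hS hh) with h1 | h1
      · exact absurd h1 (Finset.disjoint_left.1 hSH hh)
      · exact h1
    have hl : ∀ Q ∈ box (3 * K), r / b ≤ ‖z - p Q‖ := by
      intro Q hQ
      by_contra hlt
      exact hzB (mem_biUnion hQ (by rw [mem_ball, dist_eq_norm]; exact not_le.1 hlt))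
    have h2r : 2 * r ≤ r / b := by rw [le_div_iff₀ hb0]; nlinarith
    have hl' : ∀ h ∈ N, h.2 = r ∧ 2 * r ≤ ‖z - h.1‖ := by
      intro h hh
      obtain ⟨Q, hQ, rfl⟩ := Finset.mem_image.1 hh
      exact ⟨rfl, h2r.trans (hl Q (Finset.mem_filter.1 hQ).1)⟩
    refine ⟨fun h hh hzh => ?_, ?_⟩
    · obtain ⟨h1, h2⟩ := hl' h (hSN hh)
      rw [mem_closedBall, dist_eq_norm, h1] at hzh
      linarith
    · calc ∑ h ∈ S, h.2 / (‖z - h.1‖ - h.2) ≤ ∑ h ∈ S, 2 * r * ‖z - h.1‖⁻¹ := by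
            refine Finset.sum_le_sum fun h hh => ?_
            obtain ⟨h1, h2⟩ := hl' h (hSN hh)
            rw [h1, ← div_eq_mul_inv, div_le_div_iff₀ (by linarith) (by linarith)]
            nlinarith
        _ ≤ ∑ h ∈ N, 2 * r * ‖z - h.1‖⁻¹ :=
            Finset.sum_le_sum_of_subset_of_nonneg hSN fun _ _ _ => by positivity
        _ = 2 * r * ∑ Q ∈ T0, ‖z - p Q‖⁻¹ := by rw [hN, Finset.sum_image hinj, Finset.mul_sum]
        _ ≤ 2 * r * (9 * (r / b)⁻¹ + 144 * (K : ℝ) ^ 2) := by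
            gcongr
            exact lat_upper hK hp1 (Finset.filter_subset _ _) hz (by positivity)
              fun Q hQ => hl Q (Finset.mem_filter.1 hQ).1
        _ = 18 * b + 288 * a := by rw [← hrK]; field_simp; ring
        _ ≤ β := by linarith
  · have h1 : ∑ h ∈ H ∪ N, h.2 ≤ ∑ h ∈ H, h.2 + ∑ h ∈ N, h.2 := by
      rw [← Finset.sum_union_inter]
      have : 0 ≤ ∑ h ∈ H ∩ N, h.2 :=
        Finset.sum_nonneg fun h hh => (hH.pos h (Finset.mem_inter.1 hh).1).le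
      linarith
    have h2 : ∑ h ∈ N, h.2 ≤ τ := by
      rw [hN, Finset.sum_image hinj]
      simp only [Finset.sum_const, nsmul_eq_mul]
      have h3 : (T0.card : ℝ) ≤ (box (3 * K)).card := by
        exact_mod_cast Finset.card_le_card (Finset.filter_subset _ _)
      calc (T0.card : ℝ) * r ≤ (49 * (K : ℝ) ^ 2) * r := by gcongr; exact h3.trans hcard
        _ = 49 * a := by rw [← hrK]; ring
        _ ≤ τ := by linarith
    linarith
  · intro x hx
    have hnot : ∀ Q ∈ box (3 * K), p Q ∉ Xs 0 1 (H ∪ N) Prod.fst Prod.snd := by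
      intro Q hQ h
      have := hfar Q hQ _ h
      rw [sub_self, norm_zero] at this
      linarith
    obtain ⟨T, hT, hlow⟩ := lat_lower hK hp1 (mem_Xs.1 hx).1
      fun Q hQ h => hnot Q hQ (h ▸ hx)
    obtain ⟨f, hf, hf1, hf2⟩ := test_fun (fun Q hQ => hnot Q (hT hQ)) hx (t := r / 10)
      (by positivity)
    refine ⟨f, hf, fun z hz => (hf1 z).trans ?_, ?_⟩
    · have := lat_upper hK hp1 hT (mem_Xs.1 hz).1 hr0 fun Q hQ => hfar Q (hT hQ) z hz
      calc r / 10 * ∑ Q ∈ T, ‖z - p Q‖⁻¹ ≤ r / 10 * (9 * r⁻¹ + 144 * (K : ℝ) ^ 2) := by gcongr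
        _ = (9 + 144 * a) / 10 := by rw [← hrK]; field_simp
        _ ≤ 1 := by linarith
    · rw [hf2]
      rw [div_lt_iff₀ ha0] at hK3
      calc M < a / 40 * ∑ k ∈ Finset.range K, 1 / ((k : ℝ) + 1) := by linarith
        _ = r / 10 * ((K : ℝ) ^ 2 / 4 * ∑ k ∈ Finset.range K, 1 / ((k : ℝ) + 1)) := by
          rw [← hrK]; ring
        _ ≤ _ := by gcongr

end Pool.Agent.H479Z
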