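import Mathlib

set_option autoImplicit false
open Set Filter Topology Metric MeasureTheory Complex
open scoped Convolution

namespace Pool.Agent.H479Z

/-- regularised Cauchy kernel -/
noncomputable def cE (ε : ℝ) (ζ : ℂ) : ℂ := (starRingEnd ℂ) ζ * (((‖ζ‖ ^ 2 + ε ^ 2 : ℝ) : ℂ))⁻¹

/-- regularised Beurling transform -/
noncomputable def SE (ε : ℝ) (k : ℂ → ℂ) (y : ℂ) : ℂ := ∫ z, k z * cE ε (y - z) ^ 2

variable {ε : ℝ}

theorem norm_cE (ε : ℝ) (ζ : ℂ) : ‖cE ε ζ‖ = ‖ζ‖ / (‖ζ‖ ^ 2 + ε ^ 2) := by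
  rw [cE, norm_mul, norm_inv, Complex.norm_real, Real.norm_eq_abs, abs_of_nonneg (by positivity),
    Complex.norm_conj, div_eq_mul_inv]

theorem norm_cE_le (hε : 0 < ε) (ζ : ℂ) : ‖cE ε ζ‖ ≤ 2 / (‖ζ‖ + ε) := by
  rw [norm_cE, div_le_div_iff₀ (by positivity) (by positivity)]
  nlinarith [norm_nonneg ζ, sq_nonneg (‖ζ‖ - ε)]

theorem norm_cE_le_inv (hε : 0 < ε) (ζ : ℂ) : ‖cE ε ζ‖ ≤ ‖ζ‖⁻¹ := by
  rcases eq_or_ne ζ 0 with rfl | h
  · simp [cE]
  · have := norm_pos_iff.2 h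
    rw [norm_cE, inv_eq_one_div, div_le_div_iff₀ (by positivity) this]
    nlinarith

theorem measurable_cE (ε : ℝ) : Measurable (cE ε) := by
  unfold cE
  exact Complex.continuous_conj.measurable.mul (by fun_prop)

theorem cE_lip (hε : 0 < ε) (ζ ξ : ℂ) :
    ‖cE ε ζ - cE ε ξ‖ ≤ 2 * ‖ζ - ξ‖ / ((‖ζ‖ + ε) * (‖ξ‖ + ε)) := by
  have h1 : (0 : ℝ) < ‖ζ‖ ^ 2 + ε ^ 2 := by positivity
  have h2 : (0 : ℝ) < ‖ξ‖ ^ 2 + ε ^ 2 := by positivity
  have e : cE ε ζ - cE ε ξ = ((starRingEnd ℂ) ζ * (starRingEnd ℂ) ξ * (ξ - ζ) +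
      ((ε ^ 2 : ℝ) : ℂ) * (starRingEnd ℂ) (ζ - ξ)) *
      ((((‖ζ‖ ^ 2 + ε ^ 2) * (‖ξ‖ ^ 2 + ε ^ 2) : ℝ) : ℂ))⁻¹ := by
    have a1 : ((‖ζ‖ ^ 2 + ε ^ 2 : ℝ) : ℂ) ≠ 0 := Complex.ofReal_ne_zero.2 h1.ne'
    have a2 : ((‖ξ‖ ^ 2 + ε ^ 2 : ℝ) : ℂ) ≠ 0 := Complex.ofReal_ne_zero.2 h2.ne'
    have b1 := Complex.mul_conj' ζ
    have b2 := Complex.mul_conj' ξ
    rw [cE, cE, Complex.ofReal_mul, map_sub]
    field_simp
    push_cast
    rw [← b1, ← b2]
    ring
  have h3 : ‖(starRingEnd ℂ) ζ * (starRingEnd ℂ) ξ * (ξ - ζ) +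
      ((ε ^ 2 : ℝ) : ℂ) * (starRingEnd ℂ) (ζ - ξ)‖ ≤ (‖ζ‖ * ‖ξ‖ + ε ^ 2) * ‖ζ - ξ‖ := by
    refine (norm_add_le _ _).trans (le_of_eq ?_)
    rw [norm_mul, norm_mul, norm_mul, Complex.norm_conj, Complex.norm_conj, Complex.norm_conj,
      Complex.norm_real, Real.norm_eq_abs, abs_of_nonneg (by positivity), norm_sub_rev ξ ζ]
    ring
  rw [e, norm_mul, norm_inv, Complex.norm_real, Real.norm_eq_abs, abs_of_nonneg (by positivity),
    ← div_eq_mul_inv]
  refine (div_le_div_of_nonneg_right h3 (by positivity)).trans ?_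
  rw [div_le_div_iff₀ (by positivity) (by positivity)]
  have a := norm_nonneg ζ
  have b := norm_nonneg ξ
  have d := norm_nonneg (ζ - ξ)
  set s := ‖ζ‖
  set t := ‖ξ‖
  have k1 : (s * t + ε ^ 2) ^ 2 ≤ (s ^ 2 + ε ^ 2) * (t ^ 2 + ε ^ 2) := by
    nlinarith [sq_nonneg (s * ε - t * ε)]
  have k2 : ((s + ε) * (t + ε)) ^ 2 ≤ 4 * ((s ^ 2 + ε ^ 2) * (t ^ 2 + ε ^ 2)) := by
    have m1 : (s + ε) ^ 2 ≤ 2 * (s ^ 2 + ε ^ 2) := by nlinarith [sq_nonneg (s - ε)]
    have m2 : (t + ε) ^ 2 ≤ 2 * (t ^ 2 + ε ^ 2) := by nlinarith [sq_nonneg (t - ε)]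
    calc ((s + ε) * (t + ε)) ^ 2 = (s + ε) ^ 2 * (t + ε) ^ 2 := by ring
      _ ≤ (2 * (s ^ 2 + ε ^ 2)) * (2 * (t ^ 2 + ε ^ 2)) := by gcongr
      _ = _ := by ring
  have k3 : (s * t + ε ^ 2) * ((s + ε) * (t + ε)) ≤ 2 * ((s ^ 2 + ε ^ 2) * (t ^ 2 + ε ^ 2)) := by
    rw [← sq_le_sq₀ (by positivity) (by positivity), mul_pow]
    calc _ ≤ ((s ^ 2 + ε ^ 2) * (t ^ 2 + ε ^ 2)) * (4 * ((s ^ 2 + ε ^ 2) * (t ^ 2 + ε ^ 2))) := by
          gcongr
      _ = _ := by ring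
  nlinarith [mul_le_mul_of_nonneg_left k3 d]

theorem cE_sq_lip (hε : 0 < ε) {ζ ξ : ℂ} {m : ℝ} (hm : 0 < m) (h1 : m ≤ ‖ζ‖ + ε)
    (h2 : m ≤ ‖ξ‖ + ε) : ‖cE ε ζ ^ 2 - cE ε ξ ^ 2‖ ≤ 8 * ‖ζ - ξ‖ / m ^ 3 := by
  have a1 : ‖cE ε ζ - cE ε ξ‖ ≤ 2 * ‖ζ - ξ‖ / (m * m) := (cE_lip hε ζ ξ).trans (by gcongr)
  have a2 : ‖cE ε ζ‖ ≤ 2 / m := (norm_cE_le hε ζ).trans (by gcongr)
  have a3 : ‖cE ε ξ‖ ≤ 2 / m := (norm_cE_le hε ξ).trans (by gcongr)
  have a4 : ‖cE ε ζ + cE ε ξ‖ ≤ 2 / m + 2 / m := (norm_add_le _ _).trans (add_le_add a2 a3)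
  rw [sq_sub_sq, norm_mul]
  calc _ ≤ (2 / m + 2 / m) * (2 * ‖ζ - ξ‖ / (m * m)) := by gcongr
    _ = _ := by field_simp; ring

theorem cE_tendsto {ζ : ℂ} (h : ζ ≠ 0) :
    Tendsto (fun n : ℕ => cE (1 / ((n : ℝ) + 1)) ζ) atTop (𝓝 ζ⁻¹) := by
  have h0 : Tendsto (fun n : ℕ => (1 / ((n : ℝ) + 1))) atTop (𝓝 0) :=
    tendsto_one_div_add_atTop_nhds_zero_nat
  have hp := norm_pos_iff.2 h
  have hc : ContinuousAt (fun e : ℝ => cE e ζ) 0 := by
    unfold cE
    refine continuousAt_const.mul (ContinuousAt.inv₀ (by fun_prop) ?_)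
    exact Complex.ofReal_ne_zero.2 (by positivity)
  have e : cE 0 ζ = ζ⁻¹ := by
    have b1 := Complex.mul_conj' ζ
    have a : (starRingEnd ℂ) ζ ≠ 0 := (map_ne_zero _).2 h
    rw [cE]
    push_cast
    rw [← b1]
    field_simp
    ring
  rw [← e]
  exact hc.tendsto.comp h0

theorem scale_int : ∃ I0 : ℝ, 0 ≤ I0 ∧ ∀ t > (0 : ℝ), ∀ a : ℂ,
    Integrable (fun z : ℂ => t / (‖a - z‖ + t) ^ 3) ∧ ∫ z : ℂ, t / (‖a - z‖ + t) ^ 3 = I0 := by
  have hI : Integrable (fun x : ℂ => (1 + ‖x‖) ^ (-(3 : ℝ))) :=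
    integrable_one_add_norm (by rw [Complex.finrank_real_complex]; norm_num)
  refine ⟨∫ x : ℂ, (1 + ‖x‖) ^ (-(3 : ℝ)), integral_nonneg fun x => by positivity, fun t ht a => ?_⟩
  have e : ∀ z : ℂ, t / (‖z‖ + t) ^ 3 = (t ^ 2)⁻¹ * (1 + ‖t⁻¹ • z‖) ^ (-(3 : ℝ)) := by
    intro z
    rw [Real.rpow_neg (by positivity), norm_smul, norm_inv, Real.norm_eq_abs, abs_of_pos ht]
    have : (1 + t⁻¹ * ‖z‖) ^ (3 : ℝ) = (1 + t⁻¹ * ‖z‖) ^ (3 : ℕ) := by
      rw [← Real.rpow_natCast]; norm_num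
    rw [this]
    have : 0 < ‖z‖ + t := by positivity
    field_simp
    ring
  have h1 : Integrable (fun z : ℂ => t / (‖z‖ + t) ^ 3) := by
    simp only [e]
    exact (hI.comp_smul (inv_ne_zero ht.ne')).const_mul _
  refine ⟨h1.comp_sub_left a, ?_⟩
  rw [integral_sub_left_eq_self (fun z : ℂ => t / (‖z‖ + t) ^ 3) volume a]
  simp only [e]
  rw [integral_const_mul, Measure.integral_comp_inv_smul volume
    (fun x : ℂ => (1 + ‖x‖) ^ (-(3 : ℝ))) t, Complex.finrank_real_complex, abs_of_pos (by positivity),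
    smul_eq_mul, ← mul_assoc, inv_mul_cancel₀ (by positivity), one_mul]

theorem contDiff_cE (hε : 0 < ε) : ContDiff ℝ 2 (cE ε) := by
  unfold cE
  refine Complex.conjCLE.contDiff.mul (ContDiff.inv ?_ fun ζ => Complex.ofReal_ne_zero.2 (by positivity))
  exact Complex.ofRealCLM.contDiff.comp ((contDiff_norm_sq ℝ).add contDiff_const)

theorem fderiv_cE (hε : 0 < ε) (ζ v : ℂ) : fderiv ℝ (cE ε) ζ v * ((‖ζ‖ ^ 2 + ε ^ 2 : ℝ) : ℂ) =
    (starRingEnd ℂ) v - cE ε ζ * (ζ * (starRingEnd ℂ) v + v * (starRingEnd ℂ) ζ) := by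
  have hd : HasFDerivAt (cE ε) (fderiv ℝ (cE ε) ζ) ζ :=
    ((contDiff_cE hε).differentiable (by norm_num) ζ).hasFDerivAt
  have hc : HasFDerivAt (fun z : ℂ => (starRingEnd ℂ) z) (Complex.conjCLE : ℂ →L[ℝ] ℂ) ζ :=
    Complex.conjCLE.hasFDerivAt
  have hN := ((hasFDerivAt_id ζ).mul hc).add_const ((ε : ℂ) ^ 2)
  have h1 := hd.mul hN
  have e : (cE ε * fun y : ℂ => ((id : ℂ → ℂ) * fun z : ℂ => (starRingEnd ℂ) z) y + (ε : ℂ) ^ 2) =
      fun z : ℂ => (starRingEnd ℂ) z := by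
    funext z
    have a1 : ((‖z‖ ^ 2 + ε ^ 2 : ℝ) : ℂ) ≠ 0 := Complex.ofReal_ne_zero.2 (by positivity)
    have b1 := Complex.mul_conj' z
    simp only [Pi.mul_apply, id, cE]
    rw [b1, mul_assoc]
    have : ((‖z‖ : ℂ) ^ 2 + (ε : ℂ) ^ 2) = ((‖z‖ ^ 2 + ε ^ 2 : ℝ) : ℂ) := by push_cast; ring
    rw [this, inv_mul_cancel₀ a1, mul_one]
  rw [e] at h1
  have h2 := congrArg (fun L : ℂ →L[ℝ] ℂ => L v) (h1.unique hc)
  simp only [ContinuousLinearMap.add_apply, ContinuousLinearMap.smul_apply, smul_eq_mul,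
    Pi.mul_apply, id, ContinuousLinearMap.id_apply, ContinuousLinearEquiv.coe_coe,
    Complex.conjCLE_apply] at h2
  have b1 := Complex.mul_conj' ζ
  push_cast
  rw [← b1]
  linear_combination h2

theorem cE_d (hε : 0 < ε) (ζ : ℂ) :
    fderiv ℝ (cE ε) ζ 1 - I * fderiv ℝ (cE ε) ζ I = -2 * cE ε ζ ^ 2 := by
  have a1 : ((‖ζ‖ ^ 2 + ε ^ 2 : ℝ) : ℂ) ≠ 0 := Complex.ofReal_ne_zero.2 (by positivity)
  have h1 := fderiv_cE hε ζ 1
  have h2 := fderiv_cE hε ζ I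
  have h3 : cE ε ζ * ((‖ζ‖ ^ 2 + ε ^ 2 : ℝ) : ℂ) = (starRingEnd ℂ) ζ := by
    rw [cE, mul_assoc, inv_mul_cancel₀ a1, mul_one]
  rw [map_one (starRingEnd ℂ)] at h1
  rw [Complex.conj_I] at h2
  apply mul_right_cancel₀ a1
  have hI := Complex.I_mul_I
  linear_combination h1 - I * h2 + 2 * cE ε ζ * h3 +
    (1 - cE ε ζ * ζ + cE ε ζ * (starRingEnd ℂ) ζ) * hI

theorem cE_dbar (hε : 0 < ε) (ζ : ℂ) :
    ‖fderiv ℝ (cE ε) ζ 1 + I * fderiv ℝ (cE ε) ζ I‖ ≤ 8 * (ε / (‖ζ‖ + ε) ^ 3) := by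
  have a0 : (0 : ℝ) < ‖ζ‖ ^ 2 + ε ^ 2 := by positivity
  have a1 : ((‖ζ‖ ^ 2 + ε ^ 2 : ℝ) : ℂ) ≠ 0 := Complex.ofReal_ne_zero.2 a0.ne'
  have h1 := fderiv_cE hε ζ 1
  have h2 := fderiv_cE hε ζ I
  have h3 : cE ε ζ * ((‖ζ‖ ^ 2 + ε ^ 2 : ℝ) : ℂ) = (starRingEnd ℂ) ζ := by
    rw [cE, mul_assoc, inv_mul_cancel₀ a1, mul_one]
  rw [map_one (starRingEnd ℂ)] at h1
  rw [Complex.conj_I] at h2
  have hI := Complex.I_mul_I
  have b1 := Complex.mul_conj' ζ
  have e : (fderiv ℝ (cE ε) ζ 1 + I * fderiv ℝ (cE ε) ζ I) * ((‖ζ‖ ^ 2 + ε ^ 2 : ℝ) : ℂ) ^ 2 =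
      ((2 * ε ^ 2 : ℝ) : ℂ) := by
    have b2 : ((‖ζ‖ ^ 2 + ε ^ 2 : ℝ) : ℂ) = (‖ζ‖ : ℂ) ^ 2 + (ε : ℂ) ^ 2 := by push_cast; ring
    have b3 : ((2 * ε ^ 2 : ℝ) : ℂ) = 2 * (ε : ℂ) ^ 2 := by push_cast; ring
    rw [b3]
    set N := ((‖ζ‖ ^ 2 + ε ^ 2 : ℝ) : ℂ)
    linear_combination N * h1 + N * I * h2 - 2 * ζ * h3 - 2 * b1 + 2 * b2 +
      N * (-1 + cE ε ζ * ζ - cE ε ζ * (starRingEnd ℂ) ζ) * hI
  have e2 := congrArg norm e
  rw [norm_mul, norm_pow, Complex.norm_real, Complex.norm_real, Real.norm_eq_abs, Real.norm_eq_abs,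
    abs_of_pos a0, abs_of_nonneg (by positivity)] at e2
  rw [← eq_div_iff (by positivity)] at e2
  rw [e2, ← mul_div_assoc, div_le_div_iff₀ (by positivity) (by positivity)]
  have a := norm_nonneg ζ
  have m1 : (‖ζ‖ + ε) ^ 2 ≤ 2 * (‖ζ‖ ^ 2 + ε ^ 2) := by nlinarith [sq_nonneg (‖ζ‖ - ε)]
  have m2 : ((‖ζ‖ + ε) ^ 2) ^ 2 ≤ (2 * (‖ζ‖ ^ 2 + ε ^ 2)) ^ 2 := by gcongr
  have m3 : ε * (‖ζ‖ + ε) ^ 3 ≤ (‖ζ‖ + ε) * (‖ζ‖ + ε) ^ 3 := by gcongr; linarith
  nlinarith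

/-- the two Wirtinger derivatives have the same square integral -/
theorem wirt_eq {u : ℂ → ℂ} (hu : ContDiff ℝ 2 u) (hc : HasCompactSupport u) :
    ∫ y, ‖fderiv ℝ u y 1 - I * fderiv ℝ u y I‖ ^ 2 =
      ∫ y, ‖fderiv ℝ u y 1 + I * fderiv ℝ u y I‖ ^ 2 := by
  have hD : ContDiff ℝ 1 (fderiv ℝ u) := hu.fderiv_right (by norm_num)
  have hd : ∀ v, ContDiff ℝ 1 (fun y => fderiv ℝ u y v) := fun v => hD.clm_apply contDiff_const
  have hs : ∀ v, HasCompactSupport (fun y => fderiv ℝ u y v) := fun v => hc.fderiv_apply ℝ v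
  set b : ℂ → ℂ → ℂ := fun v y => (starRingEnd ℂ) (fderiv ℝ u y v) with hb
  have hbd : ∀ v, ContDiff ℝ 1 (b v) := fun v => Complex.conjCLE.contDiff.comp (hd v)
  have hbf : ∀ v w y, fderiv ℝ (b v) y w = (starRingEnd ℂ) (fderiv ℝ (fderiv ℝ u) y w v) := by
    intro v w y
    have h1 : HasFDerivAt (fun y => fderiv ℝ u y v)
        ((ContinuousLinearMap.apply ℝ ℂ v).comp (fderiv ℝ (fderiv ℝ u) y)) y :=
      (ContinuousLinearMap.apply ℝ ℂ v).hasFDerivAt.comp y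
        (hD.differentiable (by norm_num) y).hasFDerivAt
    have h2 := (Complex.conjCLE.hasFDerivAt.comp y h1).fderiv
    have h3 : b v = Complex.conjCLE ∘ fun y => fderiv ℝ u y v := rfl
    rw [h3, h2]
    rfl
  have key : ∀ v w, ∫ y, u y * fderiv ℝ (b v) y w = -∫ y, fderiv ℝ u y w * b v y := by
    intro v w
    refine integral_mul_fderiv_eq_neg_fderiv_mul_of_integrable ?_ ?_ ?_
      (fun x _ => hu.differentiable (by norm_num) x) (fun x _ => (hbd v).differentiable (by norm_num) x)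
    · exact ((hd w).continuous.mul (hbd v).continuous).integrable_of_hasCompactSupport
        (hs w).mul_right
    · exact (hu.continuous.mul (((hbd v).continuous_fderiv (by norm_num)).clm_apply
        continuous_const)).integrable_of_hasCompactSupport hc.mul_right
    · exact (hu.continuous.mul (hbd v).continuous).integrable_of_hasCompactSupport hc.mul_right
  have hsym : ∫ y, fderiv ℝ u y 1 * b I y = ∫ y, fderiv ℝ u y I * b 1 y := by
    have h1 := key I 1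
    have h2 := key 1 I
    have h3 : ∀ y, fderiv ℝ (b I) y 1 = fderiv ℝ (b 1) y I := by
      intro y
      rw [hbf, hbf, (hu.contDiffAt (x := y)).isSymmSndFDerivAt (by simp) 1 I]
    simp only [h3] at h1
    rw [h1] at h2
    exact neg_injective h2
  have i1 : Integrable (fun y => fderiv ℝ u y 1 * b I y) :=
    ((hd 1).continuous.mul (hbd I).continuous).integrable_of_hasCompactSupport (hs 1).mul_right
  have i2 : Integrable (fun y => fderiv ℝ u y I * b 1 y) :=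
    ((hd I).continuous.mul (hbd 1).continuous).integrable_of_hasCompactSupport (hs I).mul_right
  have i3 : Integrable (fun y => ‖fderiv ℝ u y 1 - I * fderiv ℝ u y I‖ ^ 2) := by
    refine Continuous.integrable_of_hasCompactSupport
      (((hd 1).continuous.sub (continuous_const.mul (hd I).continuous)).norm.pow 2) ?_
    refine (hc.fderiv ℝ).mono fun y hy h0 => hy ?_
    simp [h0]
  have i4 : Integrable (fun y => (fderiv ℝ u y 1 * b I y - fderiv ℝ u y I * b 1 y).im) :=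
    (i1.sub i2).im
  have e : ∀ y, ‖fderiv ℝ u y 1 + I * fderiv ℝ u y I‖ ^ 2 =
      ‖fderiv ℝ u y 1 - I * fderiv ℝ u y I‖ ^ 2 +
        2 * (fderiv ℝ u y 1 * b I y - fderiv ℝ u y I * b 1 y).im := by
    intro y
    simp only [hb, Complex.sq_norm, Complex.normSq_apply]
    simp
    ring
  simp only [e]
  rw [integral_add i3 (i4.const_mul 2), integral_const_mul]
  have h4 := Complex.imCLM.integral_comp_comm (i1.sub i2)
  have h5 : ∫ y, (fderiv ℝ u y 1 * b I y - fderiv ℝ u y I * b 1 y) = 0 := by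
    rw [integral_sub i1 i2, hsym, sub_self]
  simp only [Complex.imCLM_apply, Pi.sub_apply] at h4
  rw [h4, h5]
  simp

theorem measurable_SE (ε : ℝ) {k : ℂ → ℂ} (hk : Measurable k) : Measurable (SE ε k) := by
  have h : Measurable (fun p : ℂ × ℂ => k p.2 * cE ε (p.1 - p.2) ^ 2) :=
    (hk.comp measurable_snd).mul (((measurable_cE ε).comp (measurable_fst.sub measurable_snd)).pow_const 2)
  exact (h.stronglyMeasurable.integral_prod_right' (ν := volume)).measurable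

theorem int_of_bd {k : ℂ → ℂ} (hk : Measurable k) {B R : ℝ} (h1 : ∀ z, ‖k z‖ ≤ B)
    (h2 : ∀ z ∉ closedBall (0 : ℂ) R, k z = 0) : Integrable k := by
  refine Integrable.mono' (g := (closedBall (0 : ℂ) R).indicator fun _ => B)
    ((integrable_indicator_iff measurableSet_closedBall).2
      (integrableOn_const measure_closedBall_lt_top.ne)) hk.aestronglyMeasurable
    (Eventually.of_forall fun z => ?_)
  by_cases hz : z ∈ closedBall (0 : ℂ) R
  · rw [indicator_of_mem hz]; exact h1 z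
  · rw [indicator_of_notMem hz, h2 z hz, norm_zero]

/-- uniform bound of the regularised Beurling transform of bounded functions -/
theorem beurling_bd {R : ℝ} (hR : 1 ≤ R) : ∃ C : ℝ, ∀ ε > (0 : ℝ), ∀ k : ℂ → ℂ, Measurable k →
    (∀ z, ‖k z‖ ≤ 1) → (∀ z ∉ closedBall (0 : ℂ) R, k z = 0) →
    ∫⁻ y in closedBall (0 : ℂ) (3 * R), ‖SE ε k y‖ₑ ≤ ENNReal.ofReal C := by
  obtain ⟨I0, hI0, hI⟩ := scale_int
  let χ : ContDiffBump (0 : ℂ) := ⟨5 * R, 6 * R, by linarith, by linarith⟩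
  set χc : ℂ → ℂ := fun z => (χ z : ℂ) with hχc
  have hχd : ContDiff ℝ 2 χc := Complex.ofRealCLM.contDiff.comp χ.contDiff
  have hχs : HasCompactSupport χc := χ.hasCompactSupport.comp_left (g := fun x : ℝ => (x : ℂ)) (by simp)
  have hGI : Integrable (fun z => ‖fderiv ℝ χc z‖) :=
    ((hχd.continuous_fderiv (by norm_num)).integrable_of_hasCompactSupport (hχs.fderiv ℝ)).norm
  set C1 := 8 * I0 + 2 * ∫ z, ‖fderiv ℝ χc z‖ with hC1
  refine ⟨(volume (closedBall (0 : ℂ) (3 * R))).toReal +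
    C1 ^ 2 * (volume (closedBall (0 : ℂ) (7 * R))).toReal, fun ε hε k hk hk1 hk0 => ?_⟩
  have hkI := int_of_bd hk hk1 hk0
  have hks : HasCompactSupport k := HasCompactSupport.intro (isCompact_closedBall 0 R) hk0
  set c : ℂ → ℂ := fun z => χc z * cE ε z with hc
  have hcd : ContDiff ℝ 2 c := hχd.mul (contDiff_cE hε)
  have hcs : HasCompactSupport c := hχs.mul_right
  have hcf : ∀ z v, fderiv ℝ c z v = χc z * fderiv ℝ (cE ε) z v + cE ε z * fderiv ℝ χc z v := by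
    intro z v
    rw [hc, fderiv_fun_mul (hχd.differentiable (by norm_num) z)
      ((contDiff_cE hε).differentiable (by norm_num) z)]
    simp
  have hin : ∀ z : ℂ, ‖z‖ < 5 * R → χc z = 1 ∧ fderiv ℝ χc z = 0 := by
    intro z hz
    have h1 : χc =ᶠ[𝓝 z] fun _ => 1 := by
      filter_upwards [isOpen_ball.mem_nhds (mem_ball_zero_iff.2 hz)] with w hw
      simp only [hχc]
      rw [χ.one_of_mem_closedBall (ball_subset_closedBall hw)]
      simp
    exact ⟨h1.self_of_nhds, by rw [h1.fderiv_eq]; simp⟩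
  have hout : ∀ z : ℂ, 6 * R < ‖z‖ → χc z = 0 ∧ fderiv ℝ χc z = 0 := by
    intro z hz
    have h1 : χc =ᶠ[𝓝 z] fun _ => 0 := by
      filter_upwards [(isOpen_lt continuous_const continuous_norm).mem_nhds hz] with w hw
      simp only [hχc]
      rw [χ.zero_of_le_dist (by rw [dist_zero_right]; exact le_of_lt hw)]
      simp
    exact ⟨h1.self_of_nhds, by rw [h1.fderiv_eq]; simp⟩
  set u := k ⋆[ContinuousLinearMap.mul ℝ ℂ, volume] c with hu
  have hud : ContDiff ℝ 2 u := hcs.contDiff_convolution_right (n := 2) _ hkI.locallyIntegrable hcd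
  have hus : HasCompactSupport u := hks.convolution _ hcs
  have huf : ∀ y v, fderiv ℝ u y v = ∫ z, k z * fderiv ℝ c (y - z) v := by
    intro y v
    rw [hu, (hcs.hasFDerivAt_convolution_right _ hkI.locallyIntegrable (hcd.of_le (by norm_num)) y).fderiv,
      convolution_precompR_apply _ hkI.locallyIntegrable (hcs.fderiv ℝ)
        (hcd.continuous_fderiv (by norm_num)), convolution_def]
    rfl
  have hint : ∀ y v, Integrable (fun z => k z * fderiv ℝ c (y - z) v) := by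
    intro y v
    have h1 : Continuous (fun z => fderiv ℝ c z v) :=
      (hcd.continuous_fderiv (by norm_num)).clm_apply continuous_const
    obtain ⟨B, hB⟩ := h1.bounded_above_of_compact_support (hcs.fderiv_apply ℝ v)
    exact hkI.mul_bdd (h1.comp (continuous_const.sub continuous_id)).aestronglyMeasurable
      (Eventually.of_forall fun z => hB _)
  have hcomb : ∀ y (a : ℂ), fderiv ℝ u y 1 + a * fderiv ℝ u y I =
      ∫ z, k z * (fderiv ℝ c (y - z) 1 + a * fderiv ℝ c (y - z) I) := by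
    intro y a
    rw [huf, huf, ← integral_const_mul, ← integral_add (hint y 1) ((hint y I).const_mul a)]
    congr 1
    funext z
    ring
  have hd1 : ∀ y ∈ closedBall (0 : ℂ) (3 * R),
      fderiv ℝ u y 1 - I * fderiv ℝ u y I = -2 * SE ε k y := by
    intro y hy
    rw [sub_eq_add_neg, ← neg_mul, hcomb, SE, ← integral_const_mul]
    congr 1
    funext z
    by_cases hz : z ∈ closedBall (0 : ℂ) R
    · have h1 : ‖y - z‖ < 5 * R := by
        have := norm_sub_le y z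
        rw [mem_closedBall_zero_iff] at hy hz
        linarith
      obtain ⟨a1, a2⟩ := hin _ h1
      rw [hcf, hcf, a1, a2]
      have := cE_d hε (y - z)
      simp only [ContinuousLinearMap.zero_apply]
      linear_combination k z * this
    · rw [hk0 z hz]; simp
  have hg : ∀ ζ : ℂ, ‖fderiv ℝ c ζ 1 + I * fderiv ℝ c ζ I‖ ≤
      8 * (ε / (‖ζ‖ + ε) ^ 3) + 2 * ‖fderiv ℝ χc ζ‖ := by
    intro ζ
    have e : fderiv ℝ c ζ 1 + I * fderiv ℝ c ζ I =
        χc ζ * (fderiv ℝ (cE ε) ζ 1 + I * fderiv ℝ (cE ε) ζ I) +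
          cE ε ζ * (fderiv ℝ χc ζ 1 + I * fderiv ℝ χc ζ I) := by rw [hcf, hcf]; ring
    rw [e]
    refine (norm_add_le _ _).trans (add_le_add ?_ ?_)
    · rw [norm_mul]
      have : ‖χc ζ‖ ≤ 1 := by
        simp only [hχc]
        rw [Complex.norm_real, Real.norm_eq_abs, abs_of_nonneg χ.nonneg]
        exact χ.le_one
      calc _ ≤ 1 * (8 * (ε / (‖ζ‖ + ε) ^ 3)) := by
            gcongr
            exact cE_dbar hε ζ
        _ = _ := one_mul _
    · by_cases h5 : ‖ζ‖ < 5 * R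
      · rw [(hin ζ h5).2]; simp
      · have a1 : ‖cE ε ζ‖ ≤ 1 := (norm_cE_le_inv hε ζ).trans
          (inv_le_one_of_one_le₀ (by linarith [not_lt.1 h5]))
        have a2 : ‖fderiv ℝ χc ζ 1 + I * fderiv ℝ χc ζ I‖ ≤ 2 * ‖fderiv ℝ χc ζ‖ := by
          have b1 := (fderiv ℝ χc ζ).le_opNorm 1
          have b2 := (fderiv ℝ χc ζ).le_opNorm I
          have b3 := norm_add_le (fderiv ℝ χc ζ 1) (I * fderiv ℝ χc ζ I)
          rw [norm_mul] at b3
          simp only [norm_one, Complex.norm_I, mul_one, one_mul] at b1 b2 b3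
          linarith
        rw [norm_mul]
        calc _ ≤ 1 * (2 * ‖fderiv ℝ χc ζ‖) := by gcongr
          _ = _ := one_mul _
  have hd2 : ∀ y, ‖fderiv ℝ u y 1 + I * fderiv ℝ u y I‖ ^ 2 ≤
      (closedBall (0 : ℂ) (7 * R)).indicator (fun _ => C1 ^ 2) y := by
    intro y
    rw [hcomb]
    by_cases hy : y ∈ closedBall (0 : ℂ) (7 * R)
    · rw [indicator_of_mem hy]
      gcongr
      have i1 := ((hI ε hε y).1.const_mul 8)
      have i2 := (hGI.comp_sub_left y).const_mul 2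
      refine (norm_integral_le_of_norm_le (i1.add i2) (Eventually.of_forall fun z => ?_)).trans
        (le_of_eq ?_)
      · rw [norm_mul]
        calc _ ≤ 1 * _ := mul_le_mul (hk1 z) (hg (y - z)) (norm_nonneg _) zero_le_one
          _ = _ := one_mul _
      · simp only [Pi.add_apply]
        rw [integral_add i1 i2, integral_const_mul, integral_const_mul, (hI ε hε y).2,
          integral_sub_left_eq_self (fun z => ‖fderiv ℝ χc z‖) volume y]
    · rw [indicator_of_notMem hy]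
      have : ∀ z, k z * (fderiv ℝ c (y - z) 1 + I * fderiv ℝ c (y - z) I) = 0 := by
        intro z
        by_cases hz : z ∈ closedBall (0 : ℂ) R
        · have h1 : 6 * R < ‖y - z‖ := by
            have := norm_sub_norm_le y z
            rw [mem_closedBall_zero_iff] at hy hz
            linarith [not_le.1 hy]
          obtain ⟨a1, a2⟩ := hout _ h1
          rw [hcf, hcf, a1, a2]
          simp
        · rw [hk0 z hz, zero_mul]
      simp [this]
  have hD : ∀ v, Continuous (fun y => fderiv ℝ u y v) := fun v =>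
    (hud.continuous_fderiv (by norm_num)).clm_apply continuous_const
  have i3 : Integrable (fun y => ‖fderiv ℝ u y 1 - I * fderiv ℝ u y I‖ ^ 2) := by
    refine Continuous.integrable_of_hasCompactSupport
      (((hD 1).sub (continuous_const.mul (hD I))).norm.pow 2) ?_
    refine (hus.fderiv ℝ).mono fun y hy h0 => hy ?_
    simp [h0]
  have h3 : ∫ y, ‖fderiv ℝ u y 1 - I * fderiv ℝ u y I‖ ^ 2 ≤
      C1 ^ 2 * (volume (closedBall (0 : ℂ) (7 * R))).toReal := by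
    rw [wirt_eq hud hus]
    refine (integral_mono_of_nonneg (Eventually.of_forall fun y => by positivity)
      ((integrable_indicator_iff measurableSet_closedBall).2
        (integrableOn_const measure_closedBall_lt_top.ne)) (Eventually.of_forall hd2)).trans ?_
    rw [integral_indicator_const _ measurableSet_closedBall, smul_eq_mul, mul_comm]
    rfl
  calc ∫⁻ y in closedBall (0 : ℂ) (3 * R), ‖SE ε k y‖ₑ
      ≤ ∫⁻ y in closedBall (0 : ℂ) (3 * R),
          (1 + ENNReal.ofReal (‖fderiv ℝ u y 1 - I * fderiv ℝ u y I‖ ^ 2)) := by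
        refine setLIntegral_mono' measurableSet_closedBall fun y hy => ?_
        rw [hd1 y hy, ← ofReal_norm_eq_enorm, ← ENNReal.ofReal_one,
          ← ENNReal.ofReal_add zero_le_one (by positivity), norm_mul]
        refine ENNReal.ofReal_le_ofReal ?_
        simp only [norm_neg, Complex.norm_ofNat]
        nlinarith [norm_nonneg (SE ε k y), sq_nonneg (‖SE ε k y‖ - 1)]
    _ ≤ volume (closedBall (0 : ℂ) (3 * R)) +
          ∫⁻ y, ENNReal.ofReal (‖fderiv ℝ u y 1 - I * fderiv ℝ u y I‖ ^ 2) := by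
        rw [lintegral_add_left measurable_const, setLIntegral_one]
        gcongr
        exact Measure.restrict_le_self
    _ ≤ _ := by
        rw [← ofReal_integral_eq_lintegral_ofReal i3 (Eventually.of_forall fun y => by positivity),
          ENNReal.ofReal_add ENNReal.toReal_nonneg (by positivity),
          ENNReal.ofReal_toReal measure_closedBall_lt_top.ne]
        gcongr

end Pool.Agent.H479Z
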