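import Pool.Agent.H479Z.WASmooth
import Pool.Agent.Helper430.NP.JUniqloc
import Pool.Agent.Helper430.NP.JDual
import Pool.Agent.Helper430.NP.JCp
import Pool.Agent.Helper430.NP.JKer
import Pool.Agent.Helper430.NP.JGood
import Pool.Agent.H731R2.Riesz

set_option autoImplicit false
open Set Filter Topology Metric MeasureTheory Complex
open scoped BoundedContinuousFunction

namespace Pool.Agent.H479Z

open Pool.Agent.Helper430.NP

variable {K : Set ℂ}

theorem max_ae (ν : Measure ℂ) [IsFiniteMeasure ν] :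
    ∀ᵐ z : ℂ, ∃ B : ℝ, ∀ r > 0, ν (ball z r) ≤ ENNReal.ofReal (B * r ^ 2) := by
  filter_upwards [Besicovitch.ae_tendsto_rnDeriv ν volume, Measure.rnDeriv_lt_top ν volume]
    with z h1 h2
  set D := ν.rnDeriv volume z
  have h3 : D < D + 1 := ENNReal.lt_add_right h2.ne one_ne_zero
  obtain ⟨δ, hδ, h4⟩ := (nhdsGT_basis (0 : ℝ)).eventually_iff.1 (h1.eventually (gt_mem_nhds h3))
  have hD : D + 1 ≠ ⊤ := ENNReal.add_ne_top.2 ⟨h2.ne, ENNReal.one_ne_top⟩
  refine ⟨(D + 1).toReal * Real.pi + (ν univ).toReal / δ ^ 2, fun r hr => ?_⟩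
  have := Real.pi_pos
  by_cases h5 : r < δ
  · have h6 := (h4 ⟨hr, h5⟩).le
    rw [ENNReal.div_le_iff (measure_closedBall_pos _ _ hr).ne' measure_closedBall_lt_top.ne,
      Complex.volume_closedBall, ← ENNReal.ofReal_pow hr.le, ← ENNReal.ofReal_coe_nnreal,
      ← ENNReal.ofReal_mul (by positivity), ← ENNReal.ofReal_toReal hD,
      ← ENNReal.ofReal_mul ENNReal.toReal_nonneg, NNReal.coe_real_pi] at h6
    refine (measure_mono ball_subset_closedBall).trans (h6.trans (ENNReal.ofReal_le_ofReal ?_))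
    have : 0 ≤ (ν univ).toReal / δ ^ 2 * r ^ 2 := by positivity
    nlinarith
  · refine (measure_mono (subset_univ _)).trans ?_
    rw [← ENNReal.ofReal_toReal (measure_ne_top ν univ)]
    refine ENNReal.ofReal_le_ofReal ?_
    rw [ENNReal.toReal_ofReal ENNReal.toReal_nonneg]
    have a1 : δ ^ 2 ≤ r ^ 2 := pow_le_pow_left₀ hδ.le (not_lt.1 h5) 2
    have a2 : (ν univ).toReal ≤ (ν univ).toReal / δ ^ 2 * r ^ 2 := by
      rw [div_mul_eq_mul_div, le_div_iff₀ (by positivity)]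
      gcongr
    have : 0 ≤ (D + 1).toReal * Real.pi * r ^ 2 := by positivity
    nlinarith

theorem exists_weight (hK : IsCompact K) {μ : Measure ℂ} [IsFiniteMeasure μ] (hμ : μ Kᶜ = 0)
    {θ : ℂ → ℂ} (hθm : Measurable θ) (hθ : Integrable θ μ)
    (hann : ∀ f, IsRat K f → ∫ ζ, f ζ * θ ζ ∂μ = 0) (hne : ¬ ∀ᵐ ζ ∂μ, θ ζ = 0) :
    ∃ (ω : ℂ → ℂ) (C : ℝ), Integrable ω ∧ (∀ z ∉ K, ω z = 0) ∧ ∫ z, ω z ≠ 0 ∧
      ∀ f, IsRat K f → (∀ z ∈ K, ‖f z‖ ≤ 1) → ∀ g : ℂ → ℂ, Measurable g → (∀ z, ‖g z‖ ≤ 1) →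
        ‖∫ z, g z * (deriv f z * ω z)‖ ≤ C := by
  obtain ⟨R0, hR0⟩ := hK.isBounded.subset_closedBall (0 : ℂ)
  have hKR : K ⊆ closedBall 0 (max R0 1) := hR0.trans (closedBall_subset_closedBall (le_max_left _ _))
  set R := max R0 1
  have hR : 1 ≤ R := le_max_right _ _
  set ν := μ.withDensity (fun ζ => ‖θ ζ‖ₑ) with hν
  have : IsFiniteMeasure ν := isFiniteMeasure_withDensity hθ.2.ne
  have hν0 : ν (closedBall (0 : ℂ) R)ᶜ = 0 :=
    withDensity_absolutelyContinuous _ _ (measure_mono_null (compl_subset_compl.2 hKR) hμ)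
  have hker : Measurable (fun p : ℂ × ℂ => θ p.2 / (p.2 - p.1)) :=
    (hθm.comp measurable_snd).div (measurable_snd.sub measurable_fst)
  have hh : Measurable (CT μ θ) :=
    (hker.stronglyMeasurable.integral_prod_right' (ν := μ)).measurable
  have hP : Measurable (fun z : ℂ => ∫⁻ ζ, ‖θ ζ / (ζ - z)‖ₑ ∂μ) :=
    hker.enorm.lintegral_prod_right'
  have hat : Measurable (fun z : ℂ => μ {z}) := by
    have := measurable_measure_prodMk_left (ν := μ) (s := {p : ℂ × ℂ | p.2 = p.1})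
      (isClosed_eq continuous_snd continuous_fst).measurableSet
    exact this
  have hball : ∀ r : ℝ, Measurable (fun z : ℂ => ν (ball z r)) := by
    intro r
    have := measurable_measure_prodMk_left (ν := ν) (s := {p : ℂ × ℂ | dist p.2 p.1 < r})
      (isOpen_lt (by fun_prop) continuous_const).measurableSet
    exact this
  set E : ℕ → Set ℂ := fun n => {z | μ {z} = 0} ∩ {z | CT μ θ z ≠ 0} ∩
    {z | ∫⁻ ζ, ‖θ ζ / (ζ - z)‖ₑ ∂μ ≤ ENNReal.ofReal n} ∩
    ⋂ q : {q : ℚ // 0 < q}, {z | ν (ball z q) ≤ ENNReal.ofReal (n * (q : ℝ) ^ 2)} with hE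
  have hEm : ∀ n, MeasurableSet (E n) := fun n =>
    (((hat (measurableSet_singleton 0)).inter (hh (measurableSet_singleton 0)).compl).inter
      (measurableSet_le hP measurable_const)).inter
      (MeasurableSet.iInter fun q => measurableSet_le (hball _) measurable_const)
  obtain ⟨n, hn⟩ : ∃ n, volume (E n) ≠ 0 := by
    by_contra hcon
    push Not at hcon
    have h0 : volume (⋃ n, E n) = 0 := measure_iUnion_null hcon
    refine hne ((job_uniqloc (job_dual job_cp job_ker (job_good job_ker))).1 μ θ inferInstance hθ ?_)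
    filter_upwards [job_good job_ker μ θ inferInstance hθ, max_ae ν,
      measure_eq_zero_iff_ae_notMem.1 h0] with z a b c
    by_contra hz
    obtain ⟨B, hB⟩ := b
    obtain ⟨n, hn⟩ := exists_nat_ge (max B (∫⁻ ζ, ‖θ ζ / (ζ - z)‖ₑ ∂μ).toReal)
    refine c (mem_iUnion.2 ⟨n, ⟨⟨a.1, hz⟩, ?_⟩, mem_iInter.2 fun q => ?_⟩)
    · have h9 : ∫⁻ ζ, ‖θ ζ / (ζ - z)‖ₑ ∂μ ≠ ⊤ := a.2.2.ne
      show ∫⁻ ζ, ‖θ ζ / (ζ - z)‖ₑ ∂μ ≤ ENNReal.ofReal n
      rw [← ENNReal.ofReal_toReal h9]
      exact ENNReal.ofReal_le_ofReal ((le_max_right _ _).trans hn)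
    · refine (hB q (by exact_mod_cast q.2)).trans (ENNReal.ofReal_le_ofReal ?_)
      gcongr
      exact (le_max_left _ _).trans hn
  have hEK : E n ⊆ K := by
    intro z hz
    by_contra hzK
    apply hz.1.1.2
    have := hann _ (isRat_inv_sub hzK)
    simpa [CT, div_eq_inv_mul] using this
  have hg : ∀ z ∈ E n, good μ θ z ∧ ∫ ζ, ‖θ ζ / (ζ - z)‖ ∂μ ≤ n := by
    intro z hz
    have hm : AEStronglyMeasurable (fun ζ => θ ζ / (ζ - z)) μ :=
      (hθm.div (measurable_id.sub measurable_const)).aestronglyMeasurable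
    refine ⟨⟨hz.1.1.1, hm, lt_of_le_of_lt hz.1.2 ENNReal.ofReal_lt_top⟩, ?_⟩
    rw [integral_norm_eq_lintegral_enorm hm]
    exact ENNReal.toReal_le_of_le_ofReal (Nat.cast_nonneg _) hz.1.2
  obtain ⟨C, hC0, hC⟩ := smooth_bd hR (lam := 4 * n) (by positivity) ν hν0 (hEK.trans hKR)
    (nonempty_of_measure_ne_zero hn) (by
      intro e he r hr
      obtain ⟨q, h1, h2⟩ := exists_rat_btwn (show r < 2 * r by linarith)
      have hq : 0 < q := by exact_mod_cast hr.trans h1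
      refine (measure_mono (closedBall_subset_ball h1)).trans
        ((mem_iInter.1 he.2 ⟨q, hq⟩).trans (ENNReal.ofReal_le_ofReal ?_))
      have : (q : ℝ) ^ 2 ≤ (2 * r) ^ 2 := pow_le_pow_left₀ (hr.trans h1).le h2.le 2
      show (n : ℝ) * (q : ℝ) ^ 2 ≤ _
      nlinarith [Nat.cast_nonneg (α := ℝ) n])
  set κ : ℂ → ℂ := (E n).indicator fun z =>
    (starRingEnd ℂ) (CT μ θ z) * (((1 + ‖CT μ θ z‖ ^ 2 : ℝ) : ℂ))⁻¹ with hκ
  have hκm : Measurable κ := by
    refine Measurable.indicator ((Complex.continuous_conj.measurable.comp hh).mul ?_) (hEm n)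
    exact (Complex.measurable_ofReal.comp (measurable_const.add (hh.norm.pow_const 2))).inv
  have hκ0 : ∀ z ∉ E n, κ z = 0 := fun z hz => indicator_of_notMem hz _
  have hκ1 : ∀ z, ‖κ z‖ ≤ 1 := by
    intro z
    by_cases hz : z ∈ E n
    · rw [hκ, indicator_of_mem hz, norm_mul, norm_inv, Complex.norm_conj, Complex.norm_real,
        Real.norm_eq_abs, abs_of_pos (by positivity), ← div_eq_mul_inv, div_le_one (by positivity)]
      nlinarith [sq_nonneg (‖CT μ θ z‖ - 1), norm_nonneg (CT μ θ z)]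
    · rw [hκ0 z hz]; simp
  set w : ℂ → ℝ := (E n).indicator fun z => ‖CT μ θ z‖ ^ 2 / (1 + ‖CT μ θ z‖ ^ 2) with hw
  have hκw : ∀ z, κ z * CT μ θ z = (w z : ℂ) := by
    intro z
    by_cases hz : z ∈ E n
    · rw [hκ, hw, indicator_of_mem hz, indicator_of_mem hz, mul_right_comm, Complex.conj_mul']
      push_cast
      rw [div_eq_mul_inv]
    · rw [hκ0 z hz, hw, indicator_of_notMem hz]; simp
  have hw0 : ∀ z, 0 ≤ w z := fun z => indicator_nonneg (fun z _ => by positivity) z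
  have hωI : Integrable (fun z => κ z * CT μ θ z) := by
    refine int_of_bd (hκm.mul hh) (B := 1) (R := R) (fun z => ?_)
      (fun z hz => by rw [hκ0 z fun h => hz (hKR (hEK h)), zero_mul])
    rw [hκw, Complex.norm_real, Real.norm_eq_abs, abs_of_nonneg (hw0 z)]
    by_cases hz : z ∈ E n
    · rw [hw, indicator_of_mem hz, div_le_one (by positivity)]; linarith
    · rw [hw, indicator_of_notMem hz]; exact zero_le_one
  refine ⟨fun z => κ z * CT μ θ z, 2 * C, hωI,
    fun z hz => by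
      show κ z * CT μ θ z = 0
      rw [hκ0 z fun h => hz (hEK h), zero_mul], ?_, fun f hf hf1 g hgm hg1 => ?_⟩
  · simp only [hκw] at hωI ⊢
    rw [integral_complex_ofReal, Complex.ofReal_ne_zero]
    have hwI : Integrable w := by simpa using hωI.re
    refine ((integral_pos_iff_support_of_nonneg hw0 hwI).2 ?_).ne'
    refine (pos_iff_ne_zero.2 hn).trans_le (measure_mono fun z hz => ?_)
    have := norm_pos_iff.2 hz.1.1.2
    rw [Function.mem_support, hw, indicator_of_mem hz]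
    positivity
  · have := main_est hK hKR hC0 hμ hθm hθ hann hEK hg (fun ε hε k hk hk1 hk0 => by
      have h1 := hC ε hε k hk hk1 hk0
      rwa [hν, lintegral_withDensity_eq_lintegral_mul _ hθm.enorm (measurable_SE ε hk).enorm] at h1)
      hf hf1 (κ := fun z => g z * κ z) (hgm.mul hκm) (fun z => by
        rw [norm_mul]; exact mul_le_one₀ (hg1 z) (norm_nonneg _) (hκ1 z))
      (fun z hz => by rw [hκ0 z hz, mul_zero])
    refine le_of_eq_of_le ?_ this
    congr 2
    funext z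
    ring

theorem exists_ann (hK : IsCompact K) (Φ : (K →ᵇ ℂ) →L[ℂ] ℂ) (hΦ : Φ ≠ 0) :
    ∃ (μ : Measure ℂ) (θ : ℂ → ℂ), IsFiniteMeasure μ ∧ μ Kᶜ = 0 ∧ Measurable θ ∧ Integrable θ μ ∧
      (¬ ∀ᵐ ζ ∂μ, θ ζ = 0) ∧
      ∀ (F : K →ᵇ ℂ) (f : ℂ → ℂ), (∀ z : K, F z = f z) → ∫ ζ, f ζ * θ ζ ∂μ = Φ F := by
  have : CompactSpace K := isCompact_iff_compactSpace.1 hK
  obtain ⟨m, hm, -, u, hu⟩ := Pool.Agent.H731R2.exists_density
    (Φ.comp (ContinuousMap.linearIsometryBoundedOfCompact K ℂ ℂ : C(K, ℂ) →L[ℂ] (K →ᵇ ℂ)))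
  have hemb : MeasurableEmbedding (Subtype.val : K → ℂ) :=
    MeasurableEmbedding.subtype_coe hK.measurableSet
  set θ : ℂ → ℂ := Function.extend Subtype.val u 0 with hθ
  have hθv : ∀ z : K, θ z = u z := fun z => Subtype.val_injective.extend_apply _ _ z
  have key : ∀ (F : K →ᵇ ℂ) (f : ℂ → ℂ), (∀ z : K, F z = f z) →
      ∫ ζ, f ζ * θ ζ ∂(m.map Subtype.val) = Φ F := by
    intro F f hF
    rw [hemb.integral_map]
    have := hu F.toContinuousMap
    simp only [hθv, ← hF]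
    exact this.symm
  refine ⟨m.map Subtype.val, θ, inferInstance, ?_,
    hemb.measurable_extend (Lp.stronglyMeasurable u).measurable measurable_const, ?_, ?_, key⟩
  · rw [hemb.map_apply]
    convert measure_empty (μ := m)
    ext z
    simp
  · rw [hemb.integrable_map_iff]
    have : θ ∘ Subtype.val = u := funext hθv
    rw [this]
    exact (Lp.memLp u).integrable one_le_two
  · intro h
    apply hΦ
    ext F
    rw [← key F (Function.extend Subtype.val F 0)
      (fun z => (Subtype.val_injective.extend_apply _ _ z).symm)]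
    rw [integral_congr_ae (g := fun _ => 0) (h.mono fun z hz => by simp [hz])]
    simp

theorem ext_bil {V A : Type*} [AddCommGroup V] [Module ℂ V] [NormedAddCommGroup A]
    [NormedSpace ℂ A] (e : V →ₗ[ℂ] A) (he : DenseRange e) (B : V →ₗ[ℂ] A →ₗ[ℂ] ℂ) {C : ℝ}
    (hB1 : ∀ f g, ‖e f‖ ≤ 1 → ‖g‖ ≤ 1 → ‖B f g‖ ≤ C) :
    ∃ D : A →L[ℂ] (A →L[ℂ] ℂ), ∀ f g, D (e f) g = B f g := by
  have hC0 : 0 ≤ C := (norm_nonneg _).trans (hB1 0 0 (by simp) (by simp))
  have hB2 : ∀ (f : V) (g : A), ‖B f g‖ ≤ C * ‖e f‖ * ‖g‖ := by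
    intro f g
    have key : ∀ η > (0 : ℝ), ‖B f g‖ ≤ C * (‖e f‖ + η) * (‖g‖ + η) := by
      intro η hη
      have p1 : 0 < ‖e f‖ + η := by positivity
      have p2 : 0 < ‖g‖ + η := by positivity
      have := hB1 ((((‖e f‖ + η)⁻¹ : ℝ) : ℂ) • f) ((((‖g‖ + η)⁻¹ : ℝ) : ℂ) • g) (by
        rw [map_smul, norm_smul, Complex.norm_real, norm_inv, Real.norm_eq_abs, abs_of_pos p1,
          inv_mul_le_iff₀ p1]; linarith) (by
        rw [norm_smul, Complex.norm_real, norm_inv, Real.norm_eq_abs, abs_of_pos p2,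
          inv_mul_le_iff₀ p2]; linarith)
      rw [map_smul, map_smul, LinearMap.smul_apply, norm_smul, norm_smul, Complex.norm_real,
        Complex.norm_real, norm_inv, norm_inv, Real.norm_eq_abs, Real.norm_eq_abs, abs_of_pos p1,
        abs_of_pos p2, inv_mul_le_iff₀ p2, inv_mul_le_iff₀ p1] at this
      linarith
    have hlim : Tendsto (fun η : ℝ => C * (‖e f‖ + η) * (‖g‖ + η)) (𝓝[>] 0)
        (𝓝 (C * (‖e f‖ + 0) * (‖g‖ + 0))) :=
      tendsto_nhdsWithin_of_tendsto_nhds (Continuous.tendsto (by fun_prop) 0)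
    rw [add_zero, add_zero] at hlim
    exact ge_of_tendsto hlim (eventually_nhdsWithin_of_forall key)
  let T : V →ₗ[ℂ] (A →L[ℂ] ℂ) :=
    { toFun := fun f => (B f).mkContinuous (C * ‖e f‖) (hB2 f)
      map_add' := fun f f' => by ext g; simp
      map_smul' := fun c f => by ext g; simp }
  have hTn : ∃ C', ∀ f, ‖T f‖ ≤ C' * ‖e f‖ :=
    ⟨C, fun f => LinearMap.mkContinuous_norm_le _ (by positivity) (hB2 f)⟩
  refine ⟨T.extendOfNorm e, fun f g => ?_⟩
  rw [LinearMap.extendOfNorm_eq he hTn f]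
  rfl

theorem not_wa (hK : IsCompact K) (A : Subalgebra ℂ (K →ᵇ ℂ))
    (hA : A = (Algebra.adjoin ℂ {f : K →ᵇ ℂ | ∃ p q : Polynomial ℂ,
      (∀ z ∈ K, q.eval z ≠ 0) ∧ ∀ z : K, f z = p.eval (z : ℂ) / q.eval (z : ℂ)}).topologicalClosure)
    (hne : A ≠ ⊤) : ∃ D : A →L[ℂ] (A →L[ℂ] ℂ),
      (∀ a b c : A, D (a * b) c = D a (b * c) + D b (c * a)) ∧ D ≠ 0 := by
  have : CompactSpace K := isCompact_iff_compactSpace.1 hK
  let V : Subalgebra ℂ (ℂ → ℂ) :=
    { carrier := {f | IsRat K f}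
      mul_mem' := fun ha hb => ha.mul hb
      add_mem' := fun ha hb => ha.add hb
      algebraMap_mem' := fun c => isRat_const c }
  let r : V →ₐ[ℂ] (K →ᵇ ℂ) :=
    { toFun := fun f => BoundedContinuousFunction.mkOfCompact (IsRat.res (K := K) f.2)
      map_one' := rfl
      map_mul' := fun _ _ => rfl
      map_zero' := rfl
      map_add' := fun _ _ => rfl
      commutes' := fun _ => rfl }
  have hr : ∀ (f : V) (z : K), r f z = f.1 z := fun _ _ => rfl
  have hadj : Algebra.adjoin ℂ {f : K →ᵇ ℂ | ∃ p q : Polynomial ℂ,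
      (∀ z ∈ K, q.eval z ≠ 0) ∧ ∀ z : K, f z = p.eval (z : ℂ) / q.eval (z : ℂ)} = r.range := by
    refine le_antisymm (Algebra.adjoin_le ?_) ?_
    · rintro F ⟨p, q, hq, hF⟩
      exact ⟨⟨_, isRat_div p q hq⟩, BoundedContinuousFunction.ext fun z => (hF z).symm⟩
    · rintro _ ⟨f, rfl⟩
      obtain ⟨p, q, h1, h2⟩ := f.2
      exact Algebra.subset_adjoin ⟨p, q, h1, fun z => h2 z (h1 z z.2)⟩
  rw [hadj] at hA
  have hrA : ∀ f, r f ∈ A := fun f => hA ▸ Subalgebra.le_topologicalClosure _ ⟨f, rfl⟩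
  let e : V →ₐ[ℂ] A := r.codRestrict A hrA
  have hdense : DenseRange e := by
    intro a
    rw [Metric.mem_closure_iff]
    intro ε hε
    have h1 : a.1 ∈ closure (r.range : Set (K →ᵇ ℂ)) := hA.le a.2
    obtain ⟨_, ⟨f, rfl⟩, h2⟩ := Metric.mem_closure_iff.1 h1 ε hε
    exact ⟨e f, ⟨f, rfl⟩, h2⟩
  have hcl : IsClosed ((Subalgebra.toSubmodule A : Submodule ℂ (K →ᵇ ℂ)) : Set (K →ᵇ ℂ)) := by
    rw [hA]; exact isClosed_closure
  obtain ⟨F0, hF0⟩ : ∃ F0, F0 ∉ A := by
    by_contra h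
    push Not at h
    exact hne (Algebra.eq_top_iff.2 h)
  obtain ⟨φ, hφ⟩ := SeparatingDual.exists_ne_zero (R := ℂ)
    (x := (Subalgebra.toSubmodule A).mkQL F0) (fun h => hF0 ((Submodule.Quotient.mk_eq_zero _).1 h))
  obtain ⟨μ, θ, hμ, hμK, hθm, hθ, hθ0, hint⟩ := exists_ann hK
    (φ.comp (Subalgebra.toSubmodule A).mkQL) (fun h => hφ (by
      have := congrArg (fun L : (K →ᵇ ℂ) →L[ℂ] ℂ => L F0) h
      exact this))
  obtain ⟨ω, C, hωI, hω0, hω1, hC⟩ := exists_weight hK hμK hθm hθ (fun f hf => by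
    rw [hint (r ⟨f, hf⟩) f (fun _ => rfl)]
    have : (Subalgebra.toSubmodule A).mkQL (r ⟨f, hf⟩) = 0 :=
      (Submodule.Quotient.mk_eq_zero _).2 (hrA _)
    rw [ContinuousLinearMap.comp_apply, this, map_zero]) hθ0
  have hemb : MeasurableEmbedding (Subtype.val : K → ℂ) :=
    MeasurableEmbedding.subtype_coe hK.measurableSet
  set x : A → ℂ → ℂ := fun g => Function.extend Subtype.val g.1 0 with hx
  have hxv : ∀ (g : A) (z : K), x g z = g.1 z := fun g z => Subtype.val_injective.extend_apply _ _ z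
  have hxm : ∀ g, Measurable (x g) := fun g =>
    hemb.measurable_extend g.1.continuous.measurable measurable_const
  have hxb : ∀ g z, ‖x g z‖ ≤ ‖g‖ := by
    intro g z
    by_cases hz : z ∈ K
    · rw [hxv g ⟨z, hz⟩]; exact g.1.norm_coe_le_norm _
    · simp only [hx]
      rw [Function.extend_apply' _ _ _ (by rintro ⟨y, rfl⟩; exact hz y.2)]
      simp
  have hcongr : ∀ a b : ℂ → ℂ, (∀ z : K, a z = b z) → ∫ z, a z * ω z = ∫ z, b z * ω z := by
    intro a b h
    congr 1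
    funext z
    by_cases hz : z ∈ K
    · rw [h ⟨z, hz⟩]
    · simp [hω0 z hz]
  have hI : ∀ (f : V) (g : A), Integrable (fun z => x g z * deriv f.1 z * ω z) := by
    intro f g
    obtain ⟨B, hB⟩ := hK.exists_bound_of_continuousOn
      (fun z hz => (IsRat.continuousAt_deriv (K := K) f.2 hz).continuousWithinAt)
    refine Integrable.mono' (hωI.norm.const_mul (‖g‖ * B))
      (((hxm g).mul (measurable_deriv _)).aestronglyMeasurable.mul hωI.1)
      (Eventually.of_forall fun z => ?_)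
    by_cases hz : z ∈ K
    · rw [norm_mul, norm_mul]
      gcongr
      · exact hxb g z
      · exact hB z hz
    · simp [hω0 z hz]
  have hd : ∀ (f : V) (z : K), DifferentiableAt ℂ f.1 z := fun f z =>
    IsRat.differentiableAt (K := K) f.2 z.2
  obtain ⟨B, hB⟩ : ∃ B : V →ₗ[ℂ] A →ₗ[ℂ] ℂ, ∀ f g, B f g = ∫ z, x g z * deriv f.1 z * ω z :=
   ⟨LinearMap.mk₂ ℂ (fun f g => ∫ z, x g z * deriv f.1 z * ω z)
    (fun f f' g => by
      rw [← integral_add (hI f g) (hI f' g)]
      simp only [← add_mul]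
      refine hcongr _ _ fun z => ?_
      rw [Subalgebra.coe_add, deriv_add (hd f z) (hd f' z)]; ring)
    (fun c f g => by
      rw [smul_eq_mul, ← integral_const_mul]
      simp only [← mul_assoc]
      refine hcongr _ _ fun z => ?_
      rw [Subalgebra.coe_smul, deriv_const_smul c (hd f z), smul_eq_mul]; ring)
    (fun f g g' => by
      rw [← integral_add (hI f g) (hI f g')]
      simp only [← add_mul]
      refine hcongr _ _ fun z => ?_
      rw [hxv, hxv, hxv]; rfl)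
    (fun c f g => by
      rw [smul_eq_mul, ← integral_const_mul]
      simp only [← mul_assoc]
      refine hcongr _ _ fun z => ?_
      rw [hxv, hxv]; rfl), fun _ _ => rfl⟩
  have hB1 : ∀ (f : V) (g : A), ‖e.toLinearMap f‖ ≤ 1 → ‖g‖ ≤ 1 → ‖B f g‖ ≤ C := by
    intro f g h1 h2
    have := hC f.1 f.2 (fun z hz => ((r f).norm_coe_le_norm ⟨z, hz⟩).trans h1) (x g) (hxm g)
      (fun z => (hxb g z).trans h2)
    simp only [← mul_assoc] at this
    rw [hB]
    exact this
  obtain ⟨D, hDe⟩ := ext_bil e.toLinearMap hdense B hB1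
  have hT : ∀ f g, D (e f) g = ∫ z, x g z * deriv f.1 z * ω z := fun f g => (hDe f g).trans (hB f g)
  refine ⟨D, fun a b c => ?_, fun h0 => hω1 ?_⟩
  · refine hdense.induction_on₂ (p := fun a b => D (a * b) c = D a (b * c) + D b (c * a))
      (isClosed_eq (by fun_prop) (by fun_prop)) (fun f g => ?_) a b
    rw [← map_mul, hT, hT, hT, ← integral_add (hI _ _) (hI _ _)]
    simp only [← add_mul]
    refine hcongr _ _ fun z => ?_
    rw [hxv, hxv, hxv, Subalgebra.coe_mul, deriv_mul (hd f z) (hd g z)]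
    show _ = g.1 z * c.1 z * _ + c.1 z * f.1 z * _
    ring
  · have h2 := hT ⟨fun z => z, isRat_id⟩ 1
    rw [h0] at h2
    have h3 := hcongr (fun z => x 1 z * deriv (fun z : ℂ => z) z) (fun _ => 1) (fun z => by
      rw [hxv]; simp)
    simp only [one_mul] at h3
    rw [← h3]
    exact h2.symm

end Pool.Agent.H479Z
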