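import Pool.Agent.H479Z.WAKer
import Pool.Agent.H479Z.Rat
import Pool.Agent.Helper430.NP.JBase

set_option autoImplicit false
open Set Filter Topology Metric MeasureTheory Complex

namespace Pool.Agent.H479Z

open Pool.Agent.Helper430.NP

theorem cE_sq_le {ε : ℝ} (hε : 0 < ε) (ζ : ℂ) : ‖cE ε ζ ^ 2‖ ≤ (2 / ε) ^ 2 := by
  rw [norm_pow]
  gcongr
  refine (norm_cE_le hε ζ).trans ?_
  gcongr
  linarith [norm_nonneg ζ]

theorem SE_int {ε : ℝ} (hε : 0 < ε) {k : ℂ → ℂ} (hk : Integrable k) (y : ℂ) :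
    Integrable (fun z => k z * cE ε (y - z) ^ 2) :=
  hk.mul_bdd (((measurable_cE ε).comp (measurable_const.sub measurable_id)).pow_const
    2).aestronglyMeasurable (Eventually.of_forall fun _ => cE_sq_le hε _)

theorem SE_bd {ε : ℝ} (hε : 0 < ε) {k : ℂ → ℂ} (hk : Integrable k) (y : ℂ) :
    ‖SE ε k y‖ ≤ (∫ z, ‖k z‖) * (2 / ε) ^ 2 := by
  rw [← integral_mul_const]
  refine norm_integral_le_of_norm_le (hk.norm.mul_const _) (Eventually.of_forall fun z => ?_)
  rw [norm_mul]
  gcongr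
  exact cE_sq_le hε _

theorem smooth_bd {R lam : ℝ} (hR : 1 ≤ R) (hlam : 0 ≤ lam) (ν : Measure ℂ) [IsFiniteMeasure ν]
    (hν : ν (closedBall (0 : ℂ) R)ᶜ = 0) {E : Set ℂ} (hE : E ⊆ closedBall 0 R) (hne : E.Nonempty)
    (hM : ∀ e ∈ E, ∀ r > 0, ν (closedBall e r) ≤ ENNReal.ofReal (lam * r ^ 2)) :
    ∃ C : ℝ, 0 ≤ C ∧ ∀ ε ∈ Ioc (0 : ℝ) 1, ∀ k : ℂ → ℂ, Measurable k → (∀ z, ‖k z‖ ≤ 1) →
      (∀ z ∉ E, k z = 0) → ∫⁻ w, ‖SE ε k w‖ₑ ∂ν ≤ ENNReal.ofReal C := by
  obtain ⟨I0, hI0, hI⟩ := scale_int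
  obtain ⟨C0, hC0⟩ := beurling_bd hR
  refine ⟨256 * I0 * (ν univ).toReal + 12 * lam * max C0 0, by positivity,
    fun ε hε k hk hk1 hk0 => ?_⟩
  obtain ⟨hε, hε1⟩ := hε
  have hk0' : ∀ z ∉ closedBall (0 : ℂ) R, k z = 0 := fun z hz => hk0 z fun h => hz (hE h)
  have hkI := int_of_bd hk hk1 hk0'
  set ρ : ℂ → ℝ := fun w => infDist w E + ε with hρ
  have hρc : Continuous ρ := (continuous_infDist_pt E).add continuous_const
  have hρ0 : ∀ w, 0 < ρ w := fun w => add_pos_of_nonneg_of_pos infDist_nonneg hε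
  have hρl : ∀ w y, ρ w ≤ ρ y + dist w y := fun w y => by
    have := infDist_le_infDist_add_dist (x := w) (y := y) (s := E)
    simp only [hρ]; linarith
  have hclose : ∀ w y, dist y w < ρ w / 2 → ‖SE ε k w‖ ≤ 256 * I0 + ‖SE ε k y‖ := by
    intro w y hy
    have h1 : ‖SE ε k w - SE ε k y‖ ≤ 256 * I0 := by
      rw [SE, SE, ← integral_sub (SE_int hε hkI w) (SE_int hε hkI y), ← (hI _ (hρ0 w) w).2,
        ← integral_const_mul]
      refine norm_integral_le_of_norm_le ((hI _ (hρ0 w) w).1.const_mul _)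
        (Eventually.of_forall fun z => ?_)
      have hp := hρ0 w
      by_cases hz : z ∈ E
      · have a1 : infDist w E ≤ ‖w - z‖ := by
          rw [← dist_eq_norm]; exact infDist_le_dist_of_mem hz
        have a2 : ρ w ≤ ‖w - z‖ + ε := by simp only [hρ]; linarith
        have a3 : ‖w - z‖ ≤ ‖y - z‖ + dist y w := by
          rw [← dist_eq_norm, ← dist_eq_norm]
          linarith [dist_triangle w y z, dist_comm w y]
        have a4 : ρ w ≤ ‖w - z‖ + ε := a2
        have a5 : ρ w - ε ≥ 0 := by simp only [hρ]; linarith [infDist_nonneg (x := w) (s := E)]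
        have a6 := cE_sq_lip hε (ζ := w - z) (ξ := y - z) (m := (‖w - z‖ + ρ w) / 4)
          (by positivity) (by linarith [norm_nonneg (w - z)]) (by linarith [norm_nonneg (w - z)])
        have a7 : ‖w - z - (y - z)‖ ≤ ρ w / 2 := by
          rw [sub_sub_sub_cancel_right, ← dist_eq_norm, dist_comm]; exact hy.le
        rw [← mul_sub, norm_mul]
        calc _ ≤ 1 * (8 * (ρ w / 2) / ((‖w - z‖ + ρ w) / 4) ^ 3) := by
              gcongr
              · exact hk1 z
              · exact a6.trans (by gcongr)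
          _ = _ := by field_simp; ring
      · rw [hk0 z hz]
        simp only [zero_mul, sub_self, norm_zero]
        positivity
    linarith [norm_sub_norm_le (SE ε k w) (SE ε k y)]
  set G : ℂ → ENNReal := (closedBall (0 : ℂ) (3 * R)).indicator fun y => ‖SE ε k y‖ₑ with hG
  have hGm : Measurable G := (measurable_SE ε hk).enorm.indicator measurableSet_closedBall
  set W : ℂ × ℂ → ENNReal := {p : ℂ × ℂ | dist p.2 p.1 < ρ p.1 / 2}.indicator
    fun p => ENNReal.ofReal (4 / (Real.pi * ρ p.1 ^ 2)) with hW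
  have hWm : Measurable W := by
    refine Measurable.indicator (ENNReal.measurable_ofReal.comp ?_) ?_
    · exact measurable_const.div (measurable_const.mul
        ((hρc.measurable.comp measurable_fst).pow_const 2))
    · exact (isOpen_lt (by fun_prop) ((hρc.comp continuous_fst).div_const 2)).measurableSet
  have havg : ∀ w ∈ closedBall (0 : ℂ) R,
      ‖SE ε k w‖ₑ ≤ ENNReal.ofReal (256 * I0) + ∫⁻ y, W (w, y) * G y := by
    intro w hw
    have hp := hρ0 w
    set a := ENNReal.ofReal (4 / (Real.pi * ρ w ^ 2)) with ha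
    have hone : a * volume (ball w (ρ w / 2)) = 1 := by
      rw [Complex.volume_ball, ← ENNReal.ofReal_pow (by positivity), ← ENNReal.ofReal_coe_nnreal,
        ← ENNReal.ofReal_mul (by positivity), ha, ← ENNReal.ofReal_mul (by positivity),
        ← ENNReal.ofReal_one, NNReal.coe_real_pi]
      congr 1
      have := Real.pi_pos
      field_simp
      ring
    have hρw : ρ w ≤ 3 * R := by
      obtain ⟨e, he⟩ := hne
      have a1 : infDist w E ≤ dist w e := infDist_le_dist_of_mem he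
      have a2 := dist_triangle_right w e 0
      have a3 := mem_closedBall.1 hw
      have a4 := mem_closedBall.1 (hE he)
      simp only [hρ]; linarith
    calc ‖SE ε k w‖ₑ = ∫⁻ _y in ball w (ρ w / 2), a * ‖SE ε k w‖ₑ := by
          rw [setLIntegral_const, mul_right_comm, hone, one_mul]
      _ ≤ ∫⁻ y in ball w (ρ w / 2), (a * ENNReal.ofReal (256 * I0) + W (w, y) * G y) := by
          refine setLIntegral_mono' measurableSet_ball fun y hy => ?_
          have hy3 : y ∈ closedBall (0 : ℂ) (3 * R) := by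
            have a2 := dist_triangle y w 0
            have a3 := mem_closedBall.1 hw
            have a4 := mem_ball.1 hy
            rw [mem_closedBall]; linarith
          have e1 : W (w, y) = a := indicator_of_mem (s := {p : ℂ × ℂ | dist p.2 p.1 < ρ p.1 / 2})
            (a := (w, y)) (mem_ball.1 hy) _
          rw [e1, hG, indicator_of_mem hy3, ← mul_add, ← ofReal_norm, ← ofReal_norm,
            ← ENNReal.ofReal_add (by positivity) (norm_nonneg _)]
          gcongr
          exact hclose w y (mem_ball.1 hy)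
      _ ≤ _ := by
          rw [lintegral_add_left measurable_const, setLIntegral_const, mul_right_comm, hone, one_mul]
          gcongr
          exact Measure.restrict_le_self
  have hdens : ∀ y, ∫⁻ w, W (w, y) ∂ν ≤ ENNReal.ofReal (12 * lam) := by
    intro y
    have hp := hρ0 y
    obtain ⟨e, he, hye⟩ := (infDist_lt_iff hne).1 (show infDist y E < ρ y by simp only [hρ]; linarith)
    calc ∫⁻ w, W (w, y) ∂ν ≤ ∫⁻ w, (closedBall e (2 * ρ y)).indicator
          (fun _ => ENNReal.ofReal (9 / (Real.pi * ρ y ^ 2))) w ∂ν := by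
          refine lintegral_mono fun w => ?_
          by_cases hw : dist y w < ρ w / 2
          · have a1 := hρl w y
            have a2 := hρl y w
            have a3 := dist_triangle w y e
            have a4 := dist_comm w y
            have a5 := hρ0 w
            have e1 : W (w, y) = ENNReal.ofReal (4 / (Real.pi * ρ w ^ 2)) :=
              indicator_of_mem (s := {p : ℂ × ℂ | dist p.2 p.1 < ρ p.1 / 2}) (a := (w, y)) hw _
            rw [e1, indicator_of_mem (mem_closedBall.2 (by linarith))]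
            refine ENNReal.ofReal_le_ofReal ?_
            have := Real.pi_pos
            rw [div_le_div_iff₀ (by positivity) (by positivity)]
            have b1 : (2 * ρ y) ^ 2 ≤ (3 * ρ w) ^ 2 :=
              pow_le_pow_left₀ (by positivity) (by linarith) 2
            nlinarith
          · have e1 : W (w, y) = 0 :=
              indicator_of_notMem (s := {p : ℂ × ℂ | dist p.2 p.1 < ρ p.1 / 2}) (a := (w, y)) hw _
            rw [e1]; exact zero_le
      _ ≤ ENNReal.ofReal (9 / (Real.pi * ρ y ^ 2)) * ENNReal.ofReal (lam * (2 * ρ y) ^ 2) := by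
          rw [lintegral_indicator_const measurableSet_closedBall]
          gcongr
          exact hM e he _ (by positivity)
      _ ≤ _ := by
          have := Real.pi_gt_three
          rw [← ENNReal.ofReal_mul (by positivity)]
          refine ENNReal.ofReal_le_ofReal ?_
          rw [div_mul_eq_mul_div, div_le_iff₀ (by positivity)]
          nlinarith [mul_nonneg hlam (sq_nonneg (ρ y))]
  have hae : ∀ᵐ w ∂ν, w ∈ closedBall (0 : ℂ) R := by rw [ae_iff]; exact hν
  calc ∫⁻ w, ‖SE ε k w‖ₑ ∂ν ≤ ∫⁻ w, (ENNReal.ofReal (256 * I0) + ∫⁻ y, W (w, y) * G y) ∂ν :=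
        lintegral_mono_ae (hae.mono havg)
    _ = ENNReal.ofReal (256 * I0) * ν univ + ∫⁻ y, (∫⁻ w, W (w, y) ∂ν) * G y := by
        rw [lintegral_add_left measurable_const, lintegral_const, lintegral_lintegral_swap
          (hWm.mul (hGm.comp measurable_snd)).aemeasurable]
        congr 1
        refine lintegral_congr fun y => ?_
        exact lintegral_mul_const _ (hWm.comp (measurable_id.prodMk measurable_const))
    _ ≤ ENNReal.ofReal (256 * I0) * ν univ + ∫⁻ y, ENNReal.ofReal (12 * lam) * G y := by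
        gcongr with y
        exact hdens y
    _ ≤ ENNReal.ofReal (256 * I0) * ν univ +
          ENNReal.ofReal (12 * lam) * ENNReal.ofReal (max C0 0) := by
        rw [lintegral_const_mul _ hGm, hG, lintegral_indicator measurableSet_closedBall]
        gcongr
        exact (hC0 ε hε k hk hk1 hk0').trans (ENNReal.ofReal_le_ofReal (le_max_left _ _))
    _ = _ := by
        rw [ENNReal.ofReal_add (by positivity) (by positivity), ENNReal.ofReal_mul (p := 256 * I0) (by positivity),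
          ENNReal.ofReal_toReal (measure_ne_top _ _), ENNReal.ofReal_mul (p := 12 * lam) (by positivity)]

variable {K : Set ℂ}

theorem IsRat.lip {f : ℂ → ℂ} (hf : IsRat K f) (hK : IsCompact K) :
    ∃ L : ℝ, 0 ≤ L ∧ ∀ z ∈ K, ∀ w ∈ K, ‖f w - f z‖ ≤ L * ‖w - z‖ := by
  have h : LocallyLipschitzOn K f := by
    intro x hx
    obtain ⟨p, q, h1, h2⟩ := hf
    have hopen : IsOpen {z : ℂ | q.eval z ≠ 0} := isOpen_ne_fun q.continuous continuous_const
    have hd : DifferentiableOn ℂ f {z : ℂ | q.eval z ≠ 0} := by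
      intro z hz
      have : IsRat {z : ℂ | q.eval z ≠ 0} f := ⟨p, q, fun _ h => h, h2⟩
      exact (this.differentiableAt hz).differentiableWithinAt
    obtain ⟨C, t, ht, hC⟩ :=
      ((hd.analyticOnNhd hopen x (h1 x hx)).contDiffAt (n := 1)).exists_lipschitzOnWith
    exact ⟨C, t, mem_nhdsWithin_of_mem_nhds ht, hC⟩
  obtain ⟨L, hL⟩ := h.exists_lipschitzOnWith_of_compact hK
  refine ⟨L, L.2, fun z hz w hw => ?_⟩
  have := hL.dist_le_mul w hw z hz
  rwa [dist_eq_norm, dist_eq_norm] at this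

theorem main_est (hK : IsCompact K) {R lam C : ℝ} (hKR : K ⊆ closedBall 0 R) (hC0 : 0 ≤ C)
    {μ : Measure ℂ} [IsFiniteMeasure μ] (hμ : μ Kᶜ = 0) {θ : ℂ → ℂ} (hθm : Measurable θ)
    (hθ : Integrable θ μ) (hann : ∀ f, IsRat K f → ∫ ζ, f ζ * θ ζ ∂μ = 0) {E : Set ℂ} (hE : E ⊆ K)
    (hg : ∀ z ∈ E, good μ θ z ∧ ∫ ζ, ‖θ ζ / (ζ - z)‖ ∂μ ≤ lam)
    (hC : ∀ ε ∈ Ioc (0 : ℝ) 1, ∀ k : ℂ → ℂ, Measurable k → (∀ z, ‖k z‖ ≤ 1) →
      (∀ z ∉ E, k z = 0) → ∫⁻ w, ‖θ w‖ₑ * ‖SE ε k w‖ₑ ∂μ ≤ ENNReal.ofReal C)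
    {f : ℂ → ℂ} (hf : IsRat K f) (hf1 : ∀ z ∈ K, ‖f z‖ ≤ 1) {κ : ℂ → ℂ} (hκ : Measurable κ)
    (hκ1 : ∀ z, ‖κ z‖ ≤ 1) (hκ0 : ∀ z ∉ E, κ z = 0) :
    ‖∫ z, κ z * (deriv f z * CT μ θ z)‖ ≤ 2 * C := by
  have haeK : ∀ᵐ z ∂μ, z ∈ K := by rw [ae_iff]; exact hμ
  obtain ⟨L, hL0, hL⟩ := hf.lip hK
  set f1 := K.indicator f with hf1d
  have hf1m : Measurable f1 := base_meas hf.continuousOn hK.measurableSet
  have hf1b : ∀ z, ‖f1 z‖ ≤ 1 := fun z => by
    by_cases hz : z ∈ K
    · rw [hf1d, indicator_of_mem hz]; exact hf1 z hz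
    · rw [hf1d, indicator_of_notMem hz]; simp
  have hf1K : ∀ z ∈ K, f1 z = f z := fun z hz => indicator_of_mem hz _
  have hκ0' : ∀ z ∉ closedBall (0 : ℂ) R, κ z = 0 := fun z hz => hκ0 z fun h => hz (hKR (hE h))
  have hκI := int_of_bd hκ hκ1 hκ0'
  have hrI : ∀ g, IsRat K g → Integrable (fun ζ => g ζ * θ ζ) μ := by
    intro g hg'
    obtain ⟨B, hB⟩ := hK.exists_bound_of_continuousOn hg'.continuousOn
    refine (hθ.bdd_mul (c := max B 0) (base_meas hg'.continuousOn hK.measurableSet).aestronglyMeasurable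
      (haeK.mono fun z hz => ?_)).congr (haeK.mono fun z hz => ?_)
    · rw [indicator_of_mem hz]; exact (hB z hz).trans (le_max_left _ _)
    · simp only [indicator_of_mem hz]
  set e : ℕ → ℝ := fun n => 1 / ((n : ℝ) + 1) with he
  have he0 : ∀ n, e n ∈ Ioc (0 : ℝ) 1 := fun n =>
    ⟨by positivity, by simp only [he]; rw [div_le_one (by positivity)]; linarith [Nat.cast_nonneg (α := ℝ) n]⟩
  set F : ℕ → ℂ → ℂ → ℂ := fun n z ζ => (f1 ζ - f1 z) * cE (e n) (ζ - z) ^ 2 * θ ζ with hF
  have hFm : ∀ n, Measurable (fun p : ℂ × ℂ => F n p.1 p.2) := fun n =>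
    (((hf1m.comp measurable_snd).sub (hf1m.comp measurable_fst)).mul
      (((measurable_cE _).comp (measurable_snd.sub measurable_fst)).pow_const 2)).mul
      (hθm.comp measurable_snd)
  have hFb : ∀ n, ∀ z ∈ K, ∀ ζ ∈ K, ‖F n z ζ‖ ≤ L * ‖θ ζ / (ζ - z)‖ := by
    intro n z hz ζ hζ
    simp only [hF]
    rw [hf1K z hz, hf1K ζ hζ, norm_mul, norm_mul, norm_pow, norm_div]
    have a1 := hL z hz ζ hζ
    have a2 := norm_cE_le_inv (he0 n).1 (ζ - z)
    calc _ ≤ L * ‖ζ - z‖ * (‖ζ - z‖⁻¹) ^ 2 * ‖θ ζ‖ := by gcongr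
      _ = _ := by
        rcases eq_or_ne ‖ζ - z‖ 0 with h | h
        · simp [h]
        · field_simp
  have hlim : ∀ z ∈ E, Tendsto (fun n => ∫ ζ, F n z ζ ∂μ) atTop (𝓝 (deriv f z * CT μ θ z)) := by
    intro z hz
    obtain ⟨⟨hz0, hzI⟩, -⟩ := hg z hz
    have hzK := hE hz
    have haez : ∀ᵐ ζ ∂μ, ζ ≠ z := by rw [ae_iff]; simpa using hz0
    obtain ⟨g, hgr, hfg⟩ := hf.divq hzK
    obtain ⟨g2, hg2r, hg2⟩ := hgr.divq hzK
    have hder : deriv f z = g z := by
      have h1 := ((hasDerivAt_id z).sub_const z).mul (hgr.differentiableAt hzK).hasDerivAt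
      have h2 := (h1.const_add (f z)).congr_of_eventuallyEq (f₁ := f) (hfg z hzK)
      rw [h2.deriv]
      simp
    have e1 : deriv f z * CT μ θ z = ∫ ζ, (g z * (θ ζ / (ζ - z)) + g2 ζ * θ ζ) ∂μ := by
      rw [integral_add (hzI.const_mul _) (hrI g2 hg2r), hann g2 hg2r, add_zero, integral_const_mul,
        hder, CT]
    rw [e1]
    refine tendsto_integral_of_dominated_convergence (fun ζ => L * ‖θ ζ / (ζ - z)‖)
      (fun n => ((hFm n).comp (measurable_const.prodMk measurable_id)).aestronglyMeasurable)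
      (hzI.norm.const_mul _) (fun n => haeK.mono fun ζ hζ => hFb n z hzK ζ hζ) ?_
    filter_upwards [haeK, haez] with ζ hζ hne
    have hne' : ζ - z ≠ 0 := sub_ne_zero.2 hne
    have h1 := (((cE_tendsto hne').pow 2).const_mul (f1 ζ - f1 z)).mul_const (θ ζ)
    have e2 : (f1 ζ - f1 z) * (ζ - z)⁻¹ ^ 2 * θ ζ = g z * (θ ζ / (ζ - z)) + g2 ζ * θ ζ := by
      rw [hf1K z hzK, hf1K ζ hζ, (hfg ζ hζ).self_of_nhds, (hg2 ζ hζ).self_of_nhds]
      field_simp
      ring
    rw [e2] at h1
    exact h1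
  have hlim2 : Tendsto (fun n => ∫ z, κ z * ∫ ζ, F n z ζ ∂μ) atTop
      (𝓝 (∫ z, κ z * (deriv f z * CT μ θ z))) := by
    refine tendsto_integral_of_dominated_convergence (fun z => ‖κ z‖ * (L * lam))
      (fun n => (hκ.mul ((hFm n).stronglyMeasurable.integral_prod_right'
        (ν := μ)).measurable).aestronglyMeasurable)
      (hκI.norm.mul_const _) (fun n => Eventually.of_forall fun z => ?_)
      (Eventually.of_forall fun z => ?_)
    · by_cases hz : z ∈ E
      · rw [norm_mul]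
        gcongr
        refine (norm_integral_le_of_norm_le ((hg z hz).1.2.norm.const_mul L)
          (haeK.mono fun ζ hζ => hFb n z (hE hz) ζ hζ)).trans ?_
        rw [integral_const_mul]
        gcongr
        exact (hg z hz).2
      · rw [hκ0 z hz]; simp
    · by_cases hz : z ∈ E
      · exact (hlim z hz).const_mul _
      · rw [hκ0 z hz]; simp
  refine le_of_tendsto' hlim2.norm fun n => ?_
  have hε := (he0 n).1
  have hprod : Integrable (Function.uncurry fun z ζ => κ z * F n z ζ) (volume.prod μ) := by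
    refine Integrable.mono' (hκI.norm.mul_prod (hθ.norm.const_mul (2 * (2 / e n) ^ 2)))
      ((hκ.comp measurable_fst).mul (hFm n)).aestronglyMeasurable
      (Eventually.of_forall fun p => ?_)
    simp only [Function.uncurry, hF]
    rw [norm_mul, norm_mul, norm_mul]
    have a1 : ‖f1 p.2 - f1 p.1‖ ≤ 2 := by
      linarith [norm_sub_le (f1 p.2) (f1 p.1), hf1b p.2, hf1b p.1]
    have a2 := cE_sq_le hε (p.2 - p.1)
    gcongr
  have hκf : Measurable (fun z => κ z * f1 z) := hκ.mul hf1m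
  have hκf1 : ∀ z, ‖κ z * f1 z‖ ≤ 1 := fun z => by
    rw [norm_mul]; exact mul_le_one₀ (hκ1 z) (norm_nonneg _) (hf1b z)
  have hκf0 : ∀ z ∉ E, κ z * f1 z = 0 := fun z hz => by rw [hκ0 z hz, zero_mul]
  have hκfI := int_of_bd hκf hκf1 (fun z hz => by rw [hκ0' z hz, zero_mul])
  have e1 : ∫ z, κ z * ∫ ζ, F n z ζ ∂μ =
      ∫ ζ, θ ζ * (f1 ζ * SE (e n) κ ζ - SE (e n) (fun z => κ z * f1 z) ζ) ∂μ := by
    simp only [← integral_const_mul]
    rw [integral_integral_swap hprod]
    refine integral_congr_ae (Eventually.of_forall fun ζ => ?_)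
    simp only [SE]
    rw [← integral_const_mul, ← integral_sub ((SE_int hε hκI ζ).const_mul _) (SE_int hε hκfI ζ),
      ← integral_const_mul]
    congr 1
    funext z
    simp only [hF]
    ring
  rw [e1]
  refine (norm_integral_le_lintegral_norm _).trans ?_
  refine ENNReal.toReal_le_of_le_ofReal (by positivity) ?_
  calc _ ≤ ∫⁻ w, (‖θ w‖ₑ * ‖SE (e n) κ w‖ₑ + ‖θ w‖ₑ * ‖SE (e n) (fun z => κ z * f1 z) w‖ₑ) ∂μ := by
        refine lintegral_mono fun w => ?_
        rw [← mul_add, ← ofReal_norm, ← ofReal_norm, ← ofReal_norm,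
          ← ENNReal.ofReal_add (norm_nonneg _) (norm_nonneg _), ← ENNReal.ofReal_mul (norm_nonneg _),
          norm_mul]
        refine ENNReal.ofReal_le_ofReal ?_
        gcongr
        refine (norm_sub_le _ _).trans ?_
        rw [norm_mul]
        gcongr
        exact mul_le_of_le_one_left (norm_nonneg _) (hf1b w)
    _ ≤ ENNReal.ofReal C + ENNReal.ofReal C := by
        have hm : Measurable (fun w => ‖θ w‖ₑ * ‖SE (e n) κ w‖ₑ) :=
          hθm.enorm.mul (measurable_SE _ hκ).enorm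
        rw [lintegral_add_left hm]
        exact add_le_add (hC _ (he0 n) _ hκ hκ1 hκ0) (hC _ (he0 n) _ hκf hκf1 hκf0)
    _ = _ := by rw [← ENNReal.ofReal_add hC0 hC0, two_mul]

end Pool.Agent.H479Z
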